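import Mathlib

set_option autoImplicit false

/-!
# A six-vertex partition function for symmetric alternating sign matrices

`row ω z s L k` is the sum over the configurations of the row of the line with parameter `z`, entering
with state `s`, through the columns `L` (a list of parameters and states), of the weight of the row
times `k` of the new list of columns; the row has to end in state `true`.
-/

namespace Pool.Agent.Helper42.OS

variable {R : Type} [CommRing R]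

/-- The local weights at a crossing with product of parameters `x`. -/
def V (ω x : R) (s u : Bool) (φ : Bool → Bool → R) : R :=
  match s, u with
  | false, false => (ω * x - 1) * φ false false + (ω - 1) * φ true true
  | false, true => (ω - x) * φ false true
  | true, false => (ω - x) * φ true false
  | true, true => (ω * x - 1) * φ true true + (ω - 1) * x * φ false false

/-- One row of the partition function. -/
def row (ω z : R) : Bool → List (R × Bool) → (List (R × Bool) → R) → R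
  | true, [], k => k []
  | false, [], _ => 0
  | s, (y, u) :: L, k =>
      V ω (z * y) s u (fun s' u' => row ω z s' L (fun L' => k ((y, u') :: L')))

/-- The partition function with trivial diagonal. -/
def Z (ω : R) : ℕ → List (R × Bool) → R
  | 0, [] => 1
  | 0, _ :: _ => 0
  | _ + 1, [] => 0
  | n + 1, (z, s) :: L => row ω z s L (Z ω n)

/-- The product of the diagonal weights. -/
def kp (ω : R) (L : List (R × Bool)) : R := (L.map fun p => 1 + ω ^ 2 * p.1).prod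

/-- The weight of a flip on the diagonal. -/
def pw (z : R) : Bool → R
  | true => z
  | false => 1

/-- The partition function with exactly one flip on the diagonal. -/
def Zo (ω : R) : ℕ → List (R × Bool) → R
  | 0, _ => 0
  | _ + 1, [] => 0
  | n + 1, (z, s) :: L => (1 + ω ^ 2 * z) * row ω z s L (Zo ω n) +
      pw z s * kp ω L * row ω z (!s) L (Z ω n)

theorem V_add (ω x : R) (s u : Bool) (φ ψ : Bool → Bool → R) :
    V ω x s u (fun a b => φ a b + ψ a b) = V ω x s u φ + V ω x s u ψ := by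
  cases s <;> cases u <;> simp only [V] <;> ring

theorem V_smul (ω x c : R) (s u : Bool) (φ : Bool → Bool → R) :
    V ω x s u (fun a b => c * φ a b) = c * V ω x s u φ := by
  cases s <;> cases u <;> simp only [V] <;> ring

theorem V_swap (ω x : R) (s u : Bool) (φ : Bool → Bool → R) :
    V ω x s u φ = V ω x u s (fun a b => φ b a) := by
  cases s <;> cases u <;> simp only [V]

theorem row_cons (ω z y : R) (s u : Bool) (L : List (R × Bool)) (k : List (R × Bool) → R) :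
    row ω z s ((y, u) :: L) k =
      V ω (z * y) s u (fun s' u' => row ω z s' L (fun L' => k ((y, u') :: L'))) := by
  cases s <;> rfl

theorem row_add (ω z : R) (s : Bool) (L : List (R × Bool)) (k k' : List (R × Bool) → R) :
    row ω z s L (fun L' => k L' + k' L') = row ω z s L k + row ω z s L k' := by
  induction L generalizing s k k' with
  | nil => cases s <;> simp [row]
  | cons p L ih =>
    obtain ⟨y, u⟩ := p
    simp only [row_cons, ih, V_add]

theorem row_smul (ω z : R) (s : Bool) (L : List (R × Bool)) (c : R) (k : List (R × Bool) → R) :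
    row ω z s L (fun L' => c * k L') = c * row ω z s L k := by
  induction L generalizing s k with
  | nil => cases s <;> simp [row]
  | cons p L ih =>
    obtain ⟨y, u⟩ := p
    simp only [row_cons, ih, V_smul]

theorem row_congr (ω z : R) (s : Bool) (L : List (R × Bool)) (k k' : List (R × Bool) → R)
    (h : ∀ L', L'.map Prod.fst = L.map Prod.fst → k L' = k' L') :
    row ω z s L k = row ω z s L k' := by
  induction L generalizing s k k' with
  | nil => cases s <;> simp [row, h [] rfl]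
  | cons p L ih =>
    obtain ⟨y, u⟩ := p
    simp only [row_cons]
    congr 1
    funext s' u'
    exact ih _ _ _ (fun L' hL' => h _ (by simp [hL']))

theorem row_zero (ω z : R) (s : Bool) (L : List (R × Bool)) :
    row ω z s L (fun _ => 0) = 0 := by
  have := row_smul ω z s L 0 (fun _ => 0)
  simpa using this

/-- The exchange relation between two neighbouring lines. -/
structure Rel (ω z₁ z₂ : R) (f g : Bool → Bool → R) : Prop where
  e00 : (ω ^ 2 * z₂ - z₁) * f false false = (ω ^ 2 * z₂ - z₁) * g false false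
  e11 : (ω ^ 2 * z₂ - z₁) * f true true = (ω ^ 2 * z₂ - z₁) * g true true
  e01 : ω * (z₁ - z₂) * f false true + (ω ^ 2 - 1) * z₂ * f true false =
    (ω ^ 2 * z₂ - z₁) * g true false
  e10 : ω * (z₁ - z₂) * f true false + (ω ^ 2 - 1) * z₁ * f false true =
    (ω ^ 2 * z₂ - z₁) * g false true

theorem Rel.add {ω z₁ z₂ : R} {f g f' g' : Bool → Bool → R} (h : Rel ω z₁ z₂ f g)
    (h' : Rel ω z₁ z₂ f' g') :
    Rel ω z₁ z₂ (fun a b => f a b + f' a b) (fun a b => g a b + g' a b) := by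
  constructor
  · linear_combination h.e00 + h'.e00
  · linear_combination h.e11 + h'.e11
  · linear_combination h.e01 + h'.e01
  · linear_combination h.e10 + h'.e10

theorem Rel.smul {ω z₁ z₂ : R} {f g : Bool → Bool → R} (c : R) (h : Rel ω z₁ z₂ f g) :
    Rel ω z₁ z₂ (fun a b => c * f a b) (fun a b => c * g a b) := by
  constructor
  · linear_combination c * h.e00
  · linear_combination c * h.e11
  · linear_combination c * h.e01
  · linear_combination c * h.e10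

theorem Rel.zero (ω z₁ z₂ : R) : Rel ω z₁ z₂ (fun _ _ => 0) (fun _ _ => 0) := by
  constructor <;> simp

/-- The exchange relation is transported through one crossing line. -/
theorem Rel.pass {ω : R} (hω : ω ^ 2 + ω + 1 = 0) {z₁ z₂ : R} (y : R)
    {f g : Bool → Bool → Bool → R} (h : ∀ t, Rel ω z₁ z₂ (f t) (g t)) (t : Bool) :
    Rel ω z₁ z₂
      (fun a b => V ω (y * z₁) t a (fun t1 a' => V ω (y * z₂) t1 b (fun t2 b' => f t2 a' b')))
      (fun b a => V ω (y * z₂) t b (fun t1 b' => V ω (y * z₁) t1 a (fun t2 a' => g t2 b' a'))) := by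
  have hf := h false
  have ht := h true
  cases t
  · constructor
    · simp only [V]
      linear_combination (ω^2*y^2*z₁*z₂ + (-1)*ω*y*z₁ + (-1)*ω*y*z₂ + (1)) * hf.e00 + (ω^2 + (-1)*ω*y*z₁ + (-1)*ω + y*z₁) * ht.e01 + (ω^2*y*z₂ + (-1)*ω*y*z₂ + (-1)*ω + (1)) * ht.e10
    · simp only [V]
      linear_combination (ω^2 + (-1)*ω*y*z₁ + (-1)*ω*y*z₂ + y^2*z₁*z₂) * hf.e11
    · simp only [V]
      linear_combination (ω^2*y*z₁ + (-1)*ω*y^2*z₁*z₂ + (-1)*ω + y*z₂) * hf.e01 + (ω^2 + (-1)*ω*y*z₂ + (-1)*ω + y*z₂) * ht.e11 + (((-1)*ω^2*y*z₁*z₂ + ω^2*y*z₂^2 + (2)*ω*y*z₁*z₂ + (-2)*ω*y*z₂^2 + (-1)*y*z₁*z₂ + y*z₂^2) * f false true false) * hω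
    · simp only [V]
      linear_combination (ω^2*y*z₁ + (-2)*ω*y*z₁ + y*z₁) * hf.e01 + (ω^2*y*z₂ + (-1)*ω*y^2*z₁*z₂ + (-1)*ω + y*z₁) * hf.e10 + (ω^2*y*z₁ + (-1)*ω*y*z₁ + (-1)*ω + (1)) * ht.e11 + ((ω^2*y*z₁^2 + (-1)*ω^2*y*z₁*z₂ + (-2)*ω*y*z₁^2 + (2)*ω*y*z₁*z₂ + y*z₁^2 + (-1)*y*z₁*z₂) * f false false true) * hω
  · constructor
    · simp only [V]
      linear_combination (ω^2 + (-1)*ω*y*z₁ + (-1)*ω*y*z₂ + y^2*z₁*z₂) * ht.e00
    · simp only [V]
      linear_combination (ω^2*y^2*z₁*z₂ + (-1)*ω*y^2*z₁*z₂ + (-1)*ω*y*z₁ + y*z₁) * hf.e01 + (ω^2*y*z₂ + (-1)*ω*y^2*z₁*z₂ + (-1)*ω*y*z₂ + y^2*z₁*z₂) * hf.e10 + (ω^2*y^2*z₁*z₂ + (-1)*ω*y*z₁ + (-1)*ω*y*z₂ + (1)) * ht.e11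
    · simp only [V]
      linear_combination (ω^2*y^2*z₁*z₂ + (-1)*ω*y^2*z₁*z₂ + (-1)*ω*y*z₂ + y*z₂) * hf.e00 + (ω^2*y*z₂ + (-1)*ω*y^2*z₁*z₂ + (-1)*ω + y*z₁) * ht.e01 + (ω^2*y*z₂ + (-2)*ω*y*z₂ + y*z₂) * ht.e10 + ((ω^2*y*z₁*z₂ + (-1)*ω^2*y*z₂^2 + (-2)*ω*y*z₁*z₂ + (2)*ω*y*z₂^2 + y*z₁*z₂ + (-1)*y*z₂^2) * f true true false) * hω
    · simp only [V]
      linear_combination (ω^2*y*z₁ + (-1)*ω*y^2*z₁*z₂ + (-1)*ω*y*z₁ + y^2*z₁*z₂) * hf.e00 + (ω^2*y*z₁ + (-1)*ω*y^2*z₁*z₂ + (-1)*ω + y*z₂) * ht.e10 + (((-1)*ω^2*y*z₁^2 + ω^2*y*z₁*z₂ + (2)*ω*y*z₁^2 + (-2)*ω*y*z₁*z₂ + (-1)*y*z₁^2 + y*z₁*z₂) * f true false true) * hω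

/-- The exchange relation and the crossing of the two lines. -/
theorem Rel.pair {ω : R} (_hω : ω ^ 2 + ω + 1 = 0) {z₁ z₂ : R} {f g : Bool → Bool → R}
    (h : Rel ω z₁ z₂ f g) :
    Rel ω z₁ z₂ (fun a b => V ω (z₁ * z₂) a b f) (fun b a => V ω (z₂ * z₁) b a g) := by
  constructor
  · simp only [V]
    linear_combination (ω*z₁*z₂ + (-1)) * h.e00 + (ω + (-1)) * h.e11
  · simp only [V]
    linear_combination (ω*z₁*z₂ + (-1)*z₁*z₂) * h.e00 + (ω*z₁*z₂ + (-1)) * h.e11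
  · simp only [V]
    linear_combination (ω + (-1)*z₁*z₂) * h.e01
  · simp only [V]
    linear_combination (ω + (-1)*z₁*z₂) * h.e10

/-- The exchange relation and the crossing of the two lines together with one flip on the diagonal. -/
theorem Rel.refl {ω : R} (hω : ω ^ 2 + ω + 1 = 0) {z₁ z₂ : R} {f g : Bool → Bool → R}
    (h : Rel ω z₁ z₂ f g) :
    Rel ω z₁ z₂
      (fun a b => (1 + ω ^ 2 * z₁) * V ω (z₁ * z₂) a b (fun a' b' => pw z₂ b' * f a' (!b')) +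
        (1 + ω ^ 2 * z₂) * pw z₁ a * V ω (z₁ * z₂) (!a) b f)
      (fun b a => (1 + ω ^ 2 * z₂) * V ω (z₂ * z₁) b a (fun b' a' => pw z₁ a' * g b' (!a')) +
        (1 + ω ^ 2 * z₁) * pw z₂ b * V ω (z₂ * z₁) (!b) a g) := by
  constructor
  · simp only [V, pw, Bool.not_false, Bool.not_true]
    linear_combination (ω^3*z₁*z₂ + ω^3*z₁ + (-1)*ω^2*z₁^2*z₂ + (-1)*ω^2*z₁*z₂ + ω*z₁ + ω + (-1)*z₁*z₂ + (-1)*z₁) * h.e01 + (ω^3*z₁*z₂^2 + (-1)*ω^2*z₂ + ω*z₁*z₂ + (-1)) * h.e10 + (((-1)*ω^2*z₁^2*z₂ + (-1)*ω^2*z₁^2 + ω^2*z₁*z₂^2 + ω^2*z₁*z₂ + ω*z₁^2*z₂ + ω*z₁^2 + (-1)*ω*z₁*z₂^2 + (-1)*ω*z₁*z₂) * f false true + ((-1)*ω^3*z₁*z₂ + ω^3*z₂^2 + ω^2*z₁*z₂ + (-1)*ω^2*z₂^2 + (-1)*ω*z₁^2*z₂ + ω*z₁*z₂^2 + z₁^2*z₂ + (-1)*z₁*z₂^2) * f true false) * hω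
  · simp only [V, pw, Bool.not_false, Bool.not_true]
    linear_combination (ω^3*z₁^2*z₂^2 + (-1)*ω^2*z₁*z₂ + ω*z₁^2*z₂ + (-1)*z₁) * h.e01 + (ω^3*z₁*z₂^2 + ω^3*z₁*z₂ + (-1)*ω^2*z₁^2*z₂^2 + (-1)*ω^2*z₁*z₂^2 + ω*z₁*z₂ + ω*z₂ + (-1)*z₁*z₂^2 + (-1)*z₁*z₂) * h.e10 + (((-1)*ω^2*z₁^2*z₂^2 + (-1)*ω^2*z₁^2*z₂ + ω^2*z₁*z₂^3 + ω^2*z₁*z₂^2 + ω*z₁^2*z₂^2 + ω*z₁^2*z₂ + (-1)*ω*z₁*z₂^3 + (-1)*ω*z₁*z₂^2) * f true false + ((-1)*ω^3*z₁^2*z₂ + ω^3*z₁*z₂^2 + ω^2*z₁^2*z₂ + (-1)*ω^2*z₁*z₂^2 + (-1)*ω*z₁^3*z₂ + ω*z₁^2*z₂^2 + z₁^3*z₂ + (-1)*z₁^2*z₂^2) * f false true) * hω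
  · simp only [V, pw, Bool.not_false, Bool.not_true]
    linear_combination (ω^3*z₁^2*z₂^2 + (-1)*ω^2*z₁*z₂ + ω*z₁*z₂^2 + (-1)*z₂) * h.e00 + (ω^3*z₁*z₂ + ω^3*z₂ + (-1)*ω^2*z₁*z₂^2 + (-1)*ω^2*z₁*z₂ + ω*z₂ + ω + (-1)*z₁*z₂ + (-1)*z₂) * h.e11 + ((ω^2*z₁^2*z₂^2 + ω^2*z₁^2*z₂ + (-1)*ω^2*z₁*z₂^3 + (-1)*ω^2*z₁*z₂^2 + (-1)*ω*z₁^2*z₂^2 + (-1)*ω*z₁^2*z₂ + ω*z₁*z₂^3 + ω*z₁*z₂^2) * f false false + (ω^3*z₁*z₂ + (-1)*ω^3*z₂^2 + (-1)*ω^2*z₁*z₂ + ω^2*z₂^2 + ω*z₁^2*z₂ + (-1)*ω*z₁*z₂^2 + (-1)*z₁^2*z₂ + z₁*z₂^2) * f true true) * hω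
  · simp only [V, pw, Bool.not_false, Bool.not_true]
    linear_combination (ω^3*z₁^2*z₂ + ω^3*z₁*z₂ + (-1)*ω^2*z₁^2*z₂^2 + (-1)*ω^2*z₁^2*z₂ + ω*z₁*z₂ + ω*z₁ + (-1)*z₁^2*z₂ + (-1)*z₁*z₂) * h.e00 + (ω^3*z₁^2*z₂ + (-1)*ω^2*z₁ + ω*z₁*z₂ + (-1)) * h.e11 + ((ω^2*z₁^2*z₂ + ω^2*z₁^2 + (-1)*ω^2*z₁*z₂^2 + (-1)*ω^2*z₁*z₂ + (-1)*ω*z₁^2*z₂ + (-1)*ω*z₁^2 + ω*z₁*z₂^2 + ω*z₁*z₂) * f true true + (ω^3*z₁^2*z₂ + (-1)*ω^3*z₁*z₂^2 + (-1)*ω^2*z₁^2*z₂ + ω^2*z₁*z₂^2 + ω*z₁^3*z₂ + (-1)*ω*z₁^2*z₂^2 + (-1)*z₁^3*z₂ + z₁^2*z₂^2) * f false false) * hω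

/-- `row` at a fixed row applied to a family of functions satisfying the exchange relation. -/
theorem Rel.lift {ω z₁ z₂ : R} (z : R) (s : Bool) (L : List (R × Bool))
    (F G : Bool → Bool → List (R × Bool) → R)
    (h : ∀ L', Rel ω z₁ z₂ (fun a b => F a b L') (fun a b => G a b L')) :
    Rel ω z₁ z₂ (fun a b => row ω z s L (F a b)) (fun a b => row ω z s L (G a b)) := by
  constructor
  · rw [← row_smul, ← row_smul]
    congr 1
    funext L'
    exact (h L').e00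
  · rw [← row_smul, ← row_smul]
    congr 1
    funext L'
    exact (h L').e11
  · rw [← row_smul, ← row_smul, ← row_smul, ← row_add]
    congr 1
    funext L'
    exact (h L').e01
  · rw [← row_smul, ← row_smul, ← row_smul, ← row_add]
    congr 1
    funext L'
    exact (h L').e10

/-- The exchange relation at every place of the list. -/
def Ex (ω z₁ z₂ : R) (k : List (R × Bool) → R) : Prop :=
  ∀ P Q, Rel ω z₁ z₂ (fun a b => k (P ++ (z₁, a) :: (z₂, b) :: Q))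
    (fun b a => k (P ++ (z₂, b) :: (z₁, a) :: Q))

theorem Ex.cons {ω z₁ z₂ : R} {k : List (R × Bool) → R} (h : Ex ω z₁ z₂ k) (p : R × Bool) :
    Ex ω z₁ z₂ (fun L => k (p :: L)) := fun P Q => h (p :: P) Q

theorem Rel.vert {ω z₁ z₂ : R} (x : R) (s u : Bool) (F G : Bool → Bool → Bool → Bool → R)
    (h : ∀ s' u', Rel ω z₁ z₂ (fun a b => F s' u' a b) (fun a b => G s' u' a b)) :
    Rel ω z₁ z₂ (fun a b => V ω x s u (fun s' u' => F s' u' a b))
      (fun a b => V ω x s u (fun s' u' => G s' u' a b)) := by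
  cases s <;> cases u <;> simp only [V]
  · exact ((h false false).smul _).add ((h true true).smul _)
  · exact (h false true).smul _
  · exact (h true false).smul _
  · exact ((h true true).smul _).add ((h false false).smul _)

theorem Ex.thru {ω : R} (hω : ω ^ 2 + ω + 1 = 0) {z₁ z₂ : R} {k : List (R × Bool) → R}
    (h : Ex ω z₁ z₂ k) (y : R) (t : Bool) : Ex ω z₁ z₂ (fun L => row ω y t L k) := by
  intro P
  induction P generalizing t k with
  | nil =>
    intro Q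
    simp only [List.nil_append, row_cons]
    refine Rel.pass hω y (f := fun t a b => row ω y t Q (fun L' => k ((z₁, a) :: (z₂, b) :: L')))
      (g := fun t b a => row ω y t Q (fun L' => k ((z₂, b) :: (z₁, a) :: L'))) ?_ t
    intro t'
    exact Rel.lift y t' Q (fun a b L' => k ((z₁, a) :: (z₂, b) :: L'))
      (fun b a L' => k ((z₂, b) :: (z₁, a) :: L')) (fun L' => h [] L')
  | cons p P ih =>
    intro Q
    obtain ⟨x, u⟩ := p
    simp only [List.cons_append, row_cons]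
    exact Rel.vert (y * x) t u
      (fun s' u' a b => row ω y s' (P ++ (z₁, a) :: (z₂, b) :: Q) (fun L' => k ((x, u') :: L')))
      (fun s' u' b a => row ω y s' (P ++ (z₂, b) :: (z₁, a) :: Q) (fun L' => k ((x, u') :: L')))
      (fun s' u' => ih (h.cons (x, u')) s' Q)

/-- Two rows. -/
def DD (ω z₁ z₂ : R) (a b : Bool) (Q : List (R × Bool)) (k : List (R × Bool) → R) : R :=
  row ω z₁ a Q (fun L' => row ω z₂ b L' k)

theorem DD_cons (ω z₁ z₂ y : R) (a b u : Bool) (Q : List (R × Bool)) (k : List (R × Bool) → R) :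
    DD ω z₁ z₂ a b ((y, u) :: Q) k =
      V ω (y * z₁) u a (fun u1 a' => V ω (y * z₂) u1 b (fun u2 b' =>
        DD ω z₁ z₂ a' b' Q (fun L' => k ((y, u2) :: L')))) := by
  unfold DD
  rw [row_cons, V_swap, mul_comm]
  congr 1
  funext u1 a'
  simp only [row_cons]
  rw [mul_comm z₂ y]
  have key : ∀ (φ : Bool → Bool → List (R × Bool) → R),
      row ω z₁ a' Q (fun L' => V ω (y * z₂) b u1 (fun s' u' => φ s' u' L')) =
      V ω (y * z₂) u1 b (fun u' s' => row ω z₁ a' Q (fun L' => φ s' u' L')) := by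
    intro φ
    cases b <;> cases u1 <;> simp only [V, row_add, row_smul]
  exact key (fun s' u' L' => row ω z₂ s' L' (fun L'_1 => k ((y, u') :: L'_1)))

theorem DD_rel {ω : R} (hω : ω ^ 2 + ω + 1 = 0) (z₁ z₂ : R) (Q : List (R × Bool))
    (k : List (R × Bool) → R) :
    Rel ω z₁ z₂ (fun a b => DD ω z₁ z₂ a b Q k) (fun b a => DD ω z₂ z₁ b a Q k) := by
  induction Q generalizing k with
  | nil =>
    constructor <;> simp [DD, row]
  | cons p Q ih =>
    obtain ⟨y, u⟩ := p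
    simp only [DD_cons]
    exact Rel.pass hω y (f := fun t a b => DD ω z₁ z₂ a b Q (fun L' => k ((y, t) :: L')))
      (g := fun t b a => DD ω z₂ z₁ b a Q (fun L' => k ((y, t) :: L'))) (fun t => ih _) u

theorem Z_two (ω z₁ z₂ : R) (a b : Bool) (n : ℕ) (Q : List (R × Bool)) :
    Z ω (n + 2) ((z₁, a) :: (z₂, b) :: Q) =
      V ω (z₁ * z₂) a b (fun a' b' => DD ω z₁ z₂ a' b' Q (Z ω n)) := by
  simp only [Z, row_cons, DD]

theorem Ex_Z {ω : R} (hω : ω ^ 2 + ω + 1 = 0) (z₁ z₂ : R) (n : ℕ) : Ex ω z₁ z₂ (Z ω n) := by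
  induction n with
  | zero =>
    intro P Q
    cases P <;> simpa [Z] using Rel.zero ω z₁ z₂
  | succ n ih =>
    intro P Q
    cases P with
    | cons p P =>
      obtain ⟨y, t⟩ := p
      simp only [List.cons_append, Z]
      exact ih.thru hω y t P Q
    | nil =>
      simp only [List.nil_append]
      cases n with
      | zero =>
        simp only [Z, row_cons, row_zero]
        have : ∀ x a b, V ω x a b (fun _ _ => (0 : R)) = 0 := by
          intro x a b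
          cases a <;> cases b <;> simp [V]
        simpa only [this] using Rel.zero ω z₁ z₂
      | succ n =>
        simp only [Z_two]
        exact (DD_rel hω z₁ z₂ Q (Z ω n)).pair hω

theorem kp_map (ω : R) (L L' : List (R × Bool)) (h : L'.map Prod.fst = L.map Prod.fst) :
    kp ω L' = kp ω L := by
  have h1 : ∀ L : List (R × Bool), kp ω L = ((L.map Prod.fst).map (fun x => 1 + ω ^ 2 * x)).prod := by
    intro L; simp [kp, List.map_map, Function.comp_def]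
  rw [h1, h1, h]

theorem kp_cons (ω : R) (p : R × Bool) (L : List (R × Bool)) :
    kp ω (p :: L) = (1 + ω ^ 2 * p.1) * kp ω L := by
  simp [kp]

theorem kp_append (ω : R) (L L' : List (R × Bool)) :
    kp ω (L ++ L') = kp ω L * kp ω L' := by
  simp [kp]

theorem Zo_cons (ω z : R) (s : Bool) (n : ℕ) (L : List (R × Bool)) :
    Zo ω (n + 1) ((z, s) :: L) = (1 + ω ^ 2 * z) * row ω z s L (Zo ω n) +
      pw z s * kp ω L * row ω z (!s) L (Z ω n) := rfl

theorem Zo_two (ω z₁ z₂ : R) (a b : Bool) (n : ℕ) (Q : List (R × Bool)) :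
    Zo ω (n + 2) ((z₁, a) :: (z₂, b) :: Q) =
      (1 + ω ^ 2 * z₁) * (1 + ω ^ 2 * z₂) *
        V ω (z₁ * z₂) a b (fun a' b' => DD ω z₁ z₂ a' b' Q (Zo ω n)) +
      kp ω Q * ((1 + ω ^ 2 * z₁) * V ω (z₁ * z₂) a b (fun a' b' =>
          pw z₂ b' * DD ω z₁ z₂ a' (!b') Q (Z ω n)) +
        (1 + ω ^ 2 * z₂) * pw z₁ a * V ω (z₁ * z₂) (!a) b (fun a' b' =>
          DD ω z₁ z₂ a' b' Q (Z ω n))) := by
  have h1 : ∀ a' b', row ω z₁ a' Q (fun L' => Zo ω (n + 1) ((z₂, b') :: L')) =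
      (1 + ω ^ 2 * z₂) * DD ω z₁ z₂ a' b' Q (Zo ω n) +
        kp ω Q * (pw z₂ b' * DD ω z₁ z₂ a' (!b') Q (Z ω n)) := by
    intro a' b'
    unfold DD
    rw [← row_smul, ← row_smul, ← row_smul, ← row_add]
    apply row_congr
    intro L' hL'
    rw [Zo_cons, kp_map ω Q L' hL']
    ring
  rw [Zo_cons, row_cons]
  simp only [h1]
  rw [V_add, V_smul, V_smul, kp_cons, row_cons]
  simp only [Z, DD]
  ring

theorem Ex_Zo {ω : R} (hω : ω ^ 2 + ω + 1 = 0) (z₁ z₂ : R) (n : ℕ) : Ex ω z₁ z₂ (Zo ω n) := by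
  induction n with
  | zero =>
    intro P Q
    simpa [Zo] using Rel.zero ω z₁ z₂
  | succ n ih =>
    intro P Q
    cases P with
    | cons p P =>
      obtain ⟨y, t⟩ := p
      simp only [List.cons_append, Zo_cons]
      have e1 : ∀ a b, kp ω (P ++ (z₁, a) :: (z₂, b) :: Q) =
          kp ω P * ((1 + ω ^ 2 * z₁) * ((1 + ω ^ 2 * z₂) * kp ω Q)) := by
        intro a b; simp only [kp_append, kp_cons]
      have e2 : ∀ a b, kp ω (P ++ (z₂, b) :: (z₁, a) :: Q) =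
          kp ω P * ((1 + ω ^ 2 * z₁) * ((1 + ω ^ 2 * z₂) * kp ω Q)) := by
        intro a b; simp only [kp_append, kp_cons]; ring
      simp only [e1, e2]
      exact ((ih.thru hω y t P Q).smul _).add (((Ex_Z hω z₁ z₂ n).thru hω y (!t) P Q).smul _)
    | nil =>
      simp only [List.nil_append]
      cases n with
      | zero =>
        have hZ : ∀ (z w : R) (a b : Bool) (Q : List (R × Bool)),
            row ω z a ((w, b) :: Q) (Z ω 0) = 0 := by
          intro z w a b Q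
          rw [row_cons]
          simp only [Z, row_zero]
          cases a <;> cases b <;> simp [V]
        have hZo : ∀ (z : R) (a : Bool) (Q : List (R × Bool)),
            row ω z a Q (Zo ω 0) = 0 := by
          intro z a Q
          have : Zo ω 0 = fun _ => (0 : R) := by funext L; rfl
          rw [this, row_zero]
        simp only [Zo_cons, hZ, hZo, mul_zero, add_zero]
        exact Rel.zero ω z₁ z₂
      | succ n =>
        simp only [Zo_two]
        have r1 := ((DD_rel hω z₁ z₂ Q (Zo ω n)).pair hω).smul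
          ((1 + ω ^ 2 * z₁) * (1 + ω ^ 2 * z₂))
        have r2 := ((DD_rel hω z₁ z₂ Q (Z ω n)).refl hω).smul (kp ω Q)
        have r := r1.add r2
        rw [mul_comm (1 + ω ^ 2 * z₂) (1 + ω ^ 2 * z₁)]
        exact r

end Pool.Agent.Helper42.OS
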