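import Pool.Agent.Helper42.OS.Det

set_option autoImplicit false

namespace Pool.Agent.Helper42.OS

open Matrix Finset

/-- The constants. -/
def Cc (ω : ℂ) : ℕ → ℂ
  | 0 => ω - 1
  | N + 1 => (ω - 1) * ω ^ (2 * N + 2) * Cc ω N

/-- The determinant formula for the even partition function. -/
def CH (ω : ℂ) (N : ℕ) (z : Fin (2 * N + 2) → ℂ) : Prop :=
  ZZ ω (List.ofFn z) * (vandermonde (fun i => AA (z i))).det =
    Cc ω N * (∏ i, z i ^ N) * (MM (fun i => AA (z i))).det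

theorem CH_step {ω : ℂ} (hω : ω ^ 2 + ω + 1 = 0) (N : ℕ) (z : Fin (2 * N + 4) → ℂ)
    (hz : ∀ i, z i ≠ 0) (h : z 0 * z 1 = ω ^ 2) (H : CH ω N (fun i => z i.succ.succ)) :
    CH ω (N + 1) z := by
  unfold CH at *
  have e1 : List.ofFn z = z 0 :: z 1 :: List.ofFn (fun i : Fin (2 * N + 2) => z i.succ.succ) := by
    rw [List.ofFn_succ, List.ofFn_succ]
    rfl
  have ha : ω * (z 0 * z 1) = 1 := by rw [h]; linear_combination (ω - 1) * hω
  have e0' : (z 0)⁻¹ = ω * z 1 := by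
    apply inv_eq_of_mul_eq_one_right
    linear_combination ha
  have e1' : (z 1)⁻¹ = ω * z 0 := by
    apply inv_eq_of_mul_eq_one_right
    linear_combination ha
  have h3 : (AA (z 0)) ^ 2 + AA (z 0) * AA (z 1) + (AA (z 1)) ^ 2 = 3 := by
    have e0 : z 0 = ω ^ 2 * (z 1)⁻¹ := by
      field_simp [hz 1]
      exact h
    have e2 : z 1 * (z 1)⁻¹ = 1 := mul_inv_cancel₀ (hz 1)
    unfold AA
    rw [e0', e0]
    linear_combination ((z 1)⁻¹ ^ 2 * (ω ^ 2 - ω + 1) + (z 1) ^ 2 + (2 * ω - 1)) * hω +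
      (2 * ω ^ 3 + ω ^ 2 + ω + 2) * e2
  have hP : ∀ a, PP a - PP (AA (z 0)) =
      (a - AA (z 0)) * (a - AA (z 1)) * (a + AA (z 0) + AA (z 1)) := by
    intro a
    unfold PP
    linear_combination (a - AA (z 0)) * (h3)
  have hPP : PP (AA (z 0)) = PP (AA (z 1)) := by
    have := hP (AA (z 1))
    linear_combination -this
  have key : ∀ t : ℂ, t ≠ 0 → ((ω - z 0 * t) * (ω - z 1 * t)) *
      ((AA t - AA (z 0)) * (AA t - AA (z 1))) = (ω ^ 2 * t) * (PP (AA t) - PP (AA (z 0))) := by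
    intro t ht
    have : (ω - z 0 * t) * (ω - z 1 * t) = (ω ^ 2 * t) * (AA t + AA (z 0) + AA (z 1)) := by
      unfold AA
      rw [e0', e1']
      have e2 : t * t⁻¹ = 1 := mul_inv_cancel₀ ht
      linear_combination t ^ 2 * h - ω ^ 2 * e2 - (z 0 + z 1) * t * (ω) * hω
    rw [this, hP]
    ring
  have r1 := ZZ_rec_a ω ha (List.ofFn (fun i : Fin (2 * N + 2) => z i.succ.succ))
  have r2 := vdm_det_rec (fun i : Fin (2 * N + 4) => AA (z i))
  have r3 := MM_det_rec (fun i : Fin (2 * N + 4) => AA (z i)) hPP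
  have r4 : (∏ i : Fin (2 * N + 4), z i ^ (N + 1)) =
      (z 0 * z 1) ^ (N + 1) * ∏ i : Fin (2 * N + 2), z i.succ.succ ^ (N + 1) := by
    rw [Fin.prod_univ_succ, Fin.prod_univ_succ]
    have : z (Fin.succ 0) = z 1 := rfl
    rw [this]
    ring
  have r5 : (∏ i : Fin (2 * N + 2), (ω - z 0 * z i.succ.succ) * (ω - z 1 * z i.succ.succ)) *
      (∏ i : Fin (2 * N + 2), ((AA (z i.succ.succ) - AA (z 0)) * (AA (z i.succ.succ) - AA (z 1)))) =
      ω ^ (2 * (2 * N + 2)) * (∏ i : Fin (2 * N + 2), z i.succ.succ) *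
      (∏ i : Fin (2 * N + 2), (PP (AA (z i.succ.succ)) - PP (AA (z 0)))) := by
    rw [← Finset.prod_mul_distrib, Finset.prod_congr rfl (fun i _ => key _ (hz i.succ.succ)),
      Finset.prod_mul_distrib, Finset.prod_mul_distrib]
    simp only [Finset.prod_const, Finset.card_univ, Fintype.card_fin]
    rw [← pow_mul]
  have r6 : (∏ i : Fin (2 * N + 2), z i.succ.succ ^ (N + 1)) =
      (∏ i : Fin (2 * N + 2), z i.succ.succ) * ∏ i : Fin (2 * N + 2), z i.succ.succ ^ N := by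
    rw [← Finset.prod_mul_distrib]
    exact Finset.prod_congr rfl (fun i _ => by rw [pow_succ']; )
  rw [List.map_ofFn, List.prod_ofFn] at r1
  simp only [Function.comp_apply] at r1
  change ZZ ω (List.ofFn z) * (vandermonde (fun i : Fin (2 * N + 4) => AA (z i))).det =
    Cc ω (N + 1) * (∏ i : Fin (2 * N + 4), z i ^ (N + 1)) *
      (MM (fun i : Fin (2 * N + 4) => AA (z i))).det
  rw [e1, r1, r2, r3, r4, h, r6, Cc]
  set W := ∏ i : Fin (2 * N + 2), (ω - z 0 * z i.succ.succ) * (ω - z 1 * z i.succ.succ)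
  set U := ∏ i : Fin (2 * N + 2), ((AA (z i.succ.succ) - AA (z 0)) *
    (AA (z i.succ.succ) - AA (z 1)))
  set T := ∏ i : Fin (2 * N + 2), z i.succ.succ
  set TN := ∏ i : Fin (2 * N + 2), z i.succ.succ ^ N
  set PD := ∏ i : Fin (2 * N + 2), (PP (AA (z i.succ.succ)) - PP (AA (z 0)))
  linear_combination ((ω - 1) * W * (AA (z 1) - AA (z 0)) * U) * H +
    ((ω - 1) * (AA (z 1) - AA (z 0)) * Cc ω N * TN * (MM (fun i => AA (z i.succ.succ))).det) * r5

end Pool.Agent.Helper42.OS
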