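import Pool.Agent.Helper42.OS.Ch

set_option autoImplicit false

namespace Pool.Agent.Helper42.OS

open Matrix Finset

theorem CH_perm {ω : ℂ} (hω : ω ^ 2 + ω + 1 = 0) (N : ℕ) (z : Fin (2 * N + 2) → ℂ)
    (σ : Equiv.Perm (Fin (2 * N + 2))) (H : CH ω N (fun i => z (σ i))) : CH ω N z := by
  unfold CH at *
  have e1 : ZZ ω (List.ofFn fun i => z (σ i)) = ZZ ω (List.ofFn z) := by
    have := ZZ_perm hω (om_ne_one hω) (Equiv.Perm.ofFn_comp_perm σ z) []
    simpa [Function.comp_def] using this
  have e2 : (vandermonde (fun i => AA (z (σ i)))).det =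
      (Equiv.Perm.sign σ : ℂ) * (vandermonde (fun i => AA (z i))).det := by
    rw [← Matrix.det_permute]
    rfl
  have e3 : (MM (fun i => AA (z (σ i)))).det =
      (Equiv.Perm.sign σ : ℂ) * (MM (fun i => AA (z i))).det := by
    rw [← Matrix.det_permute]
    rfl
  have e4 : (∏ i, z (σ i) ^ N) = ∏ i, z i ^ N := Equiv.prod_comp σ (fun i => z i ^ N)
  rw [e1, e2, e3, e4] at H
  have hs : (Equiv.Perm.sign σ : ℂ) ≠ 0 := by
    rcases Int.units_eq_one_or (Equiv.Perm.sign σ) with h | h <;> simp [h]
  apply mul_left_cancel₀ hs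
  linear_combination H

theorem pts2_nodup {ω : ℂ} (hω : ω ^ 2 + ω + 1 = 0) (x : List ℝ) (hx : x.Nodup)
    (hx1 : ∀ r ∈ x, 1 < r) :
    (x.map (fun r : ℝ => (r : ℂ)) ++ (x.map (fun r : ℝ => (r : ℂ)⁻¹) ++
      x.map (fun r : ℝ => ω ^ 2 / (r : ℂ)))).Nodup := by
  have h0 := om_ne_zero hω
  have hne : ∀ a ∈ x, (a : ℂ) ≠ 0 := by
    intro a ha
    have := hx1 a ha
    exact_mod_cast (by linarith : (0:ℝ) < a).ne'
  rw [List.nodup_append, List.nodup_append]
  refine ⟨?_, ⟨?_, ?_, ?_⟩, ?_⟩
  · refine (List.nodup_map_iff_inj_on hx).mpr ?_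
    intro a ha b hb hab
    exact_mod_cast hab
  · refine (List.nodup_map_iff_inj_on hx).mpr ?_
    intro a ha b hb hab
    have := inv_injective hab
    exact_mod_cast this
  · refine (List.nodup_map_iff_inj_on hx).mpr ?_
    intro a ha b hb hab
    have ha0 := hne a ha
    have hb0 := hne b hb
    field_simp at hab
    exact_mod_cast hab.symm
  · intro u hu v hv huv
    rw [List.mem_map] at hu hv
    obtain ⟨a, ha, rfl⟩ := hu
    obtain ⟨b, hb, rfl⟩ := hv
    have ha1 := hx1 a ha
    have ha0 := hne a ha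
    have hb0 := hne b hb
    field_simp at huv
    have := om_real2 hω (a := a) (b := b) (by rw [huv]; ring)
    linarith
  · intro u hu v hv huv
    rw [List.mem_map] at hu
    rw [List.mem_append, List.mem_map, List.mem_map] at hv
    obtain ⟨a, ha, rfl⟩ := hu
    have ha1 := hx1 a ha
    have ha0 := hne a ha
    rcases hv with ⟨b, hb, rfl⟩ | ⟨b, hb, rfl⟩
    · have hb1 := hx1 b hb
      have hb0 := hne b hb
      field_simp at huv
      have : a * b = 1 := by exact_mod_cast huv
      nlinarith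
    · have hb1 := hx1 b hb
      have hb0 := hne b hb
      field_simp at huv
      have := om_real2 hω (a := 1) (b := a * b) (by push_cast; rw [huv]; ring)
      linarith

theorem IsP_A (a : ℂ) : IsP 2 (fun w : ℂ => w * (a - AA w)) := by
  refine ⟨Polynomial.C a * Polynomial.X - Polynomial.X ^ 2 - 1, ?_, ?_⟩
  · compute_degree
  · intro z hz
    simp only [AA, Polynomial.eval_sub, Polynomial.eval_mul, Polynomial.eval_C,
      Polynomial.eval_X, Polynomial.eval_pow, Polynomial.eval_one]
    field_simp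
    ring

theorem IsP_w : IsP 1 (fun w : ℂ => w) :=
  ⟨Polynomial.X, Polynomial.natDegree_X_le, fun z _ => by simp⟩

theorem IsP_wA : IsP 2 (fun w : ℂ => w * AA w) := by
  refine ⟨Polynomial.X ^ 2 + 1, ?_, ?_⟩
  · compute_degree
  · intro z hz
    simp only [AA, Polynomial.eval_add, Polynomial.eval_X, Polynomial.eval_pow,
      Polynomial.eval_one]
    field_simp

theorem IsP_wP : IsP 6 (fun w : ℂ => w ^ 3 * PP (AA w)) := by
  refine ⟨Polynomial.X ^ 6 + 1, ?_, ?_⟩
  · compute_degree
  · intro z hz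
    simp only [AA, PP, Polynomial.eval_add, Polynomial.eval_X, Polynomial.eval_pow,
      Polynomial.eval_one]
    field_simp
    ring

theorem IsP_entry (N j : ℕ) (hj : j < 2 * N + 4) :
    IsP (6 * N + 8) (fun w : ℂ => w ^ (3 * N + 4) * (PP (AA w) ^ (j / 2) * AA w ^ (j % 2))) := by
  have h1 : 3 * (j / 2) + j % 2 ≤ 3 * N + 4 := by omega
  have p1 := IsP_w.pow (3 * N + 4 - (3 * (j / 2) + j % 2))
  have p2 := IsP_wP.pow (j / 2)
  have p3 := IsP_wA.pow (j % 2)
  refine (((p1.mul p2).mul p3).mono (by omega)).congr ?_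
  intro z hz
  have e : z ^ (3 * N + 4) = z ^ (3 * N + 4 - (3 * (j / 2) + j % 2)) *
      (z ^ (3 * (j / 2)) * z ^ (j % 2)) := by
    rw [← pow_add, ← pow_add]
    congr 1
    omega
  rw [e, mul_pow, mul_pow, pow_mul]
  ring

theorem CH_gen {ω : ℂ} (hω : ω ^ 2 + ω + 1 = 0) (N : ℕ) :
    ∀ z₀ : ℂ, z₀ ≠ 0 → ∀ x : Fin (2 * N + 1) → ℝ, Function.Injective x → (∀ i, 1 < x i) →
      CH ω N (Fin.cons z₀ (fun i => (x i : ℂ)) : Fin (2 * N + 1 + 1) → ℂ) := by
  have h0 := om_ne_zero hω
  induction N with
  | zero =>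
    intro z₀ hz₀ x _ _
    unfold CH
    have e1 : (vandermonde (fun i : Fin 2 => AA ((Fin.cons z₀ (fun i => (x i : ℂ)) :
        Fin 2 → ℂ) i))).det = AA (x 0) - AA z₀ := by
      rw [Matrix.det_fin_two]
      simp [vandermonde_apply]
    have e2 : (MM (fun i : Fin 2 => AA ((Fin.cons z₀ (fun i => (x i : ℂ)) :
        Fin 2 → ℂ) i))).det = AA (x 0) - AA z₀ := by
      rw [Matrix.det_fin_two]
      simp [MM]
    have e3 : ZZ ω (List.ofFn (Fin.cons z₀ (fun i => (x i : ℂ)) : Fin 2 → ℂ)) = ω - 1 := by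
      simp [List.ofFn_succ, ZZ, fl, Z, row, V]
    have e4 : ∏ i : Fin 2, (Fin.cons z₀ (fun i => (x i : ℂ)) : Fin 2 → ℂ) i ^ 0 = 1 := by simp
    change ZZ ω (List.ofFn (Fin.cons z₀ (fun i => (x i : ℂ)) : Fin 2 → ℂ)) *
      (vandermonde (fun i : Fin 2 => AA ((Fin.cons z₀ (fun i => (x i : ℂ)) :
        Fin 2 → ℂ) i))).det = Cc ω 0 *
        (∏ i : Fin 2, (Fin.cons z₀ (fun i => (x i : ℂ)) : Fin 2 → ℂ) i ^ 0) *
        (MM (fun i : Fin 2 => AA ((Fin.cons z₀ (fun i => (x i : ℂ)) :
        Fin 2 → ℂ) i))).det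
    rw [e1, e2, e3, e4, Cc]
    ring
  | succ N ih =>
    intro z₀ hz₀ x hinj hgt
    have hne : ∀ i, (x i : ℂ) ≠ 0 := by
      intro i
      have := hgt i
      exact_mod_cast (by linarith : (0:ℝ) < x i).ne'
    -- the third kind of points
    have key3 : ∀ (j : Fin (2 * N + 3)) (w : ℂ), w ≠ 0 → w * x j = ω ^ 2 →
        CH ω (N + 1) (Fin.cons w (fun i => (x i : ℂ)) : Fin (2 * N + 3 + 1) → ℂ) := by
      intro j w hw hwj
      set z : Fin (2 * N + 4) → ℂ := Fin.cons w (fun i : Fin (2 * N + 3) => (x i : ℂ)) with hzdef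
      have hz : ∀ i, z i ≠ 0 := by
        intro i
        refine Fin.cases ?_ (fun i => ?_) i
        · exact hw
        · exact hne i
      let σ : Equiv.Perm (Fin (2 * N + 4)) := Equiv.swap (Fin.succ 0) (Fin.succ j)
      have hσ : ∀ i : Fin (2 * N + 3), z (σ i.succ) = x (Equiv.swap 0 j i) := by
        intro i
        have : σ i.succ = (Equiv.swap 0 j i).succ :=
          (Fin.succ_injective _).swap_apply 0 j i
        rw [this]
        rfl
      have hσ0 : z (σ 0) = w := by
        have : σ 0 = 0 := by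
          apply Equiv.swap_apply_of_ne_of_ne
          · exact (Fin.succ_ne_zero 0).symm
          · exact (Fin.succ_ne_zero j).symm
        rw [this]
        rfl
      refine CH_perm hω (N + 1) z σ ?_
      refine CH_step hω N (fun i => z (σ i)) (fun i => hz _) ?_ ?_
      · have h1 : z (σ 1) = x j := by
          have := hσ 0
          rw [Equiv.swap_apply_left] at this
          exact this
        show z (σ 0) * z (σ 1) = ω ^ 2
        rw [hσ0, h1, hwj]
      · have hx' := ih (x (Equiv.swap 0 j 1)) (hne _)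
          (fun i : Fin (2 * N + 1) => x (Equiv.swap 0 j i.succ.succ))
          (fun a b hab => by
            have := hinj hab
            have := (Equiv.swap 0 j).injective this
            exact Fin.succ_injective _ (Fin.succ_injective _ this))
          (fun i => hgt _)
        have e : (fun i : Fin (2 * N + 2) => z (σ i.succ.succ)) =
            (Fin.cons ((x (Equiv.swap 0 j 1) : ℝ) : ℂ)
              (fun i : Fin (2 * N + 1) => ((x (Equiv.swap 0 j i.succ.succ) : ℝ) : ℂ)) :
              Fin (2 * N + 1 + 1) → ℂ) := by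
          funext i
          rw [hσ]
          refine Fin.cases ?_ (fun i => ?_) i
          · rfl
          · rfl
        show CH ω N (fun i : Fin (2 * N + 2) => z (σ i.succ.succ))
        rw [e]
        exact hx'
    -- the points where both sides vanish
    have key1 : ∀ (j : Fin (2 * N + 3)) (w : ℂ), AA w = AA (x j) →
        CH ω (N + 1) (Fin.cons w (fun i => (x i : ℂ)) : Fin (2 * N + 3 + 1) → ℂ) := by
      intro j w hw
      unfold CH
      have hne : (0 : Fin (2 * N + 3 + 1)) ≠ j.succ := (Fin.succ_ne_zero j).symm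
      have e1 : (vandermonde (fun i : Fin (2 * N + 3 + 1) => AA ((Fin.cons w
          (fun i => (x i : ℂ)) : Fin (2 * N + 3 + 1) → ℂ) i))).det = 0 := by
        apply Matrix.det_zero_of_row_eq hne
        funext k
        simp only [vandermonde_apply, Fin.cons_zero, Fin.cons_succ, hw]
      have e2 : (MM (fun i : Fin (2 * N + 3 + 1) => AA ((Fin.cons w
          (fun i => (x i : ℂ)) : Fin (2 * N + 3 + 1) → ℂ) i))).det = 0 := by
        apply Matrix.det_zero_of_row_eq hne
        funext k
        simp only [MM, Matrix.of_apply, Fin.cons_zero, Fin.cons_succ, hw]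
      change _ * (vandermonde (fun i : Fin (2 * N + 3 + 1) => AA ((Fin.cons w
          (fun i => (x i : ℂ)) : Fin (2 * N + 3 + 1) → ℂ) i))).det = _ *
        (MM (fun i : Fin (2 * N + 3 + 1) => AA ((Fin.cons w
          (fun i => (x i : ℂ)) : Fin (2 * N + 3 + 1) → ℂ) i))).det
      rw [e1, e2, mul_zero, mul_zero]
    -- interpolation
    let zz : ℂ → Fin (2 * N + 3 + 1) → ℂ := fun w => Fin.cons w (fun i => (x i : ℂ))
    let f : ℂ → ℂ := fun w => w ^ (2 * N + 3) *
      (ZZ ω (List.ofFn (zz w)) * (vandermonde (fun i => AA (zz w i))).det -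
        Cc ω (N + 1) * (∏ i, zz w i ^ (N + 1)) * (MM (fun i => AA (zz w i))).det)
    have hf : IsP (6 * N + 8) f := by
      have p1 : IsP (2 * N + 2) (fun w => ZZ ω (List.ofFn (zz w))) := by
        have := IsP_ZZ ω (x 0 : ℂ) (List.ofFn (fun i : Fin (2 * N + 2) => (x i.succ : ℂ)))
        rw [List.length_ofFn] at this
        refine this.congr ?_
        intro w _
        simp only [zz]
        rw [List.ofFn_succ, List.ofFn_succ]
        rfl
      have p2 := (IsP.prod (Finset.univ : Finset (Fin (2 * N + 3)))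
        (f := fun i w => w * (AA (x i) - AA w)) (fun i _ => IsP_A (AA (x i))))
      rw [Finset.card_univ, Fintype.card_fin] at p2
      have p3 := (p1.mul p2).smul (vandermonde (fun i => AA (x i))).det
      have p4 := IsP.sum (Finset.univ : Finset (Fin (2 * N + 3 + 1)))
        (f := fun j w => ((-1) ^ (j : ℕ) * (Matrix.of fun (i k : Fin (2 * N + 3)) =>
            PP (AA (x i)) ^ ((j.succAbove k).val / 2) * (AA (x i)) ^ ((j.succAbove k).val % 2)).det) *
          (w ^ (3 * N + 4) * (PP (AA w) ^ (j.val / 2) * AA w ^ (j.val % 2))))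
        (fun j _ => (IsP_entry N j.val j.isLt).smul _)
      have p5 := p4.smul (Cc ω (N + 1) * ∏ i, (x i : ℂ) ^ (N + 1))
      refine ((p3.mono (by omega)).sub p5).congr ?_
      intro w hw
      simp only [f]
      have ev : (vandermonde (fun i => AA (zz w i))).det =
          (∏ i : Fin (2 * N + 3), (AA (x i) - AA w)) * (vandermonde (fun i => AA (x i))).det := by
        have : (fun i => AA (zz w i)) = (Fin.cons (AA w) (fun i => AA (x i)) :
            Fin (2 * N + 3 + 1) → ℂ) := by
          funext i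
          refine Fin.cases ?_ (fun i => ?_) i
          · rfl
          · rfl
        rw [this, vdm_det_cons]
        rfl
      have em : (MM (fun i => AA (zz w i))).det = ∑ j : Fin (2 * N + 3 + 1),
          (-1) ^ (j : ℕ) * (PP (AA w) ^ (j.val / 2) * AA w ^ (j.val % 2)) *
            (Matrix.of fun (i k : Fin (2 * N + 3)) => PP (AA (x i)) ^ ((j.succAbove k).val / 2) *
              (AA (x i)) ^ ((j.succAbove k).val % 2)).det := by
        rw [Matrix.det_succ_row_zero]
        rfl
      have ep : (∏ i, zz w i ^ (N + 1)) = w ^ (N + 1) * ∏ i, (x i : ℂ) ^ (N + 1) := by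
        rw [Fin.prod_univ_succ]
        rfl
      rw [ev, em, ep, mul_sub]
      congr 1
      · rw [Finset.prod_mul_distrib, Finset.prod_const, Finset.card_univ, Fintype.card_fin]
        ring
      · simp only [Finset.mul_sum]
        apply Finset.sum_congr rfl
        intro j _
        have : w ^ (3 * N + 4) = w ^ (2 * N + 3) * w ^ (N + 1) := by
          rw [← pow_add]; congr 1; ring
        rw [this]
        ring
    have hz0 := hf.eq_zero ((List.ofFn x).map (fun r : ℝ => (r : ℂ)) ++
      ((List.ofFn x).map (fun r : ℝ => (r : ℂ)⁻¹) ++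
      (List.ofFn x).map (fun r : ℝ => ω ^ 2 / (r : ℂ))))
      (pts2_nodup hω _ (List.nodup_ofFn.mpr hinj) (by
        intro r hr
        rw [List.mem_ofFn] at hr
        obtain ⟨i, rfl⟩ := hr
        exact hgt i)) (by simp; omega) ?_ ?_ z₀ hz₀
    · have := (mul_eq_zero.mp hz0).resolve_left (pow_ne_zero _ hz₀)
      exact sub_eq_zero.mp this
    · intro u hu
      rw [List.mem_append, List.mem_append, List.mem_map, List.mem_map, List.mem_map] at hu
      rcases hu with ⟨y, hy, rfl⟩ | ⟨y, hy, rfl⟩ | ⟨y, hy, rfl⟩ <;>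
        (rw [List.mem_ofFn] at hy; obtain ⟨i, rfl⟩ := hy)
      · exact hne i
      · exact inv_ne_zero (hne i)
      · exact div_ne_zero (pow_ne_zero 2 h0) (hne i)
    · intro u hu
      rw [List.mem_append, List.mem_append, List.mem_map, List.mem_map, List.mem_map] at hu
      apply mul_eq_zero_of_right
      apply sub_eq_zero.mpr
      rcases hu with ⟨y, hy, rfl⟩ | ⟨y, hy, rfl⟩ | ⟨y, hy, rfl⟩ <;>
        (rw [List.mem_ofFn] at hy; obtain ⟨i, rfl⟩ := hy)
      · exact key1 i _ rfl
      · exact key1 i _ (by simp only [AA, inv_inv]; ring)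
      · exact key3 i _ (div_ne_zero (pow_ne_zero 2 h0) (hne i)) (by field_simp [hne i])

end Pool.Agent.Helper42.OS
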