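import Pool.Agent.Helper42.OS.Gen

set_option autoImplicit false

namespace Pool.Agent.Helper42.OS

open Filter Topology

/-- Evaluation of a list of functions. -/
def ev (L : List ((ℝ → ℂ) × Bool)) (t : ℝ) : List (ℂ × Bool) := L.map (fun p => (p.1 t, p.2))

theorem ca_V (ω : ℂ) {x : ℝ → ℂ} {t₀ : ℝ} (hx : ContinuousAt x t₀) (s u : Bool)
    {φ : ℝ → Bool → Bool → ℂ} (hφ : ∀ a b, ContinuousAt (fun t => φ t a b) t₀) :
    ContinuousAt (fun t => V ω (x t) s u (φ t)) t₀ := by
  have h1 := hφ false false
  have h2 := hφ false true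
  have h3 := hφ true false
  have h4 := hφ true true
  cases s <;> cases u <;> simp only [V] <;> fun_prop

theorem ca_row (ω : ℂ) {z : ℝ → ℂ} {t₀ : ℝ} (hz : ContinuousAt z t₀) (s : Bool)
    (L : List ((ℝ → ℂ) × Bool)) (hL : ∀ p ∈ L, ContinuousAt p.1 t₀)
    (k : ℝ → List (ℂ × Bool) → ℂ)
    (hk : ∀ L' : List ((ℝ → ℂ) × Bool), L'.map Prod.fst = L.map Prod.fst →
      ContinuousAt (fun t => k t (ev L' t)) t₀) :
    ContinuousAt (fun t => row ω (z t) s (ev L t) (k t)) t₀ := by
  induction L generalizing s k with
  | nil =>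
    cases s
    · simp only [ev, List.map_nil, row]
      exact continuousAt_const
    · have := hk [] rfl
      simpa only [ev, List.map_nil, row] using this
  | cons p L ih =>
    obtain ⟨y, u⟩ := p
    have e : ∀ t, ev ((y, u) :: L) t = (y t, u) :: ev L t := fun t => rfl
    simp only [e, row_cons]
    apply ca_V ω (hz.mul (hL (y, u) List.mem_cons_self))
    intro a b
    apply ih _ (fun p hp => hL p (List.mem_cons_of_mem _ hp))
    intro L' hL'
    exact hk ((y, b) :: L') (by simp [hL'])

theorem ca_Z (ω : ℂ) {t₀ : ℝ} (n : ℕ) (L : List ((ℝ → ℂ) × Bool))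
    (hL : ∀ g ∈ L.map Prod.fst, ContinuousAt g t₀) :
    ContinuousAt (fun t => Z ω n (ev L t)) t₀ := by
  induction n generalizing L with
  | zero =>
    cases L with
    | nil => simp only [ev, List.map_nil, Z]; exact continuousAt_const
    | cons p L => simp only [ev, List.map_cons, Z]; exact continuousAt_const
  | succ n ih =>
    cases L with
    | nil => simp only [ev, List.map_nil, Z]; exact continuousAt_const
    | cons p L =>
      obtain ⟨z, s⟩ := p
      have e : ∀ t, ev ((z, s) :: L) t = (z t, s) :: ev L t := fun t => rfl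
      simp only [e, Z]
      apply ca_row ω (hL z (by simp)) s L
      · intro p hp
        exact hL p.1 (by simp only [List.map_cons]; exact List.mem_cons_of_mem _ (List.mem_map_of_mem hp))
      · intro L' hL'
        apply ih
        intro g hg
        rw [hL'] at hg
        exact hL g (by simp only [List.map_cons]; exact List.mem_cons_of_mem _ hg)

theorem ca_kp (ω : ℂ) {t₀ : ℝ} (L : List ((ℝ → ℂ) × Bool))
    (hL : ∀ g ∈ L.map Prod.fst, ContinuousAt g t₀) :
    ContinuousAt (fun t => kp ω (ev L t)) t₀ := by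
  induction L with
  | nil => simp only [ev, List.map_nil, kp]; exact continuousAt_const
  | cons p L ih =>
    obtain ⟨z, s⟩ := p
    have e : ∀ t, ev ((z, s) :: L) t = (z t, s) :: ev L t := fun t => rfl
    simp only [e, kp_cons]
    have h1 := hL z (by simp)
    have h2 := ih (fun g hg => hL g (by simp only [List.map_cons]; exact List.mem_cons_of_mem _ hg))
    fun_prop

theorem ca_Zo (ω : ℂ) {t₀ : ℝ} (n : ℕ) (L : List ((ℝ → ℂ) × Bool))
    (hL : ∀ g ∈ L.map Prod.fst, ContinuousAt g t₀) :
    ContinuousAt (fun t => Zo ω n (ev L t)) t₀ := by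
  induction n generalizing L with
  | zero =>
    simp only [Zo]; exact continuousAt_const
  | succ n ih =>
    cases L with
    | nil => simp only [ev, List.map_nil, Zo]; exact continuousAt_const
    | cons p L =>
      obtain ⟨z, s⟩ := p
      have e : ∀ t, ev ((z, s) :: L) t = (z t, s) :: ev L t := fun t => rfl
      simp only [e, Zo_cons]
      have hz := hL z (by simp)
      have hL1 : ∀ p ∈ L, ContinuousAt p.1 t₀ := by
        intro p hp
        exact hL p.1 (by simp only [List.map_cons]; exact List.mem_cons_of_mem _ (List.mem_map_of_mem hp))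
      have h1 : ContinuousAt (fun t => row ω (z t) s (ev L t) (Zo ω n)) t₀ := by
        apply ca_row ω hz s L hL1
        intro L' hL'
        apply ih
        intro g hg
        rw [hL'] at hg
        exact hL g (by simp only [List.map_cons]; exact List.mem_cons_of_mem _ hg)
      have h2 : ContinuousAt (fun t => row ω (z t) (!s) (ev L t) (Z ω n)) t₀ := by
        apply ca_row ω hz (!s) L hL1
        intro L' hL'
        apply ca_Z
        intro g hg
        rw [hL'] at hg
        exact hL g (by simp only [List.map_cons]; exact List.mem_cons_of_mem _ hg)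
      have h3 := ca_kp ω (t₀ := t₀) L
        (fun g hg => hL g (by simp only [List.map_cons]; exact List.mem_cons_of_mem _ hg))
      have h4 : ContinuousAt (fun t => pw (z t) s) t₀ := by
        cases s
        · simp only [pw]; exact continuousAt_const
        · simpa only [pw] using hz
      fun_prop

theorem ca_ZZ (ω : ℂ) {t₀ : ℝ} (G : List (ℝ → ℂ)) (hG : ∀ g ∈ G, ContinuousAt g t₀) :
    ContinuousAt (fun t => ZZ ω (G.map (fun g => g t))) t₀ := by
  have := ca_Z ω (t₀ := t₀) G.length (G.map (fun g => (g, false)))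
    (by simpa [List.map_map, Function.comp_def] using hG)
  simpa [ZZ, fl, ev, List.map_map, Function.comp_def] using this

theorem ca_ZO (ω : ℂ) {t₀ : ℝ} (G : List (ℝ → ℂ)) (hG : ∀ g ∈ G, ContinuousAt g t₀) :
    ContinuousAt (fun t => ZO ω (G.map (fun g => g t))) t₀ := by
  have := ca_Zo ω (t₀ := t₀) G.length (G.map (fun g => (g, false)))
    (by simpa [List.map_map, Function.comp_def] using hG)
  simpa [ZO, fl, ev, List.map_map, Function.comp_def] using this

theorem ca_prod {t₀ : ℝ} (G : List (ℝ → ℂ)) (F : ℂ → ℂ) (hF : Continuous F)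
    (hG : ∀ g ∈ G, ContinuousAt g t₀) :
    ContinuousAt (fun t => ((G.map (fun g => g t)).map F).prod) t₀ := by
  induction G with
  | nil => simp only [List.map_nil, List.prod_nil]; exact continuousAt_const
  | cons g G ih =>
    simp only [List.map_cons, List.prod_cons]
    have h1 := hG g List.mem_cons_self
    have h2 := ih (fun g hg => hG g (List.mem_cons_of_mem _ hg))
    exact (hF.continuousAt.comp h1).mul h2

/-- The identity at `z = 1`. -/
theorem HI_one {ω : ℂ} (hω : ω ^ 2 + ω + 1 = 0) (n : ℕ) :
    HI ω (2 * n) (List.replicate (2 * n + 1) 1) := by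
  -- the functions
  let G : List (ℝ → ℂ) := (fun _ => 1) :: (List.range (2 * n)).map
    (fun i : ℕ => fun t : ℝ => ((1 + (i + 1) * t : ℝ) : ℂ))
  have hG : ∀ g ∈ G, ContinuousAt g 0 := by
    intro g hg
    simp only [G, List.mem_cons, List.mem_map] at hg
    rcases hg with rfl | ⟨i, _, rfl⟩
    · exact continuousAt_const
    · fun_prop
  have hG0 : G.map (fun g => g 0) = List.replicate (2 * n + 1) 1 := by
    simp only [G, List.map_cons, List.map_map, Function.comp_def, mul_zero, add_zero,
      Complex.ofReal_one, List.map_const', List.length_range, List.replicate_succ]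
  let Gi : List (ℝ → ℂ) := G.map (fun g => fun t => (g t)⁻¹)
  have hGi : ∀ g ∈ Gi, ContinuousAt g 0 := by
    intro g hg
    simp only [Gi, List.mem_map] at hg
    obtain ⟨g', hg', rfl⟩ := hg
    refine (hG g' hg').inv₀ ?_
    have : g' 0 ∈ G.map (fun g => g 0) := List.mem_map_of_mem hg'
    rw [hG0] at this
    rw [List.eq_of_mem_replicate this]
    exact one_ne_zero
  have hGie : ∀ t, Gi.map (fun g => g t) = (G.map (fun g => g t)).map (fun z => z⁻¹) := by
    intro t; simp [Gi, List.map_map, Function.comp_def]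
  let lhs : ℝ → ℂ := fun t => (ω - 1) * (ZO ω (G.map (fun g => g t)) *
      ((G.map (fun g => g t)).map (fun z => z + ω ^ 2)).prod +
    ((G.map (fun g => g t)).map (fun z => z ^ (2 * n))).prod * ZO ω (Gi.map (fun g => g t)) *
      ((G.map (fun g => g t)).map (fun z => 1 + ω ^ 2 * z)).prod)
  let G1 : List (ℝ → ℂ) := G ++ [fun _ => -1]
  have hG1 : ∀ g ∈ G1, ContinuousAt g 0 := by
    intro g hg
    simp only [G1, List.mem_append, List.mem_singleton] at hg
    rcases hg with hg | rfl
    · exact hG g hg
    · exact continuousAt_const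
  have hG1e : ∀ t, G1.map (fun g => g t) = G.map (fun g => g t) ++ [-1] := by
    intro t; simp [G1]
  let rhs : ℝ → ℂ := fun t => -ω * (((G.map (fun g => g t)).map (fun z => 1 + z)).prod *
    ZZ ω (G1.map (fun g => g t)))
  have c1 : ContinuousAt lhs 0 := by
    have a1 := ca_ZO ω G hG
    have a2 := ca_prod G (fun z => z + ω ^ 2) (by fun_prop) hG
    have a3 := ca_prod G (fun z => z ^ (2 * n)) (by fun_prop) hG
    have a4 := ca_ZO ω Gi hGi
    have a5 := ca_prod G (fun z => 1 + ω ^ 2 * z) (by fun_prop) hG
    exact continuousAt_const.mul ((a1.mul a2).add ((a3.mul a4).mul a5))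
  have c2 : ContinuousAt rhs 0 := by
    have a1 := ca_ZZ ω G1 hG1
    have a2 := ca_prod G (fun z => 1 + z) (by fun_prop) hG
    exact continuousAt_const.mul (a2.mul a1)
  have heq : ∀ t : ℝ, 0 < t → lhs t = rhs t := by
    intro t ht
    have := HI_gen hω n ((List.range (2 * n)).map (fun i : ℕ => (1 + (i + 1) * t : ℝ)))
      (by simp) ?_ ?_ 1 one_ne_zero
    · unfold HI at this
      simp only [lhs, rhs, hGie, hG1e]
      have e : G.map (fun g => g t) = (1 : ℂ) :: ((List.range (2 * n)).map
          (fun i : ℕ => (1 + (i + 1) * t : ℝ))).map (fun r : ℝ => (r : ℂ)) := by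
        simp [G, List.map_map, Function.comp_def]
      rw [e]
      exact this
    · refine (List.nodup_map_iff_inj_on List.nodup_range).mpr ?_
      intro a _ b _ hab
      have : ((a : ℝ) + 1) * t = ((b : ℝ) + 1) * t := by linarith
      have := mul_right_cancel₀ ht.ne' this
      have : (a : ℝ) = b := by linarith
      exact_mod_cast this
    · intro r hr
      rw [List.mem_map] at hr
      obtain ⟨i, _, rfl⟩ := hr
      have : (0 : ℝ) < ((i : ℝ) + 1) * t := by positivity
      linarith
  have hlim : lhs 0 = rhs 0 := by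
    have t1 : Tendsto lhs (𝓝[>] 0) (𝓝 (lhs 0)) := c1.tendsto.mono_left nhdsWithin_le_nhds
    have t2 : Tendsto rhs (𝓝[>] 0) (𝓝 (rhs 0)) := c2.tendsto.mono_left nhdsWithin_le_nhds
    have t3 : Tendsto lhs (𝓝[>] 0) (𝓝 (rhs 0)) := by
      refine t2.congr' ?_
      filter_upwards [self_mem_nhdsWithin] with t ht
      exact (heq t ht).symm
    exact tendsto_nhds_unique t1 t3
  unfold HI
  simp only [lhs, rhs, hGie, hG1e, hG0] at hlim
  exact hlim

theorem ZO_one {ω : ℂ} (hω : ω ^ 2 + ω + 1 = 0) (n : ℕ) :
    2 * (ω - 1) * (-ω) ^ (2 * n + 1) * ZO ω (List.replicate (2 * n + 1) 1) =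
      -ω * 2 ^ (2 * n + 1) * ZZ ω (List.replicate (2 * n + 1) 1 ++ [-1]) := by
  have h := HI_one hω n
  unfold HI at h
  simp only [List.map_replicate, List.prod_replicate, inv_one, one_pow, mul_one, one_mul] at h
  have e : (1 : ℂ) + ω ^ 2 = -ω := by linear_combination hω
  rw [e, show (1 : ℂ) + 1 = 2 by norm_num] at h
  linear_combination h

end Pool.Agent.Helper42.OS
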