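import Pool.Agent.Helper42.OS.Sym

set_option autoImplicit false

namespace Pool.Agent.Helper42.OS

open Finset

/-- The integer value of a state. -/
def bz : Bool → ℤ
  | true => 1
  | false => 0

/-- The condition on partial sums. -/
def PS {m : ℕ} (s : ℤ) (r : Fin m → ℤ) : Prop :=
  (∀ k, s + ∑ j ∈ Iic k, r j = 0 ∨ s + ∑ j ∈ Iic k, r j = 1) ∧ s + ∑ j, r j = 1

theorem PS_zero (s : ℤ) (r : Fin 0 → ℤ) : PS s r ↔ s = 1 := by
  unfold PS
  simp

theorem sum_Iic_succ {m : ℕ} (r : Fin (m + 1) → ℤ) (k : Fin m) :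
    ∑ j ∈ Iic k.succ, r j = r 0 + ∑ j ∈ Iic k, r j.succ := by
  have h1 : ∀ {n : ℕ} (f : Fin n → ℤ) (k : Fin n), ∑ j ∈ Iic k, f j = ∑ j, if j ≤ k then f j else 0 := by
    intro n f k
    rw [← Finset.sum_filter]
    congr 1
    ext x
    simp
  rw [h1, h1, Fin.sum_univ_succ]
  simp

theorem sum_Iic_zero {m : ℕ} (r : Fin (m + 1) → ℤ) : ∑ j ∈ Iic (0 : Fin (m + 1)), r j = r 0 := by
  have : Iic (0 : Fin (m + 1)) = {0} := by
    ext x
    simp
  rw [this, Finset.sum_singleton]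

theorem PS_succ {m : ℕ} (s : ℤ) (r : Fin (m + 1) → ℤ) :
    PS s r ↔ (s + r 0 = 0 ∨ s + r 0 = 1) ∧ PS (s + r 0) (fun j => r j.succ) := by
  unfold PS
  constructor
  · rintro ⟨h1, h2⟩
    refine ⟨?_, ?_, ?_⟩
    · have := h1 0
      rwa [sum_Iic_zero] at this
    · intro k
      have := h1 k.succ
      rwa [sum_Iic_succ, ← add_assoc] at this
    · rwa [Fin.sum_univ_succ, ← add_assoc] at h2
  · rintro ⟨h0, h1, h2⟩
    refine ⟨?_, ?_⟩
    · intro k
      refine Fin.cases ?_ (fun k => ?_) k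
      · rwa [sum_Iic_zero]
      · rw [sum_Iic_succ, ← add_assoc]
        exact h1 k
    · rwa [Fin.sum_univ_succ, ← add_assoc]

/-- The matrices. -/
def GG {m : ℕ} (σ : Fin m → Bool) (A : Matrix (Fin m) (Fin m) ℤ) : Prop :=
  (∀ i j, A i j = -1 ∨ A i j = 0 ∨ A i j = 1) ∧ (∀ i, PS (bz (σ i)) (A i)) ∧ ∀ i j, A i j = A j i

/-- The lower right block. -/
def lowr {m : ℕ} (A : Matrix (Fin (m + 1)) (Fin (m + 1)) ℤ) : Matrix (Fin m) (Fin m) ℤ :=
  fun i j => A i.succ j.succ

theorem bz_decide (x : ℤ) (hx : x = 0 ∨ x = 1) : bz (decide (x = 1)) = x := by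
  rcases hx with rfl | rfl <;> simp [bz]

theorem GG_succ {m : ℕ} (σ : Fin (m + 1) → Bool) (A : Matrix (Fin (m + 1)) (Fin (m + 1)) ℤ)
    (t : Bool) (ht : A 0 0 = bz t - bz (σ 0)) (τ : Fin m → Bool)
    (hτ : ∀ j, A 0 j.succ = bz (τ j) - bz (σ j.succ)) :
    GG σ A ↔ PS (bz t) (fun j : Fin m => bz (τ j) - bz (σ j.succ)) ∧ GG τ (lowr A) ∧
      ∀ j : Fin m, A j.succ 0 = A 0 j.succ := by
  have hbz : ∀ a b : Bool, bz a - bz b = -1 ∨ bz a - bz b = 0 ∨ bz a - bz b = 1 := by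
    intro a b
    cases a <;> cases b <;> simp [bz]
  have hbz' : ∀ a : Bool, bz a = 0 ∨ bz a = 1 := by
    intro a
    cases a <;> simp [bz]
  have hτ' : (fun j : Fin m => A 0 j.succ) = fun j => bz (τ j) - bz (σ j.succ) := funext hτ
  unfold GG
  constructor
  · rintro ⟨h1, h2, h3⟩
    refine ⟨?_, ⟨?_, ?_, ?_⟩, ?_⟩
    · have := (PS_succ _ _).mp (h2 0)
      rw [ht, hτ'] at this
      have e : bz (σ 0) + (bz t - bz (σ 0)) = bz t := by ring
      rw [e] at this
      exact this.2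
    · intro i j
      exact h1 i.succ j.succ
    · intro i
      have := (PS_succ _ _).mp (h2 i.succ)
      rw [h3 i.succ 0, hτ i] at this
      have e : bz (σ i.succ) + (bz (τ i) - bz (σ i.succ)) = bz (τ i) := by ring
      rw [e] at this
      exact this.2
    · intro i j
      exact h3 i.succ j.succ
    · intro j
      exact h3 _ _
  · rintro ⟨h0, ⟨h1, h2, h3⟩, h4⟩
    refine ⟨?_, ?_, ?_⟩
    · intro i j
      refine Fin.cases ?_ (fun i => ?_) i
      · refine Fin.cases ?_ (fun j => ?_) j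
        · rw [ht]; exact hbz _ _
        · rw [hτ]; exact hbz _ _
      · refine Fin.cases ?_ (fun j => ?_) j
        · rw [h4, hτ]; exact hbz _ _
        · exact h1 i j
    · intro i
      refine Fin.cases ?_ (fun i => ?_) i
      · rw [PS_succ, ht, hτ']
        have e : bz (σ 0) + (bz t - bz (σ 0)) = bz t := by ring
        rw [e]
        exact ⟨hbz' _, h0⟩
      · rw [PS_succ, h4, hτ]
        have e : bz (σ i.succ) + (bz (τ i) - bz (σ i.succ)) = bz (τ i) := by ring
        rw [e]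
        exact ⟨hbz' _, h2 i⟩
    · intro i j
      refine Fin.cases ?_ (fun i => ?_) i
      · refine Fin.cases ?_ (fun j => ?_) j
        · rfl
        · exact (h4 j).symm
      · refine Fin.cases ?_ (fun j => ?_) j
        · exact h4 i
        · exact h3 i j

/-- Assembling a matrix. -/
def asm {m : ℕ} (a : ℤ) (r : Fin m → ℤ) (B : Matrix (Fin m) (Fin m) ℤ) :
    Matrix (Fin (m + 1)) (Fin (m + 1)) ℤ :=
  Fin.cons (Fin.cons a r) (fun i => Fin.cons (r i) (B i))

theorem GG_finite {m : ℕ} (σ : Fin m → Bool) (D : Matrix (Fin m) (Fin m) ℤ → Prop) :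
    Finite {A : Matrix (Fin m) (Fin m) ℤ // GG σ A ∧ D A} := by
  let f : {A : Matrix (Fin m) (Fin m) ℤ // GG σ A ∧ D A} → (Fin m → Fin m → (({-1, 0, 1} : Finset ℤ))) :=
    fun A i j => ⟨A.1 i j, by
      have := A.2.1.1 i j
      simp only [Finset.mem_insert, Finset.mem_singleton]
      exact this⟩
  apply Finite.of_injective f
  intro A B h
  apply Subtype.ext
  funext i j
  have := congrFun (congrFun h i) j
  exact congrArg Subtype.val this

/-- The recursive structure. -/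
def decomp {m : ℕ} (σ : Fin (m + 1) → Bool) (t : Bool) (D : Matrix (Fin m) (Fin m) ℤ → Prop) :
    {A : Matrix (Fin (m + 1)) (Fin (m + 1)) ℤ // GG σ A ∧ (A 0 0 = bz t - bz (σ 0) ∧ D (lowr A))} ≃
    {p : (Fin m → Bool) × Matrix (Fin m) (Fin m) ℤ //
      PS (bz t) (fun j : Fin m => bz (p.1 j) - bz (σ j.succ)) ∧ GG p.1 p.2 ∧ D p.2} where
  toFun A := by
    have hcol : ∀ j : Fin m, A.1 0 j.succ =
        bz (decide (bz (σ j.succ) + A.1 0 j.succ = 1)) - bz (σ j.succ) := by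
      intro j
      have h := ((PS_succ _ _).mp (A.2.1.2.1 j.succ)).1
      rw [A.2.1.2.2 j.succ 0] at h
      rw [bz_decide _ h]
      ring
    have h := (GG_succ σ A.1 t A.2.2.1 _ hcol).mp A.2.1
    exact ⟨(fun j => decide (bz (σ j.succ) + A.1 0 j.succ = 1), lowr A.1), h.1, h.2.1, A.2.2.2⟩
  invFun p := ⟨asm (bz t - bz (σ 0)) (fun j => bz (p.1.1 j) - bz (σ j.succ)) p.1.2, by
    refine ⟨?_, rfl, ?_⟩
    · rw [GG_succ σ _ t rfl p.1.1 (fun j => rfl)]
      exact ⟨p.2.1, p.2.2.1, fun j => rfl⟩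
    · exact p.2.2.2⟩
  left_inv A := by
    apply Subtype.ext
    funext i j
    have hcol : ∀ j : Fin m, A.1 0 j.succ =
        bz (decide (bz (σ j.succ) + A.1 0 j.succ = 1)) - bz (σ j.succ) := by
      intro j
      have h := ((PS_succ _ _).mp (A.2.1.2.1 j.succ)).1
      rw [A.2.1.2.2 j.succ 0] at h
      rw [bz_decide _ h]
      ring
    refine Fin.cases ?_ (fun i => ?_) i
    · refine Fin.cases ?_ (fun j => ?_) j
      · exact A.2.2.1.symm
      · exact (hcol j).symm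
    · refine Fin.cases ?_ (fun j => ?_) j
      · rw [A.2.1.2.2 i.succ 0]
        exact (hcol i).symm
      · rfl
  right_inv p := by
    obtain ⟨⟨τ, B⟩, hτ, hB⟩ := p
    apply Subtype.ext
    apply Prod.ext
    · funext j
      change decide (bz (σ j.succ) + (bz (τ j) - bz (σ j.succ)) = 1) = τ j
      have : bz (σ j.succ) + (bz (τ j) - bz (σ j.succ)) = bz (τ j) := by ring
      rw [this]
      cases τ j <;> simp [bz]
    · rfl

open Classical in
theorem card_decomp {m : ℕ} (σ : Fin (m + 1) → Bool) (t : Bool)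
    (D : Matrix (Fin m) (Fin m) ℤ → Prop) :
    Nat.card {A : Matrix (Fin (m + 1)) (Fin (m + 1)) ℤ // GG σ A ∧
      (A 0 0 = bz t - bz (σ 0) ∧ D (lowr A))} =
    ∑ τ : Fin m → Bool, if PS (bz t) (fun j => bz (τ j) - bz (σ j.succ)) then
      Nat.card {B : Matrix (Fin m) (Fin m) ℤ // GG τ B ∧ D B} else 0 := by
  rw [Nat.card_congr (decomp σ t D), Nat.card_congr (Equiv.subtypeProdEquivSigmaSubtype
    (fun (τ : Fin m → Bool) (B : Matrix (Fin m) (Fin m) ℤ) =>
      PS (bz t) (fun j : Fin m => bz (τ j) - bz (σ j.succ)) ∧ GG τ B ∧ D B))]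
  have hfin : ∀ τ : Fin m → Bool, Finite {B : Matrix (Fin m) (Fin m) ℤ //
      PS (bz t) (fun j : Fin m => bz (τ j) - bz (σ j.succ)) ∧ GG τ B ∧ D B} := by
    intro τ
    have := GG_finite τ D
    exact Finite.of_injective (fun B : {B : Matrix (Fin m) (Fin m) ℤ //
      PS (bz t) (fun j : Fin m => bz (τ j) - bz (σ j.succ)) ∧ GG τ B ∧ D B} =>
      (⟨B.1, B.2.2⟩ : {B : Matrix (Fin m) (Fin m) ℤ // GG τ B ∧ D B}))
      (fun a b h => by
        have h' := Subtype.ext_iff.mp h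
        exact Subtype.ext h')
  rw [Nat.card_sigma]
  apply Finset.sum_congr rfl
  intro τ _
  split_ifs with h
  · simp only [h, true_and]
  · simp only [h, false_and]
    simp

end Pool.Agent.Helper42.OS
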