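import Pool.Agent.Helper42.OS.Count

set_option autoImplicit false

namespace Pool.Agent.Helper42.OS

open Finset

/-- Indicator. -/
noncomputable def ind (p : Prop) (x : ℂ) : ℂ := @ite _ p (Classical.propDecidable p) x 0

theorem ind_congr {p q : Prop} (h : p ↔ q) (x : ℂ) : ind p x = ind q x := by
  rw [propext h]

theorem ind_false {p : Prop} (h : ¬ p) (x : ℂ) : ind p x = 0 := by
  unfold ind
  rw [if_neg h]

theorem ind_true {p : Prop} (h : p) (x : ℂ) : ind p x = x := by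
  unfold ind
  rw [if_pos h]

theorem ind_mul (p : Prop) (c x : ℂ) : ind p (c * x) = c * ind p x := by
  by_cases h : p
  · rw [ind_true h, ind_true h]
  · rw [ind_false h, ind_false h, mul_zero]

theorem sum_cons {m : ℕ} (f : (Fin (m + 1) → Bool) → ℂ) :
    ∑ τ : Fin (m + 1) → Bool, f τ =
      (∑ τ : Fin m → Bool, f (Fin.cons true τ)) + ∑ τ : Fin m → Bool, f (Fin.cons false τ) := by
  rw [← (Fin.consEquiv (fun _ : Fin (m + 1) => Bool)).sum_comp, Fintype.sum_prod_type,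
    Fintype.sum_bool]
  rfl

theorem PS_cons {m : ℕ} (s a : Bool) (σ : Fin (m + 1) → Bool) (τ : Fin m → Bool) :
    PS (bz s) (fun j => bz ((Fin.cons a τ : Fin (m + 1) → Bool) j) - bz (σ j)) ↔
      (bz s + (bz a - bz (σ 0)) = 0 ∨ bz s + (bz a - bz (σ 0)) = 1) ∧
        PS (bz s + (bz a - bz (σ 0))) (fun j => bz (τ j) - bz (σ j.succ)) := by
  rw [PS_succ]
  simp only [Fin.cons_zero, Fin.cons_succ]

theorem PS_cons_iff {m : ℕ} (s a s' : Bool) (σ : Fin (m + 1) → Bool) (τ : Fin m → Bool)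
    (h : bz s + (bz a - bz (σ 0)) = bz s') :
    PS (bz s) (fun j => bz ((Fin.cons a τ : Fin (m + 1) → Bool) j) - bz (σ j)) ↔
      PS (bz s') (fun j => bz (τ j) - bz (σ j.succ)) := by
  rw [PS_cons, h]
  constructor
  · exact fun h => h.2
  · intro h
    refine ⟨?_, h⟩
    cases s' <;> simp [bz]

theorem PS_cons_false {m : ℕ} (s a : Bool) (σ : Fin (m + 1) → Bool) (τ : Fin m → Bool)
    (h : ¬ (bz s + (bz a - bz (σ 0)) = 0 ∨ bz s + (bz a - bz (σ 0)) = 1)) :
    ¬ PS (bz s) (fun j => bz ((Fin.cons a τ : Fin (m + 1) → Bool) j) - bz (σ j)) := by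
  rw [PS_cons]
  exact fun h' => h h'.1

/-- The sum over the possible new states. -/
noncomputable def WW {m : ℕ} (s : Bool) (σ : Fin m → Bool) (k : (Fin m → Bool) → ℂ) : ℂ :=
  ∑ τ : Fin m → Bool, ind (PS (bz s) (fun j => bz (τ j) - bz (σ j))) (k τ)

theorem WW_iff {m : ℕ} (s a s' : Bool) (σ : Fin (m + 1) → Bool) (k : (Fin m → Bool) → ℂ)
    (h : bz s + (bz a - bz (σ 0)) = bz s') :
    ∑ τ : Fin m → Bool, ind (PS (bz s) (fun j => bz ((Fin.cons a τ : Fin (m + 1) → Bool) j) -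
      bz (σ j))) (k τ) = WW s' (fun j => σ j.succ) k :=
  Finset.sum_congr rfl (fun τ _ => ind_congr (PS_cons_iff s a s' σ τ h) _)

theorem WW_false {m : ℕ} (s a : Bool) (σ : Fin (m + 1) → Bool) (k : (Fin m → Bool) → ℂ)
    (h : ¬ (bz s + (bz a - bz (σ 0)) = 0 ∨ bz s + (bz a - bz (σ 0)) = 1)) :
    ∑ τ : Fin m → Bool, ind (PS (bz s) (fun j => bz ((Fin.cons a τ : Fin (m + 1) → Bool) j) -
      bz (σ j))) (k τ) = 0 :=
  Finset.sum_eq_zero (fun τ _ => ind_false (PS_cons_false s a σ τ h) _)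

theorem row_one (ω : ℂ) {m : ℕ} (s : Bool) (σ : Fin m → Bool) (k : List (ℂ × Bool) → ℂ) :
    row ω 1 s (List.ofFn (fun j => ((1 : ℂ), σ j))) k = (ω - 1) ^ m *
      WW s σ (fun τ => k (List.ofFn (fun j => ((1 : ℂ), τ j)))) := by
  induction m generalizing s k with
  | zero =>
    unfold WW
    cases s
    · rw [Finset.univ_unique, Finset.sum_singleton, ind_false (by rw [PS_zero]; simp [bz])]
      simp [row]
    · rw [Finset.univ_unique, Finset.sum_singleton, ind_true (by rw [PS_zero]; simp [bz])]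
      simp [row]
  | succ m ih =>
    rw [List.ofFn_succ, row_cons]
    simp only [ih]
    have hW : ∀ a : Bool, (fun τ : Fin m → Bool => k (List.ofFn (fun j : Fin (m + 1) =>
        ((1 : ℂ), (Fin.cons a τ : Fin (m + 1) → Bool) j)))) =
        fun τ : Fin m → Bool => k (((1 : ℂ), a) :: List.ofFn (fun j => ((1 : ℂ), τ j))) := by
      intro a
      funext τ
      rw [List.ofFn_succ]
      rfl
    rw [WW, sum_cons]
    let g : Bool → (Fin m → Bool) → ℂ := fun a τ => k (List.ofFn (fun j : Fin (m + 1) =>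
        ((1 : ℂ), (Fin.cons a τ : Fin (m + 1) → Bool) j)))
    change _ = (ω - 1) ^ (m + 1) * ((∑ τ : Fin m → Bool, ind (PS (bz s) (fun j =>
      bz ((Fin.cons true τ : Fin (m + 1) → Bool) j) - bz (σ j))) (g true τ)) +
      ∑ τ : Fin m → Bool, ind (PS (bz s) (fun j =>
      bz ((Fin.cons false τ : Fin (m + 1) → Bool) j) - bz (σ j))) (g false τ))
    have hg : ∀ a : Bool, g a = fun τ : Fin m → Bool => k (((1 : ℂ), a) ::
      List.ofFn (fun j => ((1 : ℂ), τ j))) := hW
    cases s <;> cases h0 : σ 0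
    · rw [WW_iff false true true σ (g true) (by rw [h0]; simp [bz]),
        WW_iff false false false σ (g false) (by rw [h0]; simp [bz]), hg, hg]
      simp only [V]
      ring
    · rw [WW_iff false true false σ (g true) (by rw [h0]; simp [bz]),
        WW_false false false σ (g false) (by rw [h0]; simp [bz]), hg]
      simp only [V]
      ring
    · rw [WW_false true true σ (g true) (by rw [h0]; simp [bz]),
        WW_iff true false true σ (g false) (by rw [h0]; simp [bz]), hg]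
      simp only [V]
      ring
    · rw [WW_iff true true true σ (g true) (by rw [h0]; simp [bz]),
        WW_iff true false false σ (g false) (by rw [h0]; simp [bz]), hg, hg]
      simp only [V]
      ring

theorem WW_mul {m : ℕ} (s : Bool) (σ : Fin m → Bool) (c : ℂ) (k : (Fin m → Bool) → ℂ) :
    WW s σ (fun τ => c * k τ) = c * WW s σ k := by
  unfold WW
  simp only [ind_mul]
  rw [Finset.mul_sum]

theorem card_WW {m : ℕ} (σ : Fin (m + 1) → Bool) (t : Bool)
    (D : Matrix (Fin m) (Fin m) ℤ → Prop) :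
    ((Nat.card {A : Matrix (Fin (m + 1)) (Fin (m + 1)) ℤ // GG σ A ∧
      (A 0 0 = bz t - bz (σ 0) ∧ D (lowr A))} : ℕ) : ℂ) =
    WW t (fun j => σ j.succ) (fun τ =>
      (Nat.card {B : Matrix (Fin m) (Fin m) ℤ // GG τ B ∧ D B} : ℂ)) := by
  classical
  rw [card_decomp]
  push_cast
  unfold WW
  apply Finset.sum_congr rfl
  intro τ _
  split_ifs with h
  · rw [ind_true h]
  · rw [ind_false h]

/-- The exponent. -/
def ee : ℕ → ℕ
  | 0 => 0
  | m + 1 => ee m + m

theorem Z_one (ω : ℂ) (m : ℕ) (σ : Fin m → Bool) :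
    Z ω m (List.ofFn (fun j => ((1 : ℂ), σ j))) = (ω - 1) ^ ee m *
      (Nat.card {A : Matrix (Fin m) (Fin m) ℤ // GG σ A ∧ ∀ i, A i i = 0} : ℂ) := by
  induction m with
  | zero =>
    have h1 : Nat.card {A : Matrix (Fin 0) (Fin 0) ℤ // GG σ A ∧ ∀ i, A i i = 0} = 1 := by
      rw [Nat.card_eq_one_iff_unique]
      refine ⟨⟨fun a b => Subtype.ext (by ext i; exact i.elim0)⟩, ⟨⟨0, ⟨?_, ?_, ?_⟩, ?_⟩⟩⟩
      all_goals intro i; exact i.elim0
    rw [h1]
    simp [Z, ee]
  | succ m ih =>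
    rw [List.ofFn_succ, Z, row_one]
    simp only [ih]
    rw [WW_mul, ← card_WW σ (σ 0) (fun B : Matrix (Fin m) (Fin m) ℤ => ∀ i, B i i = 0), ee,
      pow_add]
    have h2 : ∀ A : Matrix (Fin (m + 1)) (Fin (m + 1)) ℤ, (GG σ A ∧ ∀ i, A i i = 0) ↔
        (GG σ A ∧ (A 0 0 = bz (σ 0) - bz (σ 0) ∧ ∀ i, (lowr A) i i = 0)) := by
      intro A
      rw [sub_self, Fin.forall_fin_succ]
      rfl
    rw [Nat.card_congr (Equiv.subtypeEquivRight h2)]
    ring

theorem kp_one (ω : ℂ) (hω : ω ^ 2 + ω + 1 = 0) {m : ℕ} (σ : Fin m → Bool) :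
    kp ω (List.ofFn (fun j => ((1 : ℂ), σ j))) = (-ω) ^ m := by
  unfold kp
  rw [List.map_ofFn, List.prod_ofFn]
  simp only [Function.comp_apply, mul_one, Finset.prod_const, Finset.card_univ, Fintype.card_fin]
  congr 1
  linear_combination hω

theorem Zo_one (ω : ℂ) (hω : ω ^ 2 + ω + 1 = 0) (m : ℕ) (σ : Fin m → Bool) :
    (-ω) * Zo ω m (List.ofFn (fun j => ((1 : ℂ), σ j))) = (ω - 1) ^ ee m * (-ω) ^ m *
      (Nat.card {A : Matrix (Fin m) (Fin m) ℤ // GG σ A ∧
        ∃ d, A d d ≠ 0 ∧ ∀ i, i ≠ d → A i i = 0} : ℂ) := by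
  induction m with
  | zero =>
    have h1 : Nat.card {A : Matrix (Fin 0) (Fin 0) ℤ // GG σ A ∧
        ∃ d, A d d ≠ 0 ∧ ∀ i, i ≠ d → A i i = 0} = 0 := by
      rw [Nat.card_eq_zero]
      left
      constructor
      rintro ⟨A, _, d, _⟩
      exact d.elim0
    rw [h1]
    simp [Zo]
  | succ m ih =>
    rw [List.ofFn_succ, Zo_cons, row_one, row_one, kp_one ω hω]
    have hpw : pw (1 : ℂ) (σ 0) = 1 := by cases σ 0 <;> rfl
    have hk : (1 : ℂ) + ω ^ 2 * 1 = -ω := by linear_combination hω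
    rw [hpw, hk]
    have e1 : (-ω) * WW (σ 0) (fun i : Fin m => σ i.succ)
        (fun τ => Zo ω m (List.ofFn (fun j => ((1 : ℂ), τ j)))) =
        (ω - 1) ^ ee m * (-ω) ^ m *
        (Nat.card {A : Matrix (Fin (m + 1)) (Fin (m + 1)) ℤ // GG σ A ∧
          (A 0 0 = bz (σ 0) - bz (σ 0) ∧ ∃ d, (lowr A) d d ≠ 0 ∧
            ∀ i, i ≠ d → (lowr A) i i = 0)} : ℂ) := by
      rw [card_WW σ (σ 0) (fun B : Matrix (Fin m) (Fin m) ℤ => ∃ d, B d d ≠ 0 ∧
        ∀ i, i ≠ d → B i i = 0), ← WW_mul, ← WW_mul]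
      simp only [ih]
    have e2 : WW (!σ 0) (fun i : Fin m => σ i.succ)
        (fun τ => Z ω m (List.ofFn (fun j => ((1 : ℂ), τ j)))) =
        (ω - 1) ^ ee m *
        (Nat.card {A : Matrix (Fin (m + 1)) (Fin (m + 1)) ℤ // GG σ A ∧
          (A 0 0 = bz (!σ 0) - bz (σ 0) ∧ ∀ i, (lowr A) i i = 0)} : ℂ) := by
      rw [card_WW σ (!σ 0) (fun B : Matrix (Fin m) (Fin m) ℤ => ∀ i, B i i = 0), ← WW_mul]
      simp only [Z_one]
    have h2 : ∀ A : Matrix (Fin (m + 1)) (Fin (m + 1)) ℤ, (GG σ A ∧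
        ∃ d, A d d ≠ 0 ∧ ∀ i, i ≠ d → A i i = 0) ↔
        ((GG σ A ∧ (A 0 0 = bz (σ 0) - bz (σ 0) ∧ ∃ d, (lowr A) d d ≠ 0 ∧
            ∀ i, i ≠ d → (lowr A) i i = 0)) ∨
         (GG σ A ∧ (A 0 0 = bz (!σ 0) - bz (σ 0) ∧ ∀ i, (lowr A) i i = 0))) := by
      intro A
      constructor
      · rintro ⟨hA, d, hd, hd'⟩
        rcases Fin.eq_zero_or_eq_succ d with rfl | ⟨d', rfl⟩
        · right
          refine ⟨hA, ?_, fun i => hd' i.succ (Fin.succ_ne_zero i)⟩
          have h1 := ((PS_succ _ _).mp (hA.2.1 0)).1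
          cases h0 : σ 0
          · rw [h0] at h1
            simp only [bz, Bool.not_false] at h1 ⊢
            rcases h1 with h1 | h1
            · exact absurd (by linarith) hd
            · linarith
          · rw [h0] at h1
            simp only [bz, Bool.not_true] at h1 ⊢
            rcases h1 with h1 | h1
            · linarith
            · exact absurd (by linarith) hd
        · left
          refine ⟨hA, ?_, d', hd, fun i hi => hd' i.succ (fun h => hi (Fin.succ_injective _ h))⟩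
          rw [sub_self]
          exact hd' 0 (Fin.succ_ne_zero d').symm
      · rintro (⟨hA, h0, d, hd, hd'⟩ | ⟨hA, h0, h1⟩)
        · refine ⟨hA, d.succ, hd, ?_⟩
          intro i
          refine Fin.cases ?_ (fun i => ?_) i
          · intro _
            rw [h0, sub_self]
          · intro hi
            exact hd' i (fun h => hi (by rw [h]))
        · refine ⟨hA, 0, ?_, ?_⟩
          · rw [h0]
            cases σ 0 <;> simp [bz]
          · intro i
            refine Fin.cases ?_ (fun i => ?_) i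
            · intro h; exact absurd rfl h
            · intro _
              exact h1 i
    have hdis : Disjoint (fun A : Matrix (Fin (m + 1)) (Fin (m + 1)) ℤ => (GG σ A ∧
        (A 0 0 = bz (σ 0) - bz (σ 0) ∧ ∃ d, (lowr A) d d ≠ 0 ∧
            ∀ i, i ≠ d → (lowr A) i i = 0)))
         (fun A => GG σ A ∧ (A 0 0 = bz (!σ 0) - bz (σ 0) ∧ ∀ i, (lowr A) i i = 0)) := by
      rw [Pi.disjoint_iff]
      intro A
      rw [Prop.disjoint_iff]
      rintro ⟨⟨_, h1, _⟩, ⟨_, h2, _⟩⟩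
      rw [h1] at h2
      cases h0 : σ 0 <;> rw [h0] at h2 <;> simp [bz] at h2
    classical
    have f1 := GG_finite σ (fun A => (A 0 0 = bz (σ 0) - bz (σ 0) ∧ ∃ d, (lowr A) d d ≠ 0 ∧
            ∀ i, i ≠ d → (lowr A) i i = 0))
    have f2 := GG_finite σ (fun A => (A 0 0 = bz (!σ 0) - bz (σ 0) ∧ ∀ i, (lowr A) i i = 0))
    rw [Nat.card_congr (Equiv.subtypeEquivRight h2), Nat.card_congr (subtypeOrEquiv _ _ hdis),
      Nat.card_sum, ee, pow_add, pow_succ]
    push_cast
    linear_combination ((-ω) * (ω - 1) ^ m) * e1 + ((-ω) * (-ω) ^ m * (ω - 1) ^ m) * e2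

end Pool.Agent.Helper42.OS
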