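import Pool.Agent.Helper42.OS.Sym

set_option autoImplicit false

namespace Pool.Agent.Helper42.OS

open Polynomial

section field

variable {K : Type} [Field K]

/-- `f` agrees with a polynomial of degree at most `d` at the nonzero elements. -/
def IsP (d : ℕ) (f : K → K) : Prop := ∃ p : K[X], p.natDegree ≤ d ∧ ∀ z, z ≠ 0 → f z = p.eval z

theorem IsP.congr {d : ℕ} {f g : K → K} (h : IsP d f) (e : ∀ z, z ≠ 0 → g z = f z) : IsP d g := by
  obtain ⟨p, hp, hp'⟩ := h
  exact ⟨p, hp, fun z hz => by rw [e z hz, hp' z hz]⟩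

theorem IsP.const (d : ℕ) (c : K) : IsP d (fun _ => c) := ⟨C c, by simp, fun z _ => by simp⟩

theorem IsP.mono {d e : ℕ} {f : K → K} (h : IsP d f) (hde : d ≤ e) : IsP e f := by
  obtain ⟨p, hp, hp'⟩ := h
  exact ⟨p, hp.trans hde, hp'⟩

theorem IsP.mul {d e : ℕ} {f g : K → K} (h : IsP d f) (h' : IsP e g) :
    IsP (d + e) (fun z => f z * g z) := by
  obtain ⟨p, hp, hp'⟩ := h
  obtain ⟨q, hq, hq'⟩ := h'
  exact ⟨p * q, (natDegree_mul_le).trans (add_le_add hp hq), fun z hz => by
    simp only [hp' z hz, hq' z hz, eval_mul]⟩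

theorem IsP.add {d : ℕ} {f g : K → K} (h : IsP d f) (h' : IsP d g) :
    IsP d (fun z => f z + g z) := by
  obtain ⟨p, hp, hp'⟩ := h
  obtain ⟨q, hq, hq'⟩ := h'
  exact ⟨p + q, (natDegree_add_le _ _).trans (max_le hp hq), fun z hz => by
    simp only [hp' z hz, hq' z hz, eval_add]⟩

theorem IsP.sub {d : ℕ} {f g : K → K} (h : IsP d f) (h' : IsP d g) :
    IsP d (fun z => f z - g z) := by
  obtain ⟨p, hp, hp'⟩ := h
  obtain ⟨q, hq, hq'⟩ := h'
  exact ⟨p - q, (natDegree_sub_le _ _).trans (max_le hp hq), fun z hz => by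
    simp only [hp' z hz, hq' z hz, eval_sub]⟩

theorem IsP.smul {d : ℕ} {f : K → K} (c : K) (h : IsP d f) : IsP d (fun z => c * f z) := by
  have := (IsP.const 0 c).mul h
  simpa using this

theorem IsP.lin (a b : K) : IsP 1 (fun z => a * z + b) :=
  ⟨C a * X + C b, natDegree_linear_le, fun z _ => by simp⟩

theorem IsP.pow {d : ℕ} {f : K → K} (h : IsP d f) (n : ℕ) : IsP (n * d) (fun z => f z ^ n) := by
  induction n with
  | zero => simpa using IsP.const 0 (1 : K)
  | succ n ih =>
    have := ih.mul h
    simpa [pow_succ, Nat.add_mul] using this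

theorem IsP.sum {ι : Type} {d : ℕ} (s : Finset ι) {f : ι → K → K} (h : ∀ i ∈ s, IsP d (f i)) :
    IsP d (fun z => ∑ i ∈ s, f i z) := by
  classical
  induction s using Finset.induction_on with
  | empty => simpa using IsP.const d (0 : K)
  | insert a s ha ih =>
    have h1 := h a (Finset.mem_insert_self a s)
    have h2 := ih (fun i hi => h i (Finset.mem_insert_of_mem hi))
    exact (h1.add h2).congr (fun z _ => by rw [Finset.sum_insert ha])

theorem IsP.prod {ι : Type} {d : ℕ} (s : Finset ι) {f : ι → K → K} (h : ∀ i ∈ s, IsP d (f i)) :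
    IsP (s.card * d) (fun z => ∏ i ∈ s, f i z) := by
  classical
  induction s using Finset.induction_on with
  | empty => simpa using IsP.const 0 (1 : K)
  | insert a s ha ih =>
    have h1 := h a (Finset.mem_insert_self a s)
    have h2 := ih (fun i hi => h i (Finset.mem_insert_of_mem hi))
    refine ((h1.mul h2).mono ?_).congr (fun z _ => by rw [Finset.prod_insert ha])
    rw [Finset.card_insert_of_notMem ha]
    ring_nf
    omega

theorem IsP.inv {d : ℕ} {f : K → K} (h : IsP d f) : IsP d (fun z => z ^ d * f z⁻¹) := by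
  obtain ⟨p, hp, hp'⟩ := h
  refine ⟨p.reflect d, ?_, ?_⟩
  · exact (natDegree_reflect_le).trans (max_le le_rfl hp)
  · intro z hz
    show z ^ d * f z⁻¹ = _
    rw [hp' _ (inv_ne_zero hz)]
    let _ : Invertible (z⁻¹) := invertibleOfNonzero (inv_ne_zero hz)
    have := eval₂_reflect_mul_pow (RingHom.id K) (z⁻¹) d p hp
    simp only [invOf_eq_inv, inv_inv] at this
    have hd : z ^ d * z⁻¹ ^ d = 1 := by rw [← mul_pow, mul_inv_cancel₀ hz, one_pow]
    rw [← eval₂_id, ← eval₂_id, ← this]
    linear_combination (eval₂ (RingHom.id K) z (reflect d p)) * hd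

theorem IsP.eq_zero {d : ℕ} {f : K → K} (h : IsP d f) (S : List K) (hS : S.Nodup)
    (hd : d < S.length) (h0 : ∀ z ∈ S, z ≠ 0) (hf : ∀ z ∈ S, f z = 0) (z : K) (hz : z ≠ 0) :
    f z = 0 := by
  classical
  obtain ⟨p, hp, hp'⟩ := h
  have : p = 0 := by
    apply eq_zero_of_natDegree_lt_card_of_eval_eq_zero' p S.toFinset
    · intro i hi
      rw [List.mem_toFinset] at hi
      rw [← hp' i (h0 i hi), hf i hi]
    · rw [List.toFinset_card_of_nodup hS]
      omega
  rw [hp' z hz, this, eval_zero]

theorem IsP_true (ω : K) (l : List K) (k : List (K × Bool) → K) :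
    IsP l.length (fun z => row ω z true (fl l) k) := by
  induction l generalizing k with
  | nil => simpa [fl, row] using IsP.const 0 (k [])
  | cons y l ih =>
    have h1 := (IsP.lin (-y) ω).mul (ih (fun L' => k ((y, false) :: L')))
    refine (h1.mono ?_).congr ?_
    · simp; omega
    · intro z _
      rw [fl_cons, row_cons]
      simp only [V]
      ring

theorem IsP_false (ω y : K) (l : List K) (k : List (K × Bool) → K) :
    IsP l.length (fun z => row ω z false (fl (y :: l)) k) := by
  induction l generalizing y k with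
  | nil =>
    refine (IsP.const 0 ((ω - 1) * k [(y, true)])).congr ?_
    intro z _
    simp [fl, row, V]
  | cons x l ih =>
    have h1 := (IsP.lin (ω * y) (-1)).mul (ih x (fun L' => k ((y, false) :: L')))
    have h2 := (IsP_true ω (x :: l) (fun L' => k ((y, true) :: L'))).smul (ω - 1)
    refine ((h1.mono ?_).add h2).congr ?_
    · simp; omega
    · intro z _
      rw [fl_cons y, row_cons]
      simp only [V]
      ring

theorem IsP_ZZ (ω y : K) (l : List K) : IsP l.length (fun z => ZZ ω (z :: y :: l)) :=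
  IsP_false ω y l _

theorem IsP_ZO (ω : K) (l : List K) : IsP l.length (fun z => ZO ω (z :: l)) := by
  cases l with
  | nil =>
    refine (IsP.const 0 1).congr ?_
    intro z _
    simp [ZO, fl, Zo, row, kp, pw, Z]
  | cons y l =>
    have h1 := (IsP.lin (ω ^ 2) 1).mul (IsP_false ω y l (Zo ω (y :: l).length))
    have h2 := (IsP_true ω (y :: l) (Z ω (y :: l).length)).smul (kp ω (fl (y :: l)))
    refine ((h1.mono ?_).add h2).congr ?_
    · simp; omega
    · intro z _
      unfold ZO
      rw [fl_cons z, List.length_cons, Zo_cons]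
      simp only [pw, Bool.not_false]
      ring

end field

end Pool.Agent.Helper42.OS
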