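import Pool.Agent.Helper42.OS.Gen

set_option autoImplicit false

namespace Pool.Agent.Helper42.OS

open Matrix Finset

/-- `z + 1/z`. -/
noncomputable def AA (z : ℂ) : ℂ := z + z⁻¹

/-- The cubic with `PP (z + 1/z) = z^3 + 1/z^3`. -/
def PP (a : ℂ) : ℂ := a ^ 3 - 3 * a

/-- The matrix whose columns are `1, A, P, P A, P^2, ...`. -/
def MM {m : ℕ} (v : Fin m → ℂ) : Matrix (Fin m) (Fin m) ℂ :=
  Matrix.of fun i j => PP (v i) ^ (j.val / 2) * (v i) ^ (j.val % 2)

theorem det_first_row {m : ℕ} (B : Matrix (Fin (m + 1)) (Fin (m + 1)) ℂ)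
    (h : ∀ j : Fin m, B 0 j.succ = 0) :
    B.det = B 0 0 * (B.submatrix Fin.succ Fin.succ).det := by
  rw [Matrix.det_succ_row_zero, Fin.sum_univ_succ]
  simp only [h, mul_zero, zero_mul, Finset.sum_const_zero, add_zero]
  simp

/-- The column operations. -/
def TT (m : ℕ) (a p : ℂ) : Matrix (Fin (m + 2)) (Fin (m + 2)) ℂ :=
  Matrix.of fun k j => (if k = j then 1 else 0) + (if k.val + 2 = j.val then -p else 0) +
    (if k.val = 0 ∧ j.val = 1 then -a else 0)

theorem TT_det (m : ℕ) (a p : ℂ) : (TT m a p).det = 1 := by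
  rw [Matrix.det_of_isUpperTriangular]
  · apply Finset.prod_eq_one
    intro i _
    simp only [TT, Matrix.of_apply]
    rw [if_pos trivial, if_neg (by omega), if_neg (by omega)]
    ring
  · intro i j hij
    simp only [id] at hij
    have h1 : ¬ i = j := fun h => by rw [h] at hij; exact lt_irrefl _ hij
    have h2 : ¬ (i.val + 2 = j.val) := by
      have : j.val < i.val := hij
      omega
    have h3 : ¬ (i.val = 0 ∧ j.val = 1) := by
      have : j.val < i.val := hij
      omega
    simp only [TT, Matrix.of_apply]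
    rw [if_neg h1, if_neg h2, if_neg h3]
    ring

theorem MM_det_rec {m : ℕ} (v : Fin (m + 2) → ℂ) (h : PP (v 0) = PP (v 1)) :
    (MM v).det = (v 1 - v 0) * (∏ i : Fin m, (PP (v i.succ.succ) - PP (v 0))) *
      (MM (fun i => v i.succ.succ)).det := by
  have e0 : (MM v).det = (MM v * TT m (v 0) (PP (v 0))).det := by
    rw [Matrix.det_mul, TT_det, mul_one]
  have hB : ∀ i j, (MM v * TT m (v 0) (PP (v 0))) i j =
      if j.val = 0 then 1 else if j.val = 1 then v i - v 0 else
        (PP (v i) - PP (v 0)) * (PP (v i) ^ ((j.val - 2) / 2) * (v i) ^ ((j.val - 2) % 2)) := by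
    intro i j
    rw [Matrix.mul_apply]
    simp only [TT, Matrix.of_apply, mul_add, Finset.sum_add_distrib, mul_ite, mul_one, mul_zero,
      Finset.sum_ite_eq', Finset.mem_univ, if_true]
    by_cases hj0 : j.val = 0
    · have h1 : ∀ k : Fin (m + 2), ¬ (k.val + 2 = j.val) := by intro k; omega
      have h2 : ∀ k : Fin (m + 2), ¬ (k.val = 0 ∧ j.val = 1) := by intro k; omega
      rw [Finset.sum_eq_zero (fun k _ => if_neg (h1 k)), Finset.sum_eq_zero (fun k _ => if_neg (h2 k))]
      simp [MM, hj0]
    · by_cases hj1 : j.val = 1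
      · have h1 : ∀ k : Fin (m + 2), ¬ (k.val + 2 = j.val) := by intro k; omega
        rw [Finset.sum_eq_zero (fun k _ => if_neg (h1 k)), if_neg hj0, if_pos hj1]
        rw [Finset.sum_eq_single (0 : Fin (m + 2))]
        · simp [MM, hj1]
          ring
        · intro b _ hb
          have : b.val ≠ 0 := fun hh => hb (Fin.ext hh)
          rw [if_neg (by omega)]
        · simp
      · have h2 : ∀ k : Fin (m + 2), ¬ (k.val = 0 ∧ j.val = 1) := by intro k; omega
        rw [Finset.sum_eq_zero (fun k _ => if_neg (h2 k)), if_neg hj0, if_neg hj1]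
        have hlt : j.val - 2 < m + 2 := by omega
        rw [Finset.sum_eq_single (⟨j.val - 2, hlt⟩ : Fin (m + 2))]
        · have e1 : j.val - 2 + 2 = j.val := by omega
          have e2 : j.val / 2 = (j.val - 2) / 2 + 1 := by omega
          have e3 : j.val % 2 = (j.val - 2) % 2 := by omega
          simp only [MM, Matrix.of_apply]
          rw [if_pos e1, e2, e3, pow_succ]
          ring
        · intro b _ hb
          have : ¬ (b.val + 2 = j.val) := fun hh => hb (Fin.ext (by simp; omega))
          exact if_neg this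
        · simp
  rw [e0, det_first_row, det_first_row]
  · have e1 : ((MM v * TT m (v 0) (PP (v 0))).submatrix Fin.succ Fin.succ).submatrix
        Fin.succ Fin.succ = Matrix.of (fun i j => (PP (v i.succ.succ) - PP (v 0)) *
          (MM (fun i => v i.succ.succ)) i j) := by
      ext i j
      simp only [Matrix.submatrix_apply, Matrix.of_apply]
      rw [hB]
      simp [MM]
    rw [e1, Matrix.det_mul_column]
    simp only [Matrix.submatrix_apply]
    rw [hB, hB]
    simp
    ring
  · intro j
    simp only [Matrix.submatrix_apply]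
    rw [hB]
    simp [h]
  · intro j
    rw [hB]
    simp

theorem vdm_det_rec {m : ℕ} (v : Fin (m + 2) → ℂ) :
    (vandermonde v).det = (v 1 - v 0) * (∏ i : Fin m, ((v i.succ.succ - v 0) *
      (v i.succ.succ - v 1))) * (vandermonde (fun i => v i.succ.succ)).det := by
  rw [det_vandermonde, det_vandermonde, Fin.prod_univ_succ, Fin.prod_univ_succ]
  simp only [Fin.prod_Ioi_zero, Fin.prod_Ioi_succ]
  rw [Fin.prod_univ_succ, Finset.prod_mul_distrib]
  have : v (Fin.succ 0) = v 1 := rfl
  rw [this]
  ring

theorem vdm_det_cons {m : ℕ} (a : ℂ) (v : Fin m → ℂ) :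
    (vandermonde (Fin.cons a v : Fin (m + 1) → ℂ)).det =
      (∏ i : Fin m, (v i - a)) * (vandermonde v).det := by
  rw [det_vandermonde, det_vandermonde, Fin.prod_univ_succ]
  simp only [Fin.prod_Ioi_zero, Fin.prod_Ioi_succ, Fin.cons_succ, Fin.cons_zero]

end Pool.Agent.Helper42.OS
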