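import Pool.Agent.Helper42.OS.ChGen
import Pool.Agent.Helper42.OS.Cont

set_option autoImplicit false

namespace Pool.Agent.Helper42.OS

open Matrix Finset

/-- The polynomials with `sq k (z + 1/z) = (z^k - z^(-k)) / (z - 1/z)`. -/
def sq : ℕ → ℂ → ℂ
  | 0, _ => 0
  | 1, _ => 1
  | k + 2, A => A * sq (k + 1) A - sq k A

theorem sq_spec (k : ℕ) (z : ℂ) (hz : z ≠ 0) :
    (z - z⁻¹) * sq k (AA z) = z ^ k - (z⁻¹) ^ k := by
  induction k using Nat.twoStepInduction with
  | zero => simp [sq]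
  | one => simp [sq]
  | more k ih1 ih2 =>
    have e : z * z⁻¹ = 1 := mul_inv_cancel₀ hz
    rw [sq]
    unfold AA at *
    have h1 : (z - z⁻¹) * ((z + z⁻¹) * sq (k + 1) (z + z⁻¹) - sq k (z + z⁻¹)) =
        (z + z⁻¹) * (z ^ (k + 1) - z⁻¹ ^ (k + 1)) - (z ^ k - z⁻¹ ^ k) := by
      rw [← ih1, ← ih2]; ring
    rw [h1, pow_succ z (k + 1), pow_succ z k, pow_succ z⁻¹ (k + 1), pow_succ z⁻¹ k]
    linear_combination (z ^ k - z⁻¹ ^ k) * e

theorem sq_six (k : ℕ) (A : ℂ) : sq (k + 6) A = PP A * sq (k + 3) A - sq k A := by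
  have h6 : sq (k + 6) A = A * sq (k + 5) A - sq (k + 4) A := rfl
  have h5 : sq (k + 5) A = A * sq (k + 4) A - sq (k + 3) A := rfl
  have h4 : sq (k + 4) A = A * sq (k + 3) A - sq (k + 2) A := rfl
  have h3 : sq (k + 3) A = A * sq (k + 2) A - sq (k + 1) A := rfl
  have h2 : sq (k + 2) A = A * sq (k + 1) A - sq k A := rfl
  rw [h6, h5, h4, h3, h2]
  unfold PP
  ring

theorem sq_neg_two (k : ℕ) : sq k (-2) = -(-1) ^ k * k := by
  induction k using Nat.twoStepInduction with
  | zero => simp [sq]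
  | one => simp [sq]
  | more k ih1 ih2 =>
    rw [sq, ih1, ih2, pow_succ (-1 : ℂ) (k + 1), pow_succ (-1 : ℂ) k]
    push_cast
    ring

theorem sq_two (k : ℕ) : sq k 2 = k := by
  induction k using Nat.twoStepInduction with
  | zero => simp [sq]
  | one => simp [sq]
  | more k ih1 ih2 =>
    rw [sq, ih1, ih2]
    push_cast
    ring

theorem sq_cont (k : ℕ) : Continuous (sq k) := by
  induction k using Nat.twoStepInduction with
  | zero => exact continuous_const
  | one => exact continuous_const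
  | more k ih1 ih2 =>
    have : sq (k + 2) = fun A => A * sq (k + 1) A - sq k A := by funext A; rfl
    rw [this]
    fun_prop

/-- The exponents `1, 2, 4, 5, 7, 8, ...`. -/
def aa (j : ℕ) : ℕ := 3 * (j / 2) + 1 + j % 2

/-- The monomials. -/
def mm (k : ℕ) (A : ℂ) : ℂ := PP A ^ (k / 2) * A ^ (k % 2)

theorem gexp (j : ℕ) : ∃ c : ℕ → ℂ, (∀ k, j < k → c k = 0) ∧ c j = 1 ∧
    ∀ m, j < m → ∀ A, sq (aa j) A = ∑ k ∈ range m, c k * mm k A := by
  induction j using Nat.strong_induction_on with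
  | _ j ih =>
  match j, ih with
  | 0, _ =>
    refine ⟨fun k => if k = 0 then 1 else 0, fun k hk => if_neg (by omega), if_pos rfl, ?_⟩
    intro m hm A
    simp [aa, sq, mm, hm]
  | 1, _ =>
    refine ⟨fun k => if k = 1 then 1 else 0, fun k hk => if_neg (by omega), if_pos rfl, ?_⟩
    intro m hm A
    simp [aa, sq, mm, hm]
  | 2, _ =>
    refine ⟨fun k => (if k = 2 then 1 else 0) + (if k = 1 then 1 else 0),
      fun k hk => by simp only; rw [if_neg (by omega), if_neg (by omega), add_zero], by simp, ?_⟩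
    intro m hm A
    have h1 : 1 < m := by omega
    simp only [add_mul, Finset.sum_add_distrib, ite_mul, one_mul, zero_mul,
      Finset.sum_ite_eq', Finset.mem_range, hm, h1, if_true]
    simp [aa, sq, mm, PP]
    ring
  | 3, _ =>
    refine ⟨fun k => (if k = 3 then 1 else 0) + (if k = 0 then 1 else 0),
      fun k hk => by simp only; rw [if_neg (by omega), if_neg (by omega), add_zero], by simp, ?_⟩
    intro m hm A
    have h1 : 0 < m := by omega
    simp only [add_mul, Finset.sum_add_distrib, ite_mul, one_mul, zero_mul,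
      Finset.sum_ite_eq', Finset.mem_range, hm, h1, if_true]
    simp [aa, sq, mm, PP]
    ring
  | j + 4, ih =>
    obtain ⟨c1, h1, h1', h1''⟩ := ih (j + 2) (by omega)
    obtain ⟨c2, h2, h2', h2''⟩ := ih j (by omega)
    refine ⟨fun k => (if 2 ≤ k then c1 (k - 2) else 0) - c2 k, ?_, ?_, ?_⟩
    · intro k hk
      simp only
      rw [if_pos (by omega), h1 _ (by omega), h2 _ (by omega), sub_zero]
    · simp only
      rw [if_pos (by omega), h2 _ (by omega), sub_zero]
      exact h1'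
    · intro m hm A
      have e0 : aa (j + 4) = aa j + 6 := by unfold aa; omega
      have e1 : aa (j + 2) = aa j + 3 := by unfold aa; omega
      rw [e0, sq_six, ← e1, h1'' (m - 2) (by omega) A, h2'' m (by omega) A]
      simp only [sub_mul, Finset.sum_sub_distrib]
      congr 1
      obtain ⟨m', rfl⟩ : ∃ m', m = m' + 2 := ⟨m - 2, by omega⟩
      rw [Finset.sum_range_succ', Finset.sum_range_succ']
      simp only [Nat.add_sub_cancel, Finset.mul_sum]
      have z1 : (if 2 ≤ 0 then c1 (0 - 2) else 0) * mm 0 A = 0 := by simp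
      have z2 : (if 2 ≤ 0 + 1 then c1 (0 + 1 - 2) else 0) * mm (0 + 1) A = 0 := by simp
      rw [z1, z2, add_zero, add_zero]
      apply Finset.sum_congr rfl
      intro k _
      rw [if_pos (by omega)]
      have e2 : k + 1 + 1 - 2 = k := by omega
      have e3 : (k + 1 + 1) / 2 = k / 2 + 1 := by omega
      have e4 : (k + 1 + 1) % 2 = k % 2 := by omega
      rw [e2]
      unfold mm
      rw [e3, e4, pow_succ]
      ring

theorem MM_det_eq {m : ℕ} (v : Fin m → ℂ) :
    (MM v).det = (Matrix.of fun i j : Fin m => sq (aa j) (v i)).det := by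
  choose c h1 h2 h3 using gexp
  have hT : (Matrix.of fun k j : Fin m => c j k).det = 1 := by
    rw [Matrix.det_of_isUpperTriangular]
    · apply Finset.prod_eq_one
      intro i _
      exact h2 i
    · intro i j hij
      exact h1 j i hij
  have : (Matrix.of fun i j : Fin m => sq (aa j) (v i)) =
      MM v * (Matrix.of fun k j : Fin m => c j k) := by
    ext i j
    rw [Matrix.mul_apply, Matrix.of_apply, h3 j m j.isLt (v i), ← Fin.sum_univ_eq_sum_range]
    apply Finset.sum_congr rfl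
    intro k _
    simp only [MM, mm, Matrix.of_apply]
    ring
  rw [this, Matrix.det_mul, hT, mul_one]

/-- The polynomial version of `sq`. -/
noncomputable def sqP : ℕ → Polynomial ℂ
  | 0 => 0
  | 1 => 1
  | k + 2 => Polynomial.X * sqP (k + 1) - sqP k

theorem sqP_eval (k : ℕ) (A : ℂ) : (sqP k).eval A = sq k A := by
  induction k using Nat.twoStepInduction with
  | zero => simp [sq, sqP]
  | one => simp [sq, sqP]
  | more k ih1 ih2 => simp [sq, sqP, ih1, ih2]

theorem sqP_deg (k : ℕ) : (sqP (k + 1)).Monic ∧ (sqP (k + 1)).natDegree = k ∧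
    (sqP k).degree < (k : ℕ) := by
  induction k with
  | zero =>
    refine ⟨Polynomial.monic_one, Polynomial.natDegree_one, ?_⟩
    simp [sqP]
  | succ k ih =>
    obtain ⟨i1, i2, i3⟩ := ih
    have d1 : (Polynomial.X * sqP (k + 1)).Monic := Polynomial.monic_X.mul i1
    have d2 : (Polynomial.X * sqP (k + 1)).natDegree = k + 1 := by
      rw [Polynomial.monic_X.natDegree_mul i1, Polynomial.natDegree_X, i2]; ring
    have d3 : (Polynomial.X * sqP (k + 1)).degree = ((k + 1 : ℕ) : WithBot ℕ) := by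
      rw [Polynomial.degree_eq_natDegree d1.ne_zero, d2]
    have d4 : (sqP k).degree < (Polynomial.X * sqP (k + 1)).degree := by
      rw [d3]
      exact lt_trans i3 (by exact_mod_cast Nat.lt_succ_self k)
    have d5 : sqP (k + 1 + 1) = Polynomial.X * sqP (k + 1) - sqP k := rfl
    refine ⟨?_, ?_, ?_⟩
    · rw [d5]; exact d1.sub_of_left d4
    · rw [d5]
      apply Polynomial.natDegree_eq_of_degree_eq_some
      rw [Polynomial.degree_sub_eq_left_of_degree_lt d4, d3]
    · rw [Polynomial.degree_eq_natDegree i1.ne_zero, i2]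
      exact_mod_cast Nat.lt_succ_self k

theorem vdm_sq {M : ℕ} (v : Fin M → ℂ) :
    (Matrix.of fun k i : Fin M => sq (i.val + 1) (v k)).det = (vandermonde v).det := by
  rw [Matrix.det_eval_matrixOfPolynomials_eq_det_vandermonde v (fun i : Fin M => sqP (i.val + 1))
    (fun i => (sqP_deg i.val).2.1) (fun i => (sqP_deg i.val).1)]
  congr 1
  ext i j
  simp [sqP_eval]

theorem minor_det {M : ℕ} (b : Fin M → ℕ) (s : ℂ) (hs : s ≠ 0) :
    (∏ i : Fin M, (s ^ (2 * (i.val + 1)) - (s ^ (2 * (i.val + 1)))⁻¹)) *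
      (Matrix.of fun i k : Fin M => sq (b k) (AA (s ^ (2 * (i.val + 1))))).det =
    (∏ k : Fin M, (s ^ (2 * b k) - (s ^ (2 * b k))⁻¹)) *
      (vandermonde (fun k => AA (s ^ (2 * b k)))).det := by
  rw [← vdm_sq, ← Matrix.det_mul_column, ← Matrix.det_transpose (Matrix.of fun k i : Fin M =>
    sq (i.val + 1) (AA (s ^ (2 * b k)))), ← Matrix.det_mul_row]
  congr 1
  ext i k
  simp only [Matrix.of_apply, Matrix.transpose_apply]
  rw [sq_spec _ _ (pow_ne_zero _ hs), sq_spec _ _ (pow_ne_zero _ hs), inv_pow, inv_pow,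
    ← pow_mul, ← pow_mul]
  congr 2 <;> ring

/-- The quantum integers. -/
noncomputable def qn (k : ℕ) (s : ℂ) : ℂ := sq k (AA s)

theorem qn_spec (k : ℕ) (s : ℂ) (hs : s ≠ 0) : s ^ k - (s ^ k)⁻¹ = (s - s⁻¹) * qn k s := by
  rw [← inv_pow]
  exact (sq_spec k s hs).symm

theorem AA_diff (s : ℂ) (hs : s ≠ 0) (α β : ℕ) (h : α < β) :
    AA (s ^ (2 * β)) - AA (s ^ (2 * α)) =
      (s - s⁻¹) ^ 2 * (qn (β + α) s * qn (β - α) s) := by
  obtain ⟨δ, rfl⟩ : ∃ δ, β = α + δ := ⟨β - α, by omega⟩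
  rw [show α + δ - α = δ by omega]
  have e : (s - s⁻¹) ^ 2 * (qn (α + δ + α) s * qn δ s) =
      ((s - s⁻¹) * qn (α + δ + α) s) * ((s - s⁻¹) * qn δ s) := by ring
  rw [e, ← qn_spec _ _ hs, ← qn_spec _ _ hs]
  unfold AA
  have hα : s ^ α ≠ 0 := pow_ne_zero _ hs
  have hδ : s ^ δ ≠ 0 := pow_ne_zero _ hs
  rw [show 2 * (α + δ) = α + α + δ + δ by ring, show 2 * α = α + α by ring,
    show α + δ + α = α + α + δ by ring]
  simp only [pow_add]
  field_simp
  ring

theorem vdm_qn {M : ℕ} (b : Fin M → ℕ) (hb : StrictMono b) (s : ℂ) (hs : s ≠ 0) :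
    (vandermonde (fun k => AA (s ^ (2 * b k)))).det =
      (∏ i : Fin M, ∏ _j ∈ Ioi i, (s - s⁻¹) ^ 2) *
        ∏ i : Fin M, ∏ j ∈ Ioi i, (qn (b j + b i) s * qn (b j - b i) s) := by
  rw [det_vandermonde, ← Finset.prod_mul_distrib]
  apply Finset.prod_congr rfl
  intro i _
  rw [← Finset.prod_mul_distrib]
  apply Finset.prod_congr rfl
  intro j hj
  rw [Finset.mem_Ioi] at hj
  exact AA_diff s hs _ _ (hb hj)

/-- The minors in terms of quantum integers. -/
theorem minor_qn {M : ℕ} (b : Fin M → ℕ) (hb : StrictMono b) (s : ℂ) (hs : s ≠ 0)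
    (hs' : s - s⁻¹ ≠ 0) :
    (∏ i : Fin M, qn (2 * (i.val + 1)) s) *
      (Matrix.of fun i k : Fin M => sq (b k) (AA (s ^ (2 * (i.val + 1))))).det =
    (∏ k : Fin M, qn (2 * b k) s) * ((∏ i : Fin M, ∏ _j ∈ Ioi i, (s - s⁻¹) ^ 2) *
        ∏ i : Fin M, ∏ j ∈ Ioi i, (qn (b j + b i) s * qn (b j - b i) s)) := by
  have h := minor_det b s hs
  rw [vdm_qn b hb s hs] at h
  simp only [qn_spec _ _ hs, Finset.prod_mul_distrib, Finset.prod_const, Finset.card_univ,
    Fintype.card_fin] at h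
  have hne : (s - s⁻¹) ^ M ≠ 0 := pow_ne_zero _ hs'
  apply mul_left_cancel₀ hne
  simp only [Finset.prod_mul_distrib, Finset.prod_const]
  linear_combination h

end Pool.Agent.Helper42.OS
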