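import Pool.Agent.Helper42.OS.IdI

set_option autoImplicit false

namespace Pool.Agent.Helper42.OS

theorem om_real {ω : ℂ} (hω : ω ^ 2 + ω + 1 = 0) {a b : ℝ} (h : ω * a = b) : a = 0 := by
  by_contra ha
  have ha' : (a : ℂ) ≠ 0 := by exact_mod_cast ha
  have hr : ω = ((b / a : ℝ) : ℂ) := by
    push_cast
    field_simp
    exact h
  rw [hr] at hω
  have h2 : (b / a) ^ 2 + (b / a) + 1 = (0 : ℝ) := by exact_mod_cast hω
  nlinarith [sq_nonneg (b / a + 1 / 2)]

theorem om_real2 {ω : ℂ} (hω : ω ^ 2 + ω + 1 = 0) {a b : ℝ} (h : ω ^ 2 * a = b) : a = 0 := by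
  have h2 : ω * ((-a : ℝ) : ℂ) = ((a + b : ℝ) : ℂ) := by
    push_cast
    linear_combination h - (a : ℂ) * hω
  have := om_real hω h2
  linarith

theorem om_ne_one {ω : ℂ} (hω : ω ^ 2 + ω + 1 = 0) : ω ≠ 1 := by
  intro h
  rw [h] at hω
  norm_num at hω

theorem om_ne_zero {ω : ℂ} (hω : ω ^ 2 + ω + 1 = 0) : ω ≠ 0 := by
  intro h
  rw [h] at hω
  norm_num at hω

/-- The points used for the interpolation of the identity. -/
theorem pts_nodup {ω : ℂ} (hω : ω ^ 2 + ω + 1 = 0) (x : List ℝ) (hx : x.Nodup)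
    (hx1 : ∀ r ∈ x, 1 < r) :
    (x.map (fun r : ℝ => ω ^ 2 / (r : ℂ)) ++ x.map (fun r : ℝ => ω / (r : ℂ))).Nodup := by
  have h0 := om_ne_zero hω
  rw [List.nodup_append]
  refine ⟨?_, ?_, ?_⟩
  · refine (List.nodup_map_iff_inj_on hx).mpr ?_
    intro a ha b hb hab
    have ha0 : (a : ℂ) ≠ 0 := by
      have := hx1 a ha
      exact_mod_cast (by linarith : (0:ℝ) < a).ne'
    have hb0 : (b : ℂ) ≠ 0 := by
      have := hx1 b hb
      exact_mod_cast (by linarith : (0:ℝ) < b).ne'
    field_simp at hab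
    exact_mod_cast hab.symm
  · refine (List.nodup_map_iff_inj_on hx).mpr ?_
    intro a ha b hb hab
    have ha0 : (a : ℂ) ≠ 0 := by
      have := hx1 a ha
      exact_mod_cast (by linarith : (0:ℝ) < a).ne'
    have hb0 : (b : ℂ) ≠ 0 := by
      have := hx1 b hb
      exact_mod_cast (by linarith : (0:ℝ) < b).ne'
    field_simp at hab
    exact_mod_cast hab.symm
  · intro u hu v hv huv
    rw [List.mem_map] at hu hv
    obtain ⟨a, ha, rfl⟩ := hu
    obtain ⟨b, hb, rfl⟩ := hv
    have ha1 := hx1 a ha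
    have hb1 := hx1 b hb
    have ha0 : (a : ℂ) ≠ 0 := by
      exact_mod_cast (by linarith : (0:ℝ) < a).ne'
    have hb0 : (b : ℂ) ≠ 0 := by
      exact_mod_cast (by linarith : (0:ℝ) < b).ne'
    field_simp at huv
    have := om_real hω huv
    linarith

theorem HI_gen {ω : ℂ} (hω : ω ^ 2 + ω + 1 = 0) (n : ℕ) :
    ∀ x : List ℝ, x.length = 2 * n → x.Nodup → (∀ r ∈ x, 1 < r) → ∀ z : ℂ, z ≠ 0 →
      HI ω (2 * n) (z :: x.map (fun r : ℝ => (r : ℂ))) := by
  have h1 := om_ne_one hω
  have h0 := om_ne_zero hω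
  induction n with
  | zero =>
    intro x hx _ _ z hz
    have : x = [] := List.length_eq_zero_iff.mp (by omega)
    subst this
    simp [HI, ZO, ZZ, fl, Zo, Z, row, V, kp, pw]
    linear_combination (ω - 1) * (z + 1) * hω
  | succ n ih =>
    intro x hx hnd hgt z hz
    have hne : ∀ u ∈ x.map (fun r : ℝ => (r : ℂ)), u ≠ 0 := by
      intro u hu
      rw [List.mem_map] at hu
      obtain ⟨a, ha, rfl⟩ := hu
      have := hgt a ha
      exact_mod_cast (by linarith : (0:ℝ) < a).ne'
    -- vanishing at the points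
    have key : ∀ y ∈ x, ∀ w : ℂ, w ≠ 0 → (w * y = ω ^ 2 ∨ w * y = ω) →
        HI ω (2 * (n + 1)) (w :: x.map (fun r : ℝ => (r : ℂ))) := by
      intro y hy w hw hwy
      have hperm := List.perm_cons_erase hy
      have hy0 : (y : ℂ) ≠ 0 := hne _ (List.mem_map_of_mem hy)
      refine HI_perm hω h1 _ w (hperm.map (fun r : ℝ => (r : ℂ))) ?_
      have hlen : (x.erase y).length = 2 * n + 1 := by
        rw [List.length_erase_of_mem hy, hx]; omega
      obtain ⟨r, x'', hx''⟩ : ∃ r x'', x.erase y = r :: x'' := by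
        cases h : x.erase y with
        | nil => rw [h] at hlen; simp at hlen
        | cons r x'' => exact ⟨r, x'', rfl⟩
      have hnd' : (r :: x'').Nodup := hx'' ▸ hnd.erase y
      have hsub : ∀ u ∈ r :: x'', u ∈ x := fun u hu => List.mem_of_mem_erase (hx'' ▸ hu)
      have hlen'' : x''.length = 2 * n := by
        rw [hx''] at hlen; simpa using hlen
      have hr0 : (r : ℂ) ≠ 0 := hne _ (List.mem_map_of_mem (hsub r List.mem_cons_self))
      have H := ih x'' hlen'' (List.nodup_cons.mp hnd').2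
        (fun u hu => hgt u (hsub u (List.mem_cons_of_mem r hu))) r hr0
      have hQ : ∀ u ∈ ((r : ℂ) :: x''.map (fun r : ℝ => (r : ℂ))), u ≠ 0 := by
        intro u hu
        have : u ∈ (r :: x'').map (fun r : ℝ => (r : ℂ)) := by simpa using hu
        rw [List.mem_map] at this
        obtain ⟨a, ha, rfl⟩ := this
        exact hne _ (List.mem_map_of_mem (hsub a ha))
      have e : (y :: x.erase y).map (fun r : ℝ => (r : ℂ)) =
          (y : ℂ) :: (r : ℂ) :: x''.map (fun r : ℝ => (r : ℂ)) := by rw [hx'']; rfl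
      rw [e, show 2 * (n + 1) = 2 * n + 2 by ring]
      rcases hwy with hwy | hwy
      · exact HI_step_a hω h1 _ hw hy0 hwy _ hQ (by simp [hlen'']) H
      · exact HI_step_b hω h1 _ hw hy0 hwy _ hQ (by simp [hlen'']) H
    -- interpolation
    set l := x.map (fun r : ℝ => (r : ℂ)) with hl
    have hll : l.length = 2 * n + 2 := by rw [hl, List.length_map, hx]; ring
    let f : ℂ → ℂ := fun z => (ω - 1) * (ZO ω (z :: l) * (((z :: l).map (fun z => z + ω ^ 2)).prod) +
        ((z :: l).map (fun z => z ^ (2 * (n + 1)))).prod * ZO ω ((z :: l).map (fun z => z⁻¹)) *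
        ((z :: l).map (fun z => 1 + ω ^ 2 * z)).prod) -
      (-ω * (((z :: l).map (fun z => 1 + z)).prod * ZZ ω ((z :: l) ++ [-1])))
    have hf : IsP (2 * n + 3) f := by
      have p1 := ((IsP_ZO ω l).mul (IsP.lin 1 (ω ^ 2))).smul (l.map (fun z => z + ω ^ 2)).prod
      have p2 := ((IsP_ZO ω (l.map (fun z => z⁻¹))).inv.mul (IsP.lin (ω ^ 2) 1)).smul
        ((l.map (fun z => z ^ (2 * (n + 1)))).prod * (l.map (fun z => 1 + ω ^ 2 * z)).prod)
      obtain ⟨a, l', hl'⟩ : ∃ a l', l = a :: l' := by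
        cases h : l with
        | nil => rw [h] at hll; simp at hll
        | cons a l' => exact ⟨a, l', rfl⟩
      have p3 := ((IsP_ZZ ω a (l' ++ [-1])).mul (IsP.lin 1 1)).smul (-ω *
        (l.map (fun z => 1 + z)).prod)
      have hl'' : l'.length = 2 * n + 1 := by rw [hl'] at hll; simpa using hll
      rw [List.length_map] at p2
      rw [hll] at p1 p2
      have p3' := p3.mono (show (l' ++ [-1]).length + 1 ≤ 2 * n + 3 by simp [hl''])
      refine (((p1.add p2).smul (ω - 1)).sub p3').congr ?_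
      intro z _
      simp only [f, List.map_cons, List.prod_cons, List.cons_append]
      rw [show ZZ ω (z :: (l ++ [-1])) = ZZ ω (z :: a :: (l' ++ [-1])) by rw [hl']; rfl]
      rw [show 2 * (n + 1) = 2 * n + 2 by ring]
      ring
    have hz0 := hf.eq_zero (x.map (fun r : ℝ => ω ^ 2 / (r : ℂ)) ++ x.map (fun r : ℝ => ω / (r : ℂ)))
      (pts_nodup hω x hnd hgt) (by simp [hx]; omega) ?_ ?_ z hz
    · exact sub_eq_zero.mp hz0
    · intro u hu
      rw [List.mem_append, List.mem_map, List.mem_map] at hu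
      rcases hu with ⟨y, hy, rfl⟩ | ⟨y, hy, rfl⟩
      · exact div_ne_zero (pow_ne_zero 2 h0) (hne _ (List.mem_map_of_mem hy))
      · exact div_ne_zero h0 (hne _ (List.mem_map_of_mem hy))
    · intro u hu
      rw [List.mem_append, List.mem_map, List.mem_map] at hu
      apply sub_eq_zero.mpr
      rcases hu with ⟨y, hy, rfl⟩ | ⟨y, hy, rfl⟩
      · have hy0 := hne _ (List.mem_map_of_mem hy)
        exact key y hy _ (div_ne_zero (pow_ne_zero 2 h0) hy0) (Or.inl (by field_simp))
      · have hy0 := hne _ (List.mem_map_of_mem hy)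
        exact key y hy _ (div_ne_zero h0 hy0) (Or.inr (by field_simp))

end Pool.Agent.Helper42.OS
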