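import Pool.Agent.Helper42.OS.Deg

set_option autoImplicit false

namespace Pool.Agent.Helper42.OS

section field

variable {K : Type} [Field K]

theorem ZZ_rec_b' {ω : K} (hω : ω ^ 2 + ω + 1 = 0) (h1 : ω ≠ 1) {z₁ z₂ : K} (h : z₁ * z₂ = ω)
    (l : List K) :
    ZZ ω (z₁ :: z₂ :: l) =
      (ω - 1) * (l.map (fun y => (ω * (z₁ * y) - 1) * (ω * (z₂ * y) - 1))).prod * ZZ ω l := by
  have := ZZ_perm hω h1 (List.perm_append_singleton z₂ l).symm [z₁]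
  simp only [List.singleton_append] at this
  rw [this, ZZ_rec_b ω h]
  simp only [mul_comm _ z₂]

theorem ZO_rec_b' {ω : K} (hω : ω ^ 2 + ω + 1 = 0) (h1 : ω ≠ 1) {z₁ z₂ : K} (h : z₁ * z₂ = ω)
    (l : List K) :
    ZO ω (z₁ :: z₂ :: l) =
      (1 + ω ^ 2 * z₁) * (1 + ω ^ 2 * z₂) *
      ((ω - 1) * (l.map (fun y => (ω * (z₁ * y) - 1) * (ω * (z₂ * y) - 1))).prod * ZO ω l) := by
  have := ZO_perm hω h1 (List.perm_append_singleton z₂ l).symm [z₁]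
  simp only [List.singleton_append] at this
  rw [this, ZO_rec_b ω h]
  simp only [mul_comm _ z₂]

theorem prod_inv_a (ω : K) (m : ℕ) {z y : K} (hz : z ≠ 0) (hy : y ≠ 0) (Q : List K)
    (hQ : ∀ u ∈ Q, u ≠ 0) :
    (Q.map (fun u => u ^ (m + 2))).prod *
      ((Q.map (fun u => u⁻¹)).map (fun u => (ω * (z⁻¹ * u) - 1) * (ω * (y⁻¹ * u) - 1))).prod *
        (z * y) ^ Q.length =
      (Q.map (fun u => (ω - z * u) * (ω - y * u))).prod * (Q.map (fun u => u ^ m)).prod := by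
  induction Q with
  | nil => simp
  | cons x Q ih =>
    have ih' := ih (fun u hu => hQ u (List.mem_cons_of_mem x hu))
    have hx : x ≠ 0 := hQ x (List.mem_cons_self)
    simp only [List.map_cons, List.prod_cons, List.length_cons]
    have e : x ^ (m + 2) * ((ω * (z⁻¹ * x⁻¹) - 1) * (ω * (y⁻¹ * x⁻¹) - 1)) * (z * y) =
        ((ω - z * x) * (ω - y * x)) * x ^ m := by
      field_simp
      ring
    rw [pow_succ (z * y)]
    linear_combination ((ω - z * x) * (ω - y * x)) * x ^ m * ih' +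
      (Q.map (fun u => u ^ (m + 2))).prod *
      ((Q.map (fun u => u⁻¹)).map (fun u => (ω * (z⁻¹ * u) - 1) * (ω * (y⁻¹ * u) - 1))).prod *
        (z * y) ^ Q.length * e

theorem prod_inv_b (ω : K) (m : ℕ) {z y : K} (hz : z ≠ 0) (hy : y ≠ 0) (Q : List K)
    (hQ : ∀ u ∈ Q, u ≠ 0) :
    (Q.map (fun u => u ^ (m + 2))).prod *
      ((Q.map (fun u => u⁻¹)).map (fun u => (ω - z⁻¹ * u) * (ω - y⁻¹ * u))).prod *
        (z * y) ^ Q.length =
      (Q.map (fun u => (ω * (z * u) - 1) * (ω * (y * u) - 1))).prod *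
        (Q.map (fun u => u ^ m)).prod := by
  induction Q with
  | nil => simp
  | cons x Q ih =>
    have ih' := ih (fun u hu => hQ u (List.mem_cons_of_mem x hu))
    have hx : x ≠ 0 := hQ x (List.mem_cons_self)
    simp only [List.map_cons, List.prod_cons, List.length_cons]
    have e : x ^ (m + 2) * ((ω - z⁻¹ * x⁻¹) * (ω - y⁻¹ * x⁻¹)) * (z * y) =
        ((ω * (z * x) - 1) * (ω * (y * x) - 1)) * x ^ m := by
      field_simp
      ring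
    rw [pow_succ (z * y)]
    linear_combination ((ω * (z * x) - 1) * (ω * (y * x) - 1)) * x ^ m * ih' +
      (Q.map (fun u => u ^ (m + 2))).prod *
      ((Q.map (fun u => u⁻¹)).map (fun u => (ω - z⁻¹ * u) * (ω - y⁻¹ * u))).prod *
        (z * y) ^ Q.length * e

/-- The identity between the odd and the even partition functions. -/
def HI (ω : K) (m : ℕ) (l : List K) : Prop :=
  (ω - 1) * (ZO ω l * (l.map (fun z => z + ω ^ 2)).prod +
    (l.map (fun z => z ^ m)).prod * ZO ω (l.map (fun z => z⁻¹)) *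
      (l.map (fun z => 1 + ω ^ 2 * z)).prod) =
  -ω * ((l.map (fun z => 1 + z)).prod * ZZ ω (l ++ [-1]))

theorem HI_perm {ω : K} (hω : ω ^ 2 + ω + 1 = 0) (h1 : ω ≠ 1) (m : ℕ) (z : K) {l l' : List K}
    (h : l.Perm l') (H : HI ω m (z :: l')) : HI ω m (z :: l) := by
  unfold HI at *
  have e1 := ZO_perm hω h1 h [z]
  have e2 := ZO_perm hω h1 (h.map (fun z => z⁻¹)) [z⁻¹]
  have e3 := ZZ_perm hω h1 (h.append_right [-1]) [z]
  simp only [List.singleton_append] at e1 e2 e3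
  simp only [List.map_cons, List.prod_cons, List.cons_append] at H ⊢
  rw [e1, e2, e3, (h.map (fun z => z + ω ^ 2)).prod_eq, (h.map (fun z => z ^ m)).prod_eq,
    (h.map (fun z => 1 + ω ^ 2 * z)).prod_eq, (h.map (fun z => 1 + z)).prod_eq]
  exact H

theorem HI_step_a {ω : K} (hω : ω ^ 2 + ω + 1 = 0) (h1 : ω ≠ 1) (m : ℕ) {z y : K} (hz : z ≠ 0)
    (hy : y ≠ 0) (h : z * y = ω ^ 2) (Q : List K) (hQ : ∀ u ∈ Q, u ≠ 0) (hm : Q.length = m + 1)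
    (H : HI ω m Q) : HI ω (m + 2) (z :: y :: Q) := by
  unfold HI at *
  have ha : ω * (z * y) = 1 := by rw [h]; linear_combination (ω - 1) * hω
  have hb : z⁻¹ * y⁻¹ = ω := by
    rw [← mul_inv]
    apply inv_eq_of_mul_eq_one_right
    rw [h]
    linear_combination (ω - 1) * hω
  have r1 := ZO_rec_a hω ha Q
  have r2 := ZO_rec_b' hω h1 hb (Q.map (fun z => z⁻¹))
  have r3 := ZZ_rec_a ω ha (Q ++ [-1])
  have hp := prod_inv_a ω m hz hy Q hQ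
  rw [hm] at hp
  simp only [List.map_cons, List.prod_cons, List.cons_append]
  rw [r1, r2, r3]
  simp only [List.map_append, List.map_cons, List.map_nil, List.prod_append, List.prod_cons,
    List.prod_nil]
  set BB := (Q.map (fun u => (ω - z * u) * (ω - y * u))).prod
  set AA := ((Q.map (fun u => u⁻¹)).map (fun u => (ω * (z⁻¹ * u) - 1) * (ω * (y⁻¹ * u) - 1))).prod
  set PM := (Q.map (fun u => u ^ (m + 2))).prod
  set Pm := (Q.map (fun u => u ^ m)).prod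
  set ZQ := ZO ω Q
  set ZQi := ZO ω (Q.map (fun z => z⁻¹))
  set Z1 := ZZ ω (Q ++ [-1])
  set PP := (Q.map (fun z => z + ω ^ 2)).prod
  set PK := (Q.map (fun z => 1 + ω ^ 2 * z)).prod
  set P1 := (Q.map (fun z => 1 + z)).prod
  have ez : z * (1 + ω ^ 2 * z⁻¹) = z + ω ^ 2 := by field_simp
  have ey : y * (1 + ω ^ 2 * y⁻¹) = y + ω ^ 2 := by field_simp
  have e2 : (z ^ (m + 2) * (y ^ (m + 2) * PM)) * ((1 + ω ^ 2 * z⁻¹) * (1 + ω ^ 2 * y⁻¹) *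
      ((ω - 1) * AA * ZQi)) = (z + ω ^ 2) * (y + ω ^ 2) * (ω - 1) * BB * Pm * ZQi := by
    calc _ = (z * (1 + ω ^ 2 * z⁻¹)) * (y * (1 + ω ^ 2 * y⁻¹)) * (ω - 1) *
          (PM * AA * (z * y) ^ (m + 1)) * ZQi := by ring
      _ = _ := by rw [ez, ey, hp]; ring
  rw [e2]
  have hs : (1 + ω ^ 2 * z) * (1 + ω ^ 2 * y) * ((z + ω ^ 2) * (y + ω ^ 2)) =
      (1 + z) * (1 + y) * ((ω + z) * (ω + y)) := by
    linear_combination (ω^8 + ω^6*z + ω^6*y + ω^6 + ω^4*z*y + (2)*ω^4 + ω^2*z + ω^2*y + (-2)*ω^2 + (-1)*ω*z + (-1)*ω*y + (-2)*ω + (-1)*z*y + (-1)*z + (-1)*y) * h + (ω^8 + (-1)*ω^7 + ω^6*z + ω^6*y + ω^6 + (-1)*ω^5*z + (-1)*ω^5*y + ω^4*z + ω^4*y + ω^4 + (-1)*ω^3 + ω^2*z^2 + ω^2*y^2 + (-1)*ω^2 + (-1)*ω*z^2 + (-1)*ω*z + (-1)*ω*y^2 + (-1)*ω*y) * hω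
  linear_combination ((1 + ω ^ 2 * z) * (1 + ω ^ 2 * y) * ((z + ω ^ 2) * (y + ω ^ 2)) *
    (ω - 1) * BB) * H + (-ω * (ω - 1) * BB * P1 * Z1) * hs

theorem HI_step_b {ω : K} (hω : ω ^ 2 + ω + 1 = 0) (h1 : ω ≠ 1) (m : ℕ) {z y : K} (hz : z ≠ 0)
    (hy : y ≠ 0) (h : z * y = ω) (Q : List K) (hQ : ∀ u ∈ Q, u ≠ 0) (hm : Q.length = m + 1)
    (H : HI ω m Q) : HI ω (m + 2) (z :: y :: Q) := by
  unfold HI at *
  have hb : ω * (z⁻¹ * y⁻¹) = 1 := by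
    rw [← mul_inv, h]
    have : ω ≠ 0 := by rw [← h]; exact mul_ne_zero hz hy
    field_simp
  have r1 := ZO_rec_b' hω h1 h Q
  have r2 := ZO_rec_a hω hb (Q.map (fun z => z⁻¹))
  have r3 := ZZ_rec_b' hω h1 h (Q ++ [-1])
  have hp := prod_inv_b ω m hz hy Q hQ
  rw [hm] at hp
  simp only [List.map_cons, List.prod_cons, List.cons_append]
  rw [r1, r2, r3]
  simp only [List.map_append, List.map_cons, List.map_nil, List.prod_append, List.prod_cons,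
    List.prod_nil]
  set BB := (Q.map (fun u => (ω * (z * u) - 1) * (ω * (y * u) - 1))).prod
  set AA := ((Q.map (fun u => u⁻¹)).map (fun u => (ω - z⁻¹ * u) * (ω - y⁻¹ * u))).prod
  set PM := (Q.map (fun u => u ^ (m + 2))).prod
  set Pm := (Q.map (fun u => u ^ m)).prod
  set ZQ := ZO ω Q
  set ZQi := ZO ω (Q.map (fun z => z⁻¹))
  set Z1 := ZZ ω (Q ++ [-1])
  set PP := (Q.map (fun z => z + ω ^ 2)).prod
  set PK := (Q.map (fun z => 1 + ω ^ 2 * z)).prod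
  set P1 := (Q.map (fun z => 1 + z)).prod
  have ez : z * (1 + ω ^ 2 * z⁻¹) = z + ω ^ 2 := by field_simp
  have ey : y * (1 + ω ^ 2 * y⁻¹) = y + ω ^ 2 := by field_simp
  have e2 : (z ^ (m + 2) * (y ^ (m + 2) * PM)) * ((1 + ω ^ 2 * z⁻¹) * (1 + ω ^ 2 * y⁻¹) *
      ((ω - 1) * AA * ZQi)) = (z + ω ^ 2) * (y + ω ^ 2) * (ω - 1) * BB * Pm * ZQi := by
    calc _ = (z * (1 + ω ^ 2 * z⁻¹)) * (y * (1 + ω ^ 2 * y⁻¹)) * (ω - 1) *
          (PM * AA * (z * y) ^ (m + 1)) * ZQi := by ring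
      _ = _ := by rw [ez, ey, hp]; ring
  rw [e2]
  have hs : (1 + ω ^ 2 * z) * (1 + ω ^ 2 * y) * ((z + ω ^ 2) * (y + ω ^ 2)) =
      (1 + z) * (1 + y) * ((1 + ω * z) * (1 + ω * y)) := by
    linear_combination (ω^8 + ω^6*z + ω^6*y + ω^5 + ω^4*z*y + (2)*ω^4 + (-1)*ω^3 + (-1)*ω^2*z*y + (-1)*ω^2 + (-1)*ω*z + (-1)*ω*y + (-2)*ω) * h + (ω^7 + (-1)*ω^6 + ω^5*z + ω^5*y + (2)*ω^4 + (-1)*ω^3*z + (-1)*ω^3*y + ω^2*z^2 + ω^2*z + ω^2*y^2 + ω^2*y + (-2)*ω^2 + (-1)*ω*z^2 + (-1)*ω*y^2 + ω + (-1)*z + (-1)*y + (-1)) * hω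
  linear_combination ((1 + ω ^ 2 * z) * (1 + ω ^ 2 * y) * ((z + ω ^ 2) * (y + ω ^ 2)) *
    (ω - 1) * BB) * H + (-ω * (ω - 1) * BB * P1 * Z1) * hs

end field

end Pool.Agent.Helper42.OS
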