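import Pool.Agent.Helper42.OS.Eval

set_option autoImplicit false

namespace Pool.Agent.Helper42.OS

open Matrix Finset Filter Topology

/-- The product over pairs. -/
noncomputable def QQ {M : ℕ} (b : Fin M → ℕ) (s : ℂ) : ℂ :=
  ∏ i : Fin M, ∏ j ∈ Ioi i, (qn (b j + b i) s * qn (b j - b i) s)

theorem aa_lt {i j : ℕ} (h : i < j) : aa i < aa j := by
  unfold aa; omega

theorem eq_s {ω : ℂ} (hω : ω ^ 2 + ω + 1 = 0) (N : ℕ) (s : ℝ) (hs : 1 < s) :
    ZZ ω (List.ofFn (Fin.cons (-1) (fun i : Fin (2 * N + 1) => (s : ℂ) ^ (2 * (i.val + 1))) :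
      Fin (2 * N + 1 + 1) → ℂ)) * (∏ i : Fin (2 * N + 1), (AA ((s : ℂ) ^ (2 * (i.val + 1))) + 2)) *
      QQ (fun i : Fin (2 * N + 1) => i.val + 1) s *
      (∏ i : Fin (2 * N + 1), qn (2 * (i.val + 1)) s) =
    Cc ω N * ((-1) ^ N * ∏ i : Fin (2 * N + 1), ((s : ℂ) ^ (2 * (i.val + 1))) ^ N) *
      ∑ j : Fin (2 * N + 1 + 1), (-1) ^ (j : ℕ) * sq (aa j) (-2) *
        ((∏ k : Fin (2 * N + 1), qn (2 * aa (j.succAbove k)) s) *
          QQ (fun k : Fin (2 * N + 1) => aa (j.succAbove k)) s) := by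
  have hs0 : (s : ℂ) ≠ 0 := by exact_mod_cast (by linarith : (0:ℝ) < s).ne'
  have hs1 : (s : ℂ) - (s : ℂ)⁻¹ ≠ 0 := by
    intro h
    have h2 : (s : ℂ) * s = 1 := by
      field_simp at h
      linear_combination h
    have h3 : s * s = 1 := by exact_mod_cast h2
    nlinarith
  have h := CH_gen hω N (-1) (by norm_num) (fun i : Fin (2 * N + 1) => s ^ (2 * (i.val + 1)))
    (by
      intro a b hab
      simp only at hab
      have := (pow_right_injective₀ (by linarith : (0:ℝ) < s) hs.ne') hab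
      exact Fin.ext (by simpa using this))
    (fun i => one_lt_pow₀ hs (by omega))
  unfold CH at h
  have e0 : (Fin.cons (-1) (fun i : Fin (2 * N + 1) => ((s ^ (2 * (i.val + 1)) : ℝ) : ℂ)) :
      Fin (2 * N + 1 + 1) → ℂ) = (Fin.cons (-1) (fun i : Fin (2 * N + 1) =>
      (s : ℂ) ^ (2 * (i.val + 1))) : Fin (2 * N + 1 + 1) → ℂ) := by
    congr 1
    funext i
    push_cast
    rfl
  rw [e0] at h
  set z : Fin (2 * N + 1 + 1) → ℂ := (Fin.cons (-1) (fun i : Fin (2 * N + 1) =>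
      (s : ℂ) ^ (2 * (i.val + 1))) : Fin (2 * N + 1 + 1) → ℂ) with hz
  change ZZ ω (List.ofFn z) * (vandermonde (fun i : Fin (2 * N + 1 + 1) => AA (z i))).det =
    Cc ω N * (∏ i : Fin (2 * N + 1 + 1), z i ^ N) *
      (MM (fun i : Fin (2 * N + 1 + 1) => AA (z i))).det at h
  have hA : AA (-1) = -2 := by unfold AA; norm_num
  have ez : (fun i : Fin (2 * N + 1 + 1) => AA (z i)) = (Fin.cons (-2)
      (fun i : Fin (2 * N + 1) => AA ((s : ℂ) ^ (2 * (i.val + 1)))) :
      Fin (2 * N + 1 + 1) → ℂ) := by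
    funext i
    refine Fin.cases ?_ (fun i => ?_) i
    · simp [hz, hA]
    · simp [hz]
  have ev : (vandermonde (fun i : Fin (2 * N + 1 + 1) => AA (z i))).det =
      (∏ i : Fin (2 * N + 1), (AA ((s : ℂ) ^ (2 * (i.val + 1))) + 2)) *
      ((∏ i : Fin (2 * N + 1), ∏ _j ∈ Ioi i, ((s : ℂ) - (s : ℂ)⁻¹) ^ 2) *
        QQ (fun i : Fin (2 * N + 1) => i.val + 1) s) := by
    rw [ez, vdm_det_cons]
    have := vdm_qn (fun i : Fin (2 * N + 1) => i.val + 1) (fun a b hab => by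
      have : a.val < b.val := hab
      simpa using this) (s : ℂ) hs0
    rw [this]
    simp only [sub_neg_eq_add]
    rfl
  have ep : (∏ i : Fin (2 * N + 1 + 1), z i ^ N) =
      (-1) ^ N * ∏ i : Fin (2 * N + 1), ((s : ℂ) ^ (2 * (i.val + 1))) ^ N := by
    rw [Fin.prod_univ_succ]
    simp only [hz, Fin.cons_zero, Fin.cons_succ]
  have em : (∏ i : Fin (2 * N + 1), qn (2 * (i.val + 1)) s) *
      (MM (fun i : Fin (2 * N + 1 + 1) => AA (z i))).det =
      (∏ i : Fin (2 * N + 1), ∏ _j ∈ Ioi i, ((s : ℂ) - (s : ℂ)⁻¹) ^ 2) *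
      ∑ j : Fin (2 * N + 1 + 1), (-1) ^ (j : ℕ) * sq (aa j) (-2) *
        ((∏ k : Fin (2 * N + 1), qn (2 * aa (j.succAbove k)) s) *
          QQ (fun k : Fin (2 * N + 1) => aa (j.succAbove k)) s) := by
    rw [MM_det_eq, Matrix.det_succ_row_zero, Finset.mul_sum, Finset.mul_sum]
    apply Finset.sum_congr rfl
    intro j _
    have hb : StrictMono (fun k : Fin (2 * N + 1) => aa (j.succAbove k)) := by
      intro a b hab
      exact aa_lt (Fin.strictMono_succAbove j hab)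
    have := minor_qn (fun k : Fin (2 * N + 1) => aa (j.succAbove k)) hb (s : ℂ) hs0 hs1
    have e1 : (Matrix.of fun i j : Fin (2 * N + 1 + 1) => sq (aa j) (AA (z i))) 0 j =
        sq (aa j) (-2) := by
      simp [hz, hA]
    have e2 : ((Matrix.of fun i j : Fin (2 * N + 1 + 1) => sq (aa j) (AA (z i))).submatrix
        Fin.succ j.succAbove) = (Matrix.of fun i k : Fin (2 * N + 1) =>
        sq (aa (j.succAbove k)) (AA ((s : ℂ) ^ (2 * (i.val + 1))))) := by
      ext i k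
      simp [hz]
    rw [e1, e2]
    unfold QQ
    linear_combination ((-1) ^ (j : ℕ) * sq (aa j) (-2)) * this
  rw [ev, ep] at h
  have hD : (∏ i : Fin (2 * N + 1), ∏ _j ∈ Ioi i, ((s : ℂ) - (s : ℂ)⁻¹) ^ 2) ≠ 0 :=
    Finset.prod_ne_zero_iff.mpr (fun i _ => Finset.prod_ne_zero_iff.mpr
      (fun j _ => pow_ne_zero 2 hs1))
  apply mul_left_cancel₀ hD
  linear_combination (∏ i : Fin (2 * N + 1), qn (2 * (i.val + 1)) s) * h +
    (Cc ω N * ((-1) ^ N * ∏ i : Fin (2 * N + 1), ((s : ℂ) ^ (2 * (i.val + 1))) ^ N)) * em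

theorem qn_one (k : ℕ) : qn k 1 = k := by
  unfold qn AA
  rw [inv_one, show (1 : ℂ) + 1 = 2 by norm_num, sq_two]

theorem qn_ca (k : ℕ) : ContinuousAt (fun s : ℝ => qn k (s : ℂ)) 1 := by
  unfold qn
  apply (sq_cont k).continuousAt.comp
  unfold AA
  apply ContinuousAt.add
  · fun_prop
  · apply ContinuousAt.inv₀
    · fun_prop
    · norm_num

theorem QQ_ca {M : ℕ} (b : Fin M → ℕ) : ContinuousAt (fun s : ℝ => QQ b (s : ℂ)) 1 := by
  unfold QQ
  apply tendsto_finsetProd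
  intro i _
  apply tendsto_finsetProd
  intro j _
  exact (qn_ca _).mul (qn_ca _)

theorem eq_one {ω : ℂ} (hω : ω ^ 2 + ω + 1 = 0) (N : ℕ) :
    ZZ ω (-1 :: List.replicate (2 * N + 1) 1) * 4 ^ (2 * N + 1) *
      QQ (fun i : Fin (2 * N + 1) => i.val + 1) 1 *
      (∏ i : Fin (2 * N + 1), (2 * (i.val + 1) : ℂ)) =
    Cc ω N * (-1) ^ N *
      ∑ j : Fin (2 * N + 1 + 1), (-1) ^ (j : ℕ) * (-(-1) ^ (aa j) * (aa j : ℂ)) *
        ((∏ k : Fin (2 * N + 1), (2 * aa (j.succAbove k) : ℂ)) *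
          QQ (fun k : Fin (2 * N + 1) => aa (j.succAbove k)) 1) := by
  let lhs : ℝ → ℂ := fun s =>
    ZZ ω (List.ofFn (Fin.cons (-1) (fun i : Fin (2 * N + 1) => (s : ℂ) ^ (2 * (i.val + 1))) :
      Fin (2 * N + 1 + 1) → ℂ)) * (∏ i : Fin (2 * N + 1), (AA ((s : ℂ) ^ (2 * (i.val + 1))) + 2)) *
      QQ (fun i : Fin (2 * N + 1) => i.val + 1) s *
      (∏ i : Fin (2 * N + 1), qn (2 * (i.val + 1)) s)
  let rhs : ℝ → ℂ := fun s =>
    Cc ω N * ((-1) ^ N * ∏ i : Fin (2 * N + 1), ((s : ℂ) ^ (2 * (i.val + 1))) ^ N) *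
      ∑ j : Fin (2 * N + 1 + 1), (-1) ^ (j : ℕ) * sq (aa j) (-2) *
        ((∏ k : Fin (2 * N + 1), qn (2 * aa (j.succAbove k)) s) *
          QQ (fun k : Fin (2 * N + 1) => aa (j.succAbove k)) s)
  have c1 : ContinuousAt lhs 1 := by
    let G : List (ℝ → ℂ) := List.ofFn (Fin.cons (fun _ => -1) (fun i : Fin (2 * N + 1) =>
      fun s : ℝ => (s : ℂ) ^ (2 * (i.val + 1))) : Fin (2 * N + 1 + 1) → (ℝ → ℂ))
    have hG : ∀ g ∈ G, ContinuousAt g 1 := by
      intro g hg
      rw [List.mem_ofFn] at hg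
      obtain ⟨i, rfl⟩ := hg
      refine Fin.cases ?_ (fun i => ?_) i
      · exact continuousAt_const
      · simp only [Fin.cons_succ]
        fun_prop
    have hGe : ∀ s : ℝ, G.map (fun g => g s) = List.ofFn (Fin.cons (-1) (fun i : Fin (2 * N + 1) =>
        (s : ℂ) ^ (2 * (i.val + 1))) : Fin (2 * N + 1 + 1) → ℂ) := by
      intro s
      simp only [G, List.map_ofFn]
      congr 1
      funext i
      refine Fin.cases ?_ (fun i => ?_) i
      · rfl
      · rfl
    have a1 := ca_ZZ ω G hG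
    simp only [hGe] at a1
    have a2 : ContinuousAt (fun s : ℝ => ∏ i : Fin (2 * N + 1),
        (AA ((s : ℂ) ^ (2 * (i.val + 1))) + 2)) 1 := by
      apply tendsto_finsetProd
      intro i _
      have : ContinuousAt (fun s : ℝ => AA ((s : ℂ) ^ (2 * (i.val + 1))) + 2) 1 := by
        unfold AA
        apply ContinuousAt.add
        · apply ContinuousAt.add
          · fun_prop
          · apply ContinuousAt.inv₀
            · fun_prop
            · norm_num
        · exact continuousAt_const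
      exact this
    have a3 := QQ_ca (fun i : Fin (2 * N + 1) => i.val + 1)
    have a4 : ContinuousAt (fun s : ℝ => ∏ i : Fin (2 * N + 1), qn (2 * (i.val + 1)) (s : ℂ)) 1 := by
      apply tendsto_finsetProd
      intro i _
      exact qn_ca _
    exact ((a1.mul a2).mul a3).mul a4
  have c2 : ContinuousAt rhs 1 := by
    have a1 : ContinuousAt (fun s : ℝ => Cc ω N * ((-1) ^ N * ∏ i : Fin (2 * N + 1),
        ((s : ℂ) ^ (2 * (i.val + 1))) ^ N)) 1 := by
      fun_prop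
    have a2 : ContinuousAt (fun s : ℝ => ∑ j : Fin (2 * N + 1 + 1), (-1) ^ (j : ℕ) *
        sq (aa j) (-2) * ((∏ k : Fin (2 * N + 1), qn (2 * aa (j.succAbove k)) (s : ℂ)) *
          QQ (fun k : Fin (2 * N + 1) => aa (j.succAbove k)) (s : ℂ))) 1 := by
      apply tendsto_finsetSum
      intro j _
      have b1 : ContinuousAt (fun s : ℝ => ∏ k : Fin (2 * N + 1),
          qn (2 * aa (j.succAbove k)) (s : ℂ)) 1 := by
        apply tendsto_finsetProd
        intro i _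
        exact qn_ca _
      exact continuousAt_const.mul (b1.mul (QQ_ca _))
    exact a1.mul a2
  have hlim : lhs 1 = rhs 1 := by
    have t1 : Tendsto lhs (𝓝[>] 1) (𝓝 (lhs 1)) := c1.tendsto.mono_left nhdsWithin_le_nhds
    have t2 : Tendsto rhs (𝓝[>] 1) (𝓝 (rhs 1)) := c2.tendsto.mono_left nhdsWithin_le_nhds
    have t3 : Tendsto lhs (𝓝[>] 1) (𝓝 (rhs 1)) := by
      refine t2.congr' ?_
      filter_upwards [self_mem_nhdsWithin] with t ht
      exact (eq_s hω N t ht).symm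
    exact tendsto_nhds_unique t1 t3
  simp only [lhs, rhs, Complex.ofReal_one, one_pow, Finset.prod_const_one, mul_one] at hlim
  have e1 : List.ofFn (Fin.cons (-1) (fun _ : Fin (2 * N + 1) => 1) :
      Fin (2 * N + 1 + 1) → ℂ) = -1 :: List.replicate (2 * N + 1) 1 := by
    rw [List.ofFn_cons]
    congr 1
    exact List.ofFn_const _ _
  have e2 : (∏ i : Fin (2 * N + 1), (AA (1 : ℂ) + 2)) = 4 ^ (2 * N + 1) := by
    rw [Finset.prod_const, Finset.card_univ, Fintype.card_fin]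
    congr 1
    unfold AA
    norm_num
  rw [e1, e2] at hlim
  simp only [qn_one, sq_neg_two] at hlim
  push_cast at hlim
  rw [hlim]

end Pool.Agent.Helper42.OS
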