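import Pool.Agent.Helper42.OS.Ratio
import Pool.Agent.Helper42.OS.Count2

set_option autoImplicit false

namespace Pool.Agent.Helper42.OS

open Finset

theorem exists_om : ∃ ω : ℂ, ω ^ 2 + ω + 1 = 0 := by
  obtain ⟨s, hs⟩ := IsAlgClosed.exists_eq_mul_self (discrim (1 : ℂ) 1 1)
  obtain ⟨x, hx⟩ := exists_quadratic_eq_zero (one_ne_zero) ⟨s, hs⟩
  exact ⟨x, by linear_combination hx⟩

theorem Cc_eq (ω : ℂ) (n : ℕ) : Cc ω n = (ω - 1) ^ (n + 1) * ω ^ (n * (n + 1)) := by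
  induction n with
  | zero => simp [Cc]
  | succ n ih =>
    rw [Cc, ih, show (n + 1) * (n + 1 + 1) = n * (n + 1) + (2 * n + 2) by ring, pow_add ω]
    ring

theorem ee_eq (n : ℕ) : ee (2 * n + 1) = n * (2 * n + 1) := by
  induction n with
  | zero => rfl
  | succ n ih =>
    rw [show 2 * (n + 1) + 1 = 2 * n + 1 + 1 + 1 by ring, ee, ee, ih]
    ring

theorem parity {n : ℕ} (A : Matrix (Fin (2 * n + 1)) (Fin (2 * n + 1)) ℤ)
    (h1 : ∀ i, ∑ j, A i j = 1) (h2 : ∀ i j, A i j = A j i) (h3 : ∀ i, A i i = 0) : False := by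
  have e1 : ∑ p : Fin (2 * n + 1) × Fin (2 * n + 1), ((A p.1 p.2 : ℤ) : ZMod 2) = 0 := by
    apply Finset.sum_involution (fun p _ => p.swap)
    · intro p _
      simp only [Prod.fst_swap, Prod.snd_swap]
      rw [h2 p.2 p.1]
      exact CharTwo.add_self_eq_zero _
    · intro p _ hp hp'
      apply hp
      have : p.1 = p.2 := by
        have := congrArg Prod.snd hp'
        simpa using this
      rw [this, h3]
      simp
    · intro p _
      exact Prod.swap_swap p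
    · intro p _
      exact Finset.mem_univ _
  rw [Fintype.sum_prod_type] at e1
  have e2 : ∀ i : Fin (2 * n + 1), ∑ j, ((A i j : ℤ) : ZMod 2) = 1 := by
    intro i
    have := congrArg (fun x : ℤ => (x : ZMod 2)) (h1 i)
    push_cast at this
    exact this
  simp only [e2, Finset.sum_const, Finset.card_univ, Fintype.card_fin, nsmul_eq_mul, mul_one] at e1
  have e3 : ((2 * n + 1 : ℕ) : ZMod 2) = 1 := by
    push_cast
    have : (2 : ZMod 2) = 0 := rfl
    rw [this]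
    ring
  rw [e3] at e1
  exact one_ne_zero e1

/-- The number of matrices. -/
theorem count_eq (n : ℕ) (hn : 1 ≤ n) :
    ((Nat.card {A : Matrix (Fin (2 * n + 1)) (Fin (2 * n + 1)) ℤ // GG (fun _ => false) A ∧
        ∃ d, A d d ≠ 0 ∧ ∀ i, i ≠ d → A i i = 0} : ℕ) : ℚ) = FF n := by
  obtain ⟨ω, hω⟩ := exists_om
  have h0 := om_ne_zero hω
  have h1 := om_ne_one hω
  have h1' : ω - 1 ≠ 0 := sub_ne_zero.mpr h1
  have hcube : ω ^ 3 = 1 := by linear_combination (ω - 1) * hω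
  set c := Nat.card {A : Matrix (Fin (2 * n + 1)) (Fin (2 * n + 1)) ℤ // GG (fun _ => false) A ∧
        ∃ d, A d d ≠ 0 ∧ ∀ i, i ≠ d → A i i = 0} with hc
  have a1 := Zo_one ω hω (2 * n + 1) (fun _ => false)
  rw [← hc, ee_eq] at a1
  have a2 : Zo ω (2 * n + 1) (List.ofFn (fun _ : Fin (2 * n + 1) => ((1 : ℂ), false))) =
      ZO ω (List.replicate (2 * n + 1) 1) := by
    unfold ZO fl
    rw [List.length_replicate, List.map_replicate, List.ofFn_const]
  rw [a2] at a1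
  have a3 := ZO_one hω n
  have a4 : ZZ ω (List.replicate (2 * n + 1) 1 ++ [-1]) =
      ZZ ω (-1 :: List.replicate (2 * n + 1) 1) :=
    ZZ_perm hω h1 (List.perm_append_singleton (-1) (List.replicate (2 * n + 1) (1 : ℂ))) []
  rw [a4] at a3
  have a5 := ZZ_val hω n
  have a6 : (∏ k ∈ range (2 * n + 2), (aa k : ℂ)) *
      VR (fun i => (aa i : ℂ) ^ 2) (2 * n + 2) * SS n = RR n := TS_eq n
  have a7 := FF_eq n hn
  rw [a6, ← a7, Cc_eq] at a5
  set W := ZZ ω (-1 :: List.replicate (2 * n + 1) 1)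
  set X := ZO ω (List.replicate (2 * n + 1) 1)
  set P := ∏ j ∈ range (2 * n + 1), ((2 * j + 1).factorial : ℂ) with hP
  have hPne : P ≠ 0 := Finset.prod_ne_zero_iff.mpr
    (fun i _ => by exact_mod_cast Nat.factorial_ne_zero _)
  have hno : -ω ≠ 0 := neg_ne_zero.mpr h0
  -- X
  have b1 : X = (ω - 1) ^ (n * (2 * n + 1)) * ω ^ (2 * n) * c := by
    apply mul_left_cancel₀ hno
    rw [a1, pow_succ (-ω), pow_mul (-ω) 2 n, neg_pow ω 2, pow_mul ω 2 n]
    ring
  have b2 : (ω - 1) ^ (n * (2 * n + 1) + 1) * ω ^ (4 * n) * c = 4 ^ n * W := by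
    have hne : (-2 : ℂ) * ω ≠ 0 := mul_ne_zero (by norm_num) h0
    apply mul_left_cancel₀ hne
    rw [b1] at a3
    have e1 : (-ω) ^ (2 * n + 1) = -ω * ω ^ (2 * n) := by
      rw [pow_succ, pow_mul, neg_pow ω 2, pow_mul ω 2 n]; ring
    have e2 : (2 : ℂ) ^ (2 * n + 1) = 2 * 4 ^ n := by
      rw [pow_succ, pow_mul]; norm_num; ring
    rw [e1, e2] at a3
    have e3 : ω ^ (4 * n) = ω ^ (2 * n) * ω ^ (2 * n) := by rw [← pow_add]; congr 1; ring
    rw [e3, pow_succ (ω - 1) (n * (2 * n + 1))]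
    linear_combination a3
  have b3 : (ω - 1) ^ (2 * (n * n)) = (-1) ^ n * 3 ^ (n ^ 2) * ω ^ (n * n) := by
    have e1 : (ω - 1) ^ 2 = (-1) * 3 * ω := by linear_combination hω
    rw [pow_mul, e1, mul_pow, mul_pow, pow_two n]
    congr 2
    rw [neg_one_pow_eq_pow_mod_two, neg_one_pow_eq_pow_mod_two (n := n)]
    congr 1
    rcases Nat.mod_two_eq_zero_or_one n with h | h <;> simp [Nat.mul_mod, h]
  have b4 : ω ^ (4 * n) = ω ^ n := by
    rw [show 4 * n = 3 * n + n by ring, pow_add, pow_mul ω 3 n, hcube, one_pow, one_mul]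
  have b5 : (c : ℂ) = ((FF n : ℚ) : ℂ) := by
    have hne : (ω - 1) ^ (n + 1) * 4 ^ (2 * n + 1) * P * ((-1) ^ n * 3 ^ (n ^ 2) *
        ω ^ (n * n) * ω ^ n) ≠ 0 := by
      refine mul_ne_zero (mul_ne_zero (mul_ne_zero (pow_ne_zero _ h1') (pow_ne_zero _
        (by norm_num))) hPne) (mul_ne_zero (mul_ne_zero (mul_ne_zero (pow_ne_zero _
        (by norm_num)) (pow_ne_zero _ (by norm_num))) (pow_ne_zero _ h0)) (pow_ne_zero _ h0))
    apply mul_left_cancel₀ hne
    have e1 : (ω - 1) ^ (n * (2 * n + 1) + 1) = (ω - 1) ^ (n + 1) * (ω - 1) ^ (2 * (n * n)) := by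
      rw [← pow_add]; congr 1; ring
    rw [e1, b3, b4] at b2
    have e2 : ω ^ (n * (n + 1)) = ω ^ (n * n) * ω ^ n := by rw [← pow_add]; congr 1
    rw [e2] at a5
    have e3 : (4 : ℂ) ^ (2 * n + 1) = 4 ^ n * 4 ^ (n + 1) := by rw [← pow_add]; congr 1; ring
    rw [e3] at a5 ⊢
    linear_combination (4 ^ n * 4 ^ (n + 1) * P) * b2 + 4 ^ n * a5
  exact_mod_cast b5

theorem main (n : ℕ) (hn : 1 ≤ n) :
      ((Nat.card {A : Matrix (Fin (2 * n + 1)) (Fin (2 * n + 1)) ℤ //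
          (∀ i j, A i j = -1 ∨ A i j = 0 ∨ A i j = 1) ∧
          (∀ i k, (∑ j ∈ Finset.Iic k, A i j) = 0 ∨ (∑ j ∈ Finset.Iic k, A i j) = 1) ∧
          (∀ i, (∑ j, A i j) = 1) ∧
          (∀ j k, (∑ i ∈ Finset.Iic k, A i j) = 0 ∨ (∑ i ∈ Finset.Iic k, A i j) = 1) ∧
          (∀ j, (∑ i, A i j) = 1) ∧
          (∀ i j, A i j = A j i) ∧
          (∃ d : Fin (2 * n + 1), ∀ i, i ≠ d → A i i = 0)} : ℕ) : ℚ)
        = (2 : ℚ) ^ (n - 1) * ((Nat.factorial (3 * n + 2) : ℕ) : ℚ)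
            / ((Nat.factorial (2 * n + 1) : ℕ) : ℚ)
          * ∏ i ∈ Finset.Icc 1 n,
              (((Nat.factorial (6 * i - 2) : ℕ) : ℚ)
                / ((Nat.factorial (2 * n + 2 * i + 1) : ℕ) : ℚ)) := by
  have h : ∀ A : Matrix (Fin (2 * n + 1)) (Fin (2 * n + 1)) ℤ,
      ((∀ i j, A i j = -1 ∨ A i j = 0 ∨ A i j = 1) ∧
          (∀ i k, (∑ j ∈ Finset.Iic k, A i j) = 0 ∨ (∑ j ∈ Finset.Iic k, A i j) = 1) ∧
          (∀ i, (∑ j, A i j) = 1) ∧
          (∀ j k, (∑ i ∈ Finset.Iic k, A i j) = 0 ∨ (∑ i ∈ Finset.Iic k, A i j) = 1) ∧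
          (∀ j, (∑ i, A i j) = 1) ∧
          (∀ i j, A i j = A j i) ∧
          (∃ d : Fin (2 * n + 1), ∀ i, i ≠ d → A i i = 0)) ↔
      (GG (fun _ => false) A ∧ ∃ d, A d d ≠ 0 ∧ ∀ i, i ≠ d → A i i = 0) := by
    intro A
    constructor
    · rintro ⟨h1, h2, h3, _, _, h6, d, h7⟩
      refine ⟨⟨h1, ?_, h6⟩, d, ?_, h7⟩
      · intro i
        refine ⟨?_, ?_⟩
        · intro k
          simpa [bz] using h2 i k
        · simpa [bz] using h3 i
      · intro hd
        apply parity A h3 h6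
        intro i
        by_cases hi : i = d
        · rw [hi, hd]
        · exact h7 i hi
    · rintro ⟨⟨h1, h2, h3⟩, d, _, h5⟩
      have r1 : ∀ i k, (∑ j ∈ Finset.Iic k, A i j) = 0 ∨ (∑ j ∈ Finset.Iic k, A i j) = 1 := by
        intro i k
        simpa [bz] using (h2 i).1 k
      have r2 : ∀ i, (∑ j, A i j) = 1 := by
        intro i
        simpa [bz] using (h2 i).2
      refine ⟨h1, r1, r2, ?_, ?_, h3, d, h5⟩
      · intro j k
        have : ∑ i ∈ Finset.Iic k, A i j = ∑ i ∈ Finset.Iic k, A j i :=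
          Finset.sum_congr rfl (fun i _ => h3 i j)
        rw [this]
        exact r1 j k
      · intro j
        have : ∑ i, A i j = ∑ i, A j i := Finset.sum_congr rfl (fun i _ => h3 i j)
        rw [this]
        exact r2 j
  rw [Nat.card_congr (Equiv.subtypeEquivRight h)]
  exact count_eq n hn

end Pool.Agent.Helper42.OS
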