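import Pool.Agent.Helper42.OS.Lim

set_option autoImplicit false

namespace Pool.Agent.Helper42.OS

open Matrix Finset

theorem QQ_eq {m : ℕ} (b : Fin m → ℕ) (hb : StrictMono b) :
    QQ b 1 = (vandermonde (fun k => (b k : ℂ) ^ 2)).det := by
  rw [det_vandermonde]
  unfold QQ
  apply Finset.prod_congr rfl
  intro i _
  apply Finset.prod_congr rfl
  intro j hj
  rw [Finset.mem_Ioi] at hj
  rw [qn_one, qn_one, Nat.cast_sub (hb hj).le]
  push_cast
  ring

theorem vdm_succAbove {m : ℕ} (x : Fin (m + 1) → ℂ) (j : Fin (m + 1)) :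
    (∏ k : Fin m, (x (j.succAbove k) - x j)) *
      (vandermonde (fun k => x (j.succAbove k))).det = (-1) ^ (j : ℕ) * (vandermonde x).det := by
  rw [← vdm_det_cons]
  have e : (Fin.cons (x j) (fun k => x (j.succAbove k)) : Fin (m + 1) → ℂ) =
      fun i => x (j.cycleRange.symm i) := by
    funext i
    refine Fin.cases ?_ (fun i => ?_) i
    · simp
    · simp
  rw [e]
  have : (vandermonde (fun i => x (j.cycleRange.symm i))).det =
      (Equiv.Perm.sign j.cycleRange.symm : ℂ) * (vandermonde x).det := by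
    rw [← Matrix.det_permute]
    rfl
  rw [this, Equiv.Perm.sign_symm, Fin.sign_cycleRange]
  push_cast
  rfl

theorem prod_pairs {R : Type} [CommRing R] (m : ℕ) (f : ℕ → ℕ → R) :
    ∏ i : Fin m, ∏ j ∈ Ioi i, f i.val j.val = ∏ j ∈ range m, ∏ i ∈ range j, f i j := by
  have h1 : ∀ i : Fin m, ∏ j ∈ Ioi i, f i.val j.val = ∏ j ∈ Ioo i.val m, f i.val j := by
    intro i
    rw [← Fin.map_valEmbedding_Ioi, Finset.prod_map]
    rfl
  simp only [h1]
  rw [Fin.prod_univ_eq_prod_range (fun i => ∏ j ∈ Ioo i m, f i j) m]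
  clear h1
  induction m with
  | zero => simp
  | succ m ih =>
    rw [Finset.prod_range_succ, Finset.prod_range_succ (fun j => ∏ i ∈ range j, f i j)]
    have e1 : Ioo m (m + 1) = ∅ := by
      ext x
      simp only [Finset.mem_Ioo, Finset.notMem_empty, iff_false]
      omega
    have e2 : ∀ i ∈ range m, ∏ j ∈ Ioo i (m + 1), f i j = (∏ j ∈ Ioo i m, f i j) * f i m := by
      intro i hi
      rw [Finset.mem_range] at hi
      have : Ioo i (m + 1) = insert m (Ioo i m) := by ext x; simp; omega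
      rw [this, Finset.prod_insert (by simp), mul_comm]
    rw [e1, Finset.prod_empty, mul_one, Finset.prod_congr rfl e2, Finset.prod_mul_distrib]
    congr 1

/-- The product of differences. -/
def VR (x : ℕ → ℂ) (m : ℕ) : ℂ := ∏ j ∈ range m, ∏ i ∈ range j, (x j - x i)

theorem vdm_VR (x : ℕ → ℂ) (m : ℕ) : (vandermonde (fun i : Fin m => x i)).det = VR x m := by
  rw [det_vandermonde]
  exact prod_pairs m (fun i j => x j - x i)

theorem fact_aux (j : ℕ) : (j + 1) * ∏ i ∈ range j, ((j + 2 + i) * (j - i)) = (2 * j + 1).factorial := by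
  rw [Finset.prod_mul_distrib, ← Nat.ascFactorial_eq_prod_range, ← Nat.descFactorial_eq_prod_range,
    Nat.descFactorial_self]
  have := Nat.factorial_mul_ascFactorial (j + 1) j
  rw [show j + 1 + j = 2 * j + 1 by ring, show j + 1 + 1 = j + 2 by ring, Nat.factorial_succ] at this
  rw [← this]
  ring

theorem fact_prod (M : ℕ) : VR (fun i => ((i : ℂ) + 1) ^ 2) M * ∏ j ∈ range M, ((j : ℂ) + 1) =
    ∏ j ∈ range M, ((2 * j + 1).factorial : ℂ) := by
  unfold VR
  rw [← Finset.prod_mul_distrib]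
  apply Finset.prod_congr rfl
  intro j _
  rw [← fact_aux]
  push_cast
  rw [mul_comm]
  congr 1
  apply Finset.prod_congr rfl
  intro i hi
  rw [Finset.mem_range] at hi
  rw [Nat.cast_sub hi.le]
  ring

/-- The divided difference. -/
noncomputable def SS (n : ℕ) : ℂ :=
  ∑ j : Fin (2 * n + 1 + 1), (-1) ^ (aa j) /
    ∏ k : Fin (2 * n + 1), ((aa j : ℂ) ^ 2 - (aa (j.succAbove k) : ℂ) ^ 2)

theorem aa_sq_ne {i j : ℕ} (h : i ≠ j) : (aa i : ℂ) ^ 2 - (aa j : ℂ) ^ 2 ≠ 0 := by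
  intro h0
  have h1 : (aa i : ℂ) ^ 2 = (aa j : ℂ) ^ 2 := sub_eq_zero.mp h0
  have h2 : (aa i) ^ 2 = (aa j) ^ 2 := by exact_mod_cast h1
  have h3 : aa i = aa j := by
    exact Nat.pow_left_injective (by norm_num : 2 ≠ 0) h2
  rcases lt_or_gt_of_ne h with h | h
  · exact absurd h3 (aa_lt h).ne
  · exact absurd h3 (aa_lt h).ne'

theorem ZZ_val {ω : ℂ} (hω : ω ^ 2 + ω + 1 = 0) (N : ℕ) :
    ZZ ω (-1 :: List.replicate (2 * N + 1) 1) * 4 ^ (2 * N + 1) *
      ∏ j ∈ range (2 * N + 1), ((2 * j + 1).factorial : ℂ) =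
    Cc ω N * (-1) ^ N * ((∏ k ∈ range (2 * N + 2), (aa k : ℂ)) *
      VR (fun i => (aa i : ℂ) ^ 2) (2 * N + 2) * SS N) := by
  have h := eq_one hω N
  have e1 : QQ (fun i : Fin (2 * N + 1) => i.val + 1) 1 =
      VR (fun i => ((i : ℂ) + 1) ^ 2) (2 * N + 1) := by
    rw [QQ_eq _ (fun a b hab => by have : a.val < b.val := hab; simpa using this), ← vdm_VR]
    congr 2
    funext i
    push_cast
    rfl
  have e2 : (∏ i : Fin (2 * N + 1), (2 * (i.val + 1) : ℂ)) =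
      2 ^ (2 * N + 1) * ∏ j ∈ range (2 * N + 1), ((j : ℂ) + 1) := by
    rw [Fin.prod_univ_eq_prod_range (fun j => (2 * ((j : ℂ) + 1))) (2 * N + 1),
      Finset.prod_mul_distrib, Finset.prod_const, Finset.card_range]
  have e3 : ∀ j : Fin (2 * N + 1 + 1), (-1) ^ (j : ℕ) * (-(-1) ^ (aa j) * (aa j : ℂ)) *
        ((∏ k : Fin (2 * N + 1), (2 * aa (j.succAbove k) : ℂ)) *
          QQ (fun k : Fin (2 * N + 1) => aa (j.succAbove k)) 1) =
      2 ^ (2 * N + 1) * ((∏ k ∈ range (2 * N + 2), (aa k : ℂ)) *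
        VR (fun i => (aa i : ℂ) ^ 2) (2 * N + 2)) * ((-1) ^ (aa j) /
    ∏ k : Fin (2 * N + 1), ((aa j : ℂ) ^ 2 - (aa (j.succAbove k) : ℂ) ^ 2)) := by
    intro j
    have f1 : QQ (fun k : Fin (2 * N + 1) => aa (j.succAbove k)) 1 =
        (vandermonde (fun k : Fin (2 * N + 1) => (aa (j.succAbove k) : ℂ) ^ 2)).det :=
      QQ_eq _ (fun a b hab => aa_lt (Fin.strictMono_succAbove j hab))
    have f2 := vdm_succAbove (fun k : Fin (2 * N + 1 + 1) => (aa k : ℂ) ^ 2) j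
    rw [vdm_VR (fun i => (aa i : ℂ) ^ 2)] at f2
    have f3 : (∏ k ∈ range (2 * N + 2), (aa k : ℂ)) =
        (aa j : ℂ) * ∏ k : Fin (2 * N + 1), (aa (j.succAbove k) : ℂ) := by
      rw [← Fin.prod_univ_eq_prod_range (fun k => (aa k : ℂ)) (2 * N + 2)]
      exact Fin.prod_univ_succAbove (fun k : Fin (2 * N + 1 + 1) => (aa k : ℂ)) j
    have f4 : (∏ k : Fin (2 * N + 1), ((aa (j.succAbove k) : ℂ) ^ 2 - (aa j : ℂ) ^ 2)) =
        - ∏ k : Fin (2 * N + 1), ((aa j : ℂ) ^ 2 - (aa (j.succAbove k) : ℂ) ^ 2) := by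
      have : ∀ k : Fin (2 * N + 1), ((aa (j.succAbove k) : ℂ) ^ 2 - (aa j : ℂ) ^ 2) =
          (-1) * ((aa j : ℂ) ^ 2 - (aa (j.succAbove k) : ℂ) ^ 2) := by intro k; ring
      simp only [this]
      rw [Finset.prod_mul_distrib, Finset.prod_const, Finset.card_univ, Fintype.card_fin,
        pow_succ, pow_mul]
      norm_num
    have f5 : (∏ k : Fin (2 * N + 1), ((aa j : ℂ) ^ 2 - (aa (j.succAbove k) : ℂ) ^ 2)) ≠ 0 := by
      apply Finset.prod_ne_zero_iff.mpr
      intro k _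
      apply aa_sq_ne
      intro hh
      exact Fin.succAbove_ne j k (Fin.ext hh.symm)
    have f6 : (∏ k : Fin (2 * N + 1), (2 * aa (j.succAbove k) : ℂ)) =
        2 ^ (2 * N + 1) * ∏ k : Fin (2 * N + 1), (aa (j.succAbove k) : ℂ) := by
      rw [Finset.prod_mul_distrib, Finset.prod_const, Finset.card_univ, Fintype.card_fin]
    rw [f4] at f2
    rw [f1, f3, f6]
    have f7 : ((-1 : ℂ)) ^ (j : ℕ) * (-1) ^ (j : ℕ) = 1 := by
      rw [← mul_pow]; norm_num
    rw [mul_div_assoc', eq_div_iff f5]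
    change _ = 2 ^ (2 * N + 1) * (((aa j : ℂ) * ∏ k : Fin (2 * N + 1), (aa (j.succAbove k) : ℂ)) *
      VR (fun i => (aa i : ℂ) ^ 2) (2 * N + 1 + 1)) * (-1) ^ (aa j)
    linear_combination ((-1) ^ (j : ℕ) * (-1) ^ (aa j) * (aa j : ℂ) * 2 ^ (2 * N + 1) *
      (∏ k : Fin (2 * N + 1), (aa (j.succAbove k) : ℂ))) * f2 +
      ((-1) ^ (aa j) * (aa j : ℂ) * 2 ^ (2 * N + 1) *
      (∏ k : Fin (2 * N + 1), (aa (j.succAbove k) : ℂ)) *
        VR (fun i => (aa i : ℂ) ^ 2) (2 * N + 1 + 1)) * f7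
  rw [e1, e2, Finset.sum_congr rfl (fun j _ => e3 j), ← Finset.mul_sum] at h
  have e4 := fact_prod (2 * N + 1)
  have h2 : (2 : ℂ) ^ (2 * N + 1) ≠ 0 := pow_ne_zero _ (by norm_num)
  apply mul_left_cancel₀ h2
  rw [← e4]
  unfold SS
  linear_combination h

end Pool.Agent.Helper42.OS
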