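import Pool.Agent.Helper42.OS.Ssum

set_option autoImplicit false

namespace Pool.Agent.Helper42.OS

open Finset

/-- The product of the exponents times the product of the differences of their squares. -/
noncomputable def TTn (n : ℕ) : ℂ :=
  (∏ k ∈ range (2 * n + 2), (aa k : ℂ)) * VR (fun i => (aa i : ℂ) ^ 2) (2 * n + 2)

theorem prod_two (m : ℕ) (f : ℕ → ℂ) :
    (∏ i ∈ range m, f (m - 1 - i)) * ∏ i ∈ range m, f (m + i) = ∏ i ∈ range (2 * m), f i := by
  rw [Finset.prod_range_reflect f, two_mul, Finset.prod_range_add]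

theorem prod_pairs2 (m : ℕ) (x : ℂ) : ∏ k ∈ range (2 * m), (x ^ 2 - (aa k : ℂ) ^ 2) =
    ∏ i ∈ range m, ((x ^ 2 - (3 * (i : ℂ) + 1) ^ 2) * (x ^ 2 - (3 * (i : ℂ) + 2) ^ 2)) := by
  induction m with
  | zero => simp
  | succ m ih =>
    rw [show 2 * (m + 1) = 2 * m + 1 + 1 by ring, Finset.prod_range_succ, Finset.prod_range_succ,
      Finset.prod_range_succ, ih]
    have h1 : aa (2 * m) = 3 * m + 1 := by unfold aa; omega
    have h2 : aa (2 * m + 1) = 3 * m + 2 := by unfold aa; omega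
    rw [h1, h2]
    push_cast
    ring

theorem D1_eq (m : ℕ) : ∏ k ∈ range (2 * m), ((3 * (m : ℂ) + 1) ^ 2 - (aa k : ℂ) ^ 2) =
    ∏ i ∈ range (2 * m), ((3 * (i : ℂ) + 2) * (3 * i + 3)) := by
  rw [prod_pairs2, ← prod_two m (fun i => (3 * (i : ℂ) + 2) * (3 * i + 3)),
    ← Finset.prod_mul_distrib]
  apply Finset.prod_congr rfl
  intro i hi
  rw [Finset.mem_range] at hi
  have : ((m - 1 - i : ℕ) : ℂ) = m - 1 - i := by
    rw [Nat.cast_sub (by omega), Nat.cast_sub (by omega)]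
    push_cast
    ring
  rw [this]
  push_cast
  ring

theorem D2_eq (m : ℕ) : ∏ k ∈ range (2 * m), ((3 * (m : ℂ) + 2) ^ 2 - (aa k : ℂ) ^ 2) =
    ∏ i ∈ range (2 * m), ((3 * (i : ℂ) + 3) * (3 * i + 4)) := by
  rw [prod_pairs2, ← prod_two m (fun i => (3 * (i : ℂ) + 3) * (3 * i + 4)),
    ← Finset.prod_mul_distrib]
  apply Finset.prod_congr rfl
  intro i hi
  rw [Finset.mem_range] at hi
  have : ((m - 1 - i : ℕ) : ℂ) = m - 1 - i := by
    rw [Nat.cast_sub (by omega), Nat.cast_sub (by omega)]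
    push_cast
    ring
  rw [this]
  push_cast
  ring

theorem fact3 (m : ℕ) : ∏ i ∈ range m, ((3 * (i : ℂ) + 2) * (3 * i + 3) * (3 * i + 4)) =
    ((3 * m + 1).factorial : ℂ) := by
  induction m with
  | zero => simp
  | succ m ih =>
    have e : (3 * (m + 1) + 1).factorial = (3 * m + 4) * ((3 * m + 3) * ((3 * m + 2) *
        (3 * m + 1).factorial)) := by
      rw [show 3 * (m + 1) + 1 = 3 * m + 1 + 1 + 1 + 1 by ring, Nat.factorial_succ (3 * m + 1 + 1 + 1),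
        Nat.factorial_succ (3 * m + 1 + 1), Nat.factorial_succ (3 * m + 1)]
    rw [Finset.prod_range_succ, ih, e]
    push_cast
    ring

theorem fact4 (m : ℕ) : ∏ i ∈ range m, (3 * (i : ℂ) + 3) = 3 ^ m * (m.factorial : ℂ) := by
  induction m with
  | zero => simp
  | succ m ih =>
    rw [Finset.prod_range_succ, ih, Nat.factorial_succ]
    push_cast
    ring

theorem TTn_rec (n : ℕ) : TTn (n + 1) = TTn n * ((3 * (n : ℂ) + 4) * (3 * n + 5) * (6 * n + 9) *
    (((6 * n + 7).factorial : ℂ) * (3 ^ (2 * n + 2) * ((2 * n + 2).factorial : ℂ)))) := by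
  unfold TTn VR
  rw [show 2 * (n + 1) + 2 = 2 * n + 2 + 1 + 1 by ring, Finset.prod_range_succ,
    Finset.prod_range_succ, Finset.prod_range_succ (fun j => ∏ i ∈ range j, _),
    Finset.prod_range_succ (fun j => ∏ i ∈ range j, _)]
  have h1 : aa (2 * n + 2) = 3 * (n + 1) + 1 := by unfold aa; omega
  have h2 : aa (2 * n + 2 + 1) = 3 * (n + 1) + 2 := by unfold aa; omega
  have d1 := D1_eq (n + 1)
  have d2 := D2_eq (n + 1)
  have f3 := fact3 (2 * n + 2)
  have f4 := fact4 (2 * n + 2)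
  rw [Finset.prod_range_succ (fun i => (aa (2 * n + 2 + 1) : ℂ) ^ 2 - (aa i : ℂ) ^ 2)]
  rw [show 3 * (2 * n + 2) + 1 = 6 * n + 7 by ring] at f3
  rw [show 2 * (n + 1) = 2 * n + 2 by ring] at d1 d2
  simp only [h1, h2]
  push_cast at d1 d2 ⊢
  rw [d1, d2, ← f3, ← f4]
  simp only [Finset.prod_mul_distrib]
  ring

/-- The value of the product. -/
noncomputable def RR (n : ℕ) : ℂ := 3 ^ (n ^ 2) * 4 ^ (n + 1) * (2 ^ n / 2) *
  ((3 * n + 2).factorial : ℂ) * (∏ i ∈ range n, ((6 * i + 4).factorial : ℂ)) *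
  ∏ i ∈ range n, ((2 * i + 1).factorial : ℂ)

theorem RR_rec (n : ℕ) : RR (n + 1) = RR n * (3 ^ (2 * n + 1) * 4 * 2 *
    ((3 * (n : ℂ) + 3) * (3 * n + 4) * (3 * n + 5)) * ((6 * n + 4).factorial : ℂ) *
    ((2 * n + 1).factorial : ℂ)) := by
  unfold RR
  rw [Finset.prod_range_succ, Finset.prod_range_succ, show (n + 1) ^ 2 = n ^ 2 + (2 * n + 1) by ring,
    show 3 * (n + 1) + 2 = 3 * n + 2 + 1 + 1 + 1 by ring, Nat.factorial_succ, Nat.factorial_succ,
    Nat.factorial_succ, pow_add]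
  push_cast
  ring

theorem TS_eq (n : ℕ) : TTn n * SS n = RR n := by
  induction n with
  | zero =>
    rw [SS_zero]
    unfold TTn VR RR
    simp [Finset.prod_range_succ, aa]
    norm_num
  | succ n ih =>
    have hs := SS_rec n
    rw [RR_rec, ← ih, TTn_rec]
    have h1 : (6 * (n : ℂ) + 5) ≠ 0 := by exact_mod_cast (by omega : 6 * n + 5 ≠ 0)
    have h2 : (6 * (n : ℂ) + 7) ≠ 0 := by exact_mod_cast (by omega : 6 * n + 7 ≠ 0)
    have h3 : (2 * (n : ℂ) + 2) ≠ 0 := by exact_mod_cast (by omega : 2 * n + 2 ≠ 0)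
    have h4 : (2 * (n : ℂ) + 3) ≠ 0 := by exact_mod_cast (by omega : 2 * n + 3 ≠ 0)
    have hK : 9 * ((6 * (n : ℂ) + 5) * (6 * n + 7) * (2 * n + 2) * (2 * n + 3)) ≠ 0 :=
      mul_ne_zero (by norm_num) (mul_ne_zero (mul_ne_zero (mul_ne_zero h1 h2) h3) h4)
    apply mul_left_cancel₀ hK
    have f1 : ((6 * n + 7).factorial : ℂ) = (6 * (n : ℂ) + 7) * ((6 * n + 6) * ((6 * n + 5) *
        ((6 * n + 4).factorial : ℂ))) := by
      rw [show 6 * n + 7 = 6 * n + 4 + 1 + 1 + 1 by ring, Nat.factorial_succ, Nat.factorial_succ,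
        Nat.factorial_succ]
      push_cast
      ring
    have f2 : ((2 * n + 2).factorial : ℂ) = (2 * (n : ℂ) + 2) * ((2 * n + 1).factorial : ℂ) := by
      rw [show 2 * n + 2 = 2 * n + 1 + 1 by ring, Nat.factorial_succ]
      push_cast
      ring
    rw [f1, f2, show 2 * n + 2 = 2 * n + 1 + 1 by ring, pow_succ (3 : ℂ) (2 * n + 1)]
    linear_combination (TTn n * ((3 * (n : ℂ) + 4) * (3 * n + 5) * (6 * n + 9) *
      (((6 * (n : ℂ) + 7) * ((6 * n + 6) * ((6 * n + 5) *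
        ((6 * n + 4).factorial : ℂ)))) * ((3 ^ (2 * n + 1) * 3) * ((2 * (n : ℂ) + 2) *
        ((2 * n + 1).factorial : ℂ)))))) * hs

/-- The value in the statement. -/
def FF (n : ℕ) : ℚ := (2 : ℚ) ^ (n - 1) * ((Nat.factorial (3 * n + 2) : ℕ) : ℚ)
            / ((Nat.factorial (2 * n + 1) : ℕ) : ℚ)
          * ∏ i ∈ Finset.Icc 1 n,
              (((Nat.factorial (6 * i - 2) : ℕ) : ℚ)
                / ((Nat.factorial (2 * n + 2 * i + 1) : ℕ) : ℚ))

theorem FF_eq (n : ℕ) (hn : 1 ≤ n) :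
    ((FF n : ℚ) : ℂ) * (3 ^ (n ^ 2) * 4 ^ (n + 1) *
      ∏ j ∈ range (2 * n + 1), ((2 * j + 1).factorial : ℂ)) = RR n := by
  have e1 : ∏ i ∈ Finset.Icc 1 n, (((Nat.factorial (6 * i - 2) : ℕ) : ℚ)
      / ((Nat.factorial (2 * n + 2 * i + 1) : ℕ) : ℚ)) = ∏ i ∈ range n,
      (((Nat.factorial (6 * i + 4) : ℕ) : ℚ) / ((Nat.factorial (2 * (n + 1 + i) + 1) : ℕ) : ℚ)) := by
    rw [← Finset.Ico_add_one_right_eq_Icc, Finset.prod_Ico_eq_prod_range]
    apply Finset.prod_congr (by simp)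
    intro i _
    rw [show 6 * (1 + i) - 2 = 6 * i + 4 by omega, show 2 * n + 2 * (1 + i) + 1 =
      2 * (n + 1 + i) + 1 by ring]
  have e2 : ∏ j ∈ range (2 * n + 1), ((2 * j + 1).factorial : ℂ) =
      (∏ i ∈ range n, ((2 * i + 1).factorial : ℂ)) * ((2 * n + 1).factorial : ℂ) *
      ∏ i ∈ range n, ((2 * (n + 1 + i) + 1).factorial : ℂ) := by
    rw [show 2 * n + 1 = (n + 1) + n by ring, Finset.prod_range_add, Finset.prod_range_succ]
    rw [show (n + 1) + n = 2 * n + 1 by ring]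
  unfold FF RR
  rw [e1, e2, Finset.prod_div_distrib]
  push_cast
  have h1 : (∏ i ∈ range n, ((2 * (n + 1 + i) + 1).factorial : ℂ)) ≠ 0 :=
    Finset.prod_ne_zero_iff.mpr (fun i _ => by exact_mod_cast Nat.factorial_ne_zero _)
  have h2 : ((2 * n + 1).factorial : ℂ) ≠ 0 := by exact_mod_cast Nat.factorial_ne_zero _
  obtain ⟨m, rfl⟩ : ∃ m, n = m + 1 := ⟨n - 1, by omega⟩
  rw [Nat.add_sub_cancel]
  field_simp
  ring

end Pool.Agent.Helper42.OS
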