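import Pool.Agent.Helper42.OS.Sum

set_option autoImplicit false

namespace Pool.Agent.Helper42.OS

open Finset

/-- The reindexing. -/
def pim (n : ℕ) (c : ℕ) : ℕ := if n + 1 ≤ c then 2 * (c - n - 1) else 2 * (n - c) + 1

theorem pim_lt {n c : ℕ} (h : c < 2 * n + 2) : pim n c < 2 * n + 2 := by
  unfold pim
  split_ifs <;> omega

theorem pim_inj {n c d : ℕ} (h : pim n c = pim n d) :
    c = d := by
  unfold pim at h
  split_ifs at h <;> omega

theorem aa_pim (n c : ℕ) : (aa (pim n c) : ℂ) ^ 2 = (3 * (c : ℂ) - 3 * n - 2) ^ 2 := by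
  unfold pim
  split_ifs with h
  · have : aa (2 * (c - n - 1)) = 3 * (c - n - 1) + 1 := by unfold aa; omega
    rw [this]
    obtain ⟨m, rfl⟩ : ∃ m, c = n + 1 + m := ⟨c - n - 1, by omega⟩
    rw [show n + 1 + m - n - 1 = m by omega]
    push_cast
    ring
  · have : aa (2 * (n - c) + 1) = 3 * (n - c) + 2 := by unfold aa; omega
    rw [this]
    obtain ⟨m, rfl⟩ : ∃ m, n = c + m := ⟨n - c, by omega⟩
    rw [show c + m - c = m by omega]
    push_cast
    ring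

theorem aa_pim_sign (n c : ℕ) : (-1 : ℂ) ^ (aa (pim n c)) = (-1) ^ n * (-1) ^ c := by
  rw [← pow_add, neg_one_pow_eq_pow_mod_two, neg_one_pow_eq_pow_mod_two (n := n + c)]
  congr 1
  unfold pim aa
  split_ifs <;> omega

theorem SS_eq (n : ℕ) : SS n = -(-1) ^ n * qq (2 * n + 1) / 3 ^ (2 * n + 1) := by
  let π₀ : Fin (2 * n + 1 + 1) → Fin (2 * n + 1 + 1) := fun c => ⟨pim n c, pim_lt c.isLt⟩
  have hinj : Function.Injective π₀ := by
    intro c d h
    apply Fin.ext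
    have : pim n c = pim n d := by simpa [π₀] using h
    exact pim_inj this
  let e : Fin (2 * n + 1 + 1) ≃ Fin (2 * n + 1 + 1) :=
    Equiv.ofBijective π₀ (Finite.injective_iff_bijective.mp hinj)
  have he : ∀ c, (e c).val = pim n c := fun c => rfl
  have h1 : ∀ j : Fin (2 * n + 1 + 1),
      ∏ k : Fin (2 * n + 1), ((aa j : ℂ) ^ 2 - (aa (j.succAbove k) : ℂ) ^ 2) =
      ∏ k : Fin (2 * n + 1 + 1), (if k = j then 1 else ((aa j : ℂ) ^ 2 - (aa k : ℂ) ^ 2)) := by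
    intro j
    rw [Fin.prod_univ_succAbove _ j, if_pos rfl, one_mul]
    apply Finset.prod_congr rfl
    intro k _
    rw [if_neg (Fin.succAbove_ne j k)]
  unfold SS
  simp only [h1]
  rw [← Equiv.sum_comp e]
  have h2 : ∀ c : Fin (2 * n + 1 + 1),
      ∏ k : Fin (2 * n + 1 + 1), (if k = e c then 1 else ((aa (e c) : ℂ) ^ 2 - (aa k : ℂ) ^ 2)) =
      3 ^ (2 * n + 1) * ∏ k ∈ (range (2 * n + 1 + 1)).erase c.val,
        (((c : ℂ) - k) * (3 * ((c : ℂ) + k) - (6 * n + 4))) := by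
    intro c
    rw [← Equiv.prod_comp e]
    simp only [e.injective.eq_iff, he, aa_pim]
    have h3 : ∀ k : Fin (2 * n + 1 + 1), (if k = c then (1 : ℂ) else
        ((3 * (c : ℂ) - 3 * n - 2) ^ 2 - (3 * (k : ℂ) - 3 * n - 2) ^ 2)) =
        (fun k : ℕ => if k = c.val then (1 : ℂ) else
        ((3 * (c : ℂ) - 3 * n - 2) ^ 2 - (3 * (k : ℂ) - 3 * n - 2) ^ 2)) k.val := by
      intro k
      simp only [Fin.ext_iff]
    rw [Finset.prod_congr rfl (fun k _ => h3 k),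
      Fin.prod_univ_eq_prod_range (fun k : ℕ => if k = c.val then (1 : ℂ) else
        ((3 * (c : ℂ) - 3 * n - 2) ^ 2 - (3 * (k : ℂ) - 3 * n - 2) ^ 2)) (2 * n + 1 + 1),
      ← Finset.prod_erase (range (2 * n + 1 + 1)) (f := fun k : ℕ => if k = c.val then (1 : ℂ) else
        ((3 * (c : ℂ) - 3 * n - 2) ^ 2 - (3 * (k : ℂ) - 3 * n - 2) ^ 2)) (a := c.val) (if_pos rfl)]
    have hcard : ((range (2 * n + 1 + 1)).erase c.val).card = 2 * n + 1 := by
      rw [Finset.card_erase_of_mem (Finset.mem_range.mpr c.isLt), Finset.card_range]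
      omega
    have hpow : (3 : ℂ) ^ (2 * n + 1) = ∏ _k ∈ (range (2 * n + 1 + 1)).erase c.val, (3 : ℂ) := by
      rw [Finset.prod_const, hcard]
    rw [hpow, ← Finset.prod_mul_distrib]
    apply Finset.prod_congr rfl
    intro k hk
    rw [if_neg (Finset.ne_of_mem_erase hk)]
    ring
  have h4 : ∀ c : Fin (2 * n + 1 + 1), (-1) ^ (aa (e c)) /
      ∏ k : Fin (2 * n + 1 + 1), (if k = e c then 1 else ((aa (e c) : ℂ) ^ 2 - (aa k : ℂ) ^ 2)) =
      (fun c : ℕ => (-(-1) ^ n / 3 ^ (2 * n + 1)) * ((-1) ^ c * (6 * (c : ℂ) - 3 *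
        ((2 * n + 1 : ℕ) : ℂ) - 1) * (uu c * vv (2 * n + 1 - c)))) c.val := by
    intro c
    rw [h2, he, aa_pim_sign]
    have hp := prod_erase c.val (2 * n + 1 - c.val)
    have hc := c.isLt
    rw [show c.val + (2 * n + 1 - c.val) + 1 = 2 * n + 1 + 1 by omega] at hp
    have hcast : ((2 * n + 1 - c.val : ℕ) : ℂ) = 2 * n + 1 - c := by
      rw [Nat.cast_sub (by omega)]; push_cast; ring
    rw [hcast] at hp
    have e1 : ∀ k : ℕ, (3 * ((c : ℂ) + k) - 3 * ((c : ℂ) + (2 * n + 1 - c)) - 1) =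
        (3 * ((c : ℂ) + k) - (6 * n + 4)) := by intro k; ring
    simp only [e1] at hp
    set X := ∏ k ∈ (range (2 * n + 1 + 1)).erase c.val,
        (((c : ℂ) - k) * (3 * ((c : ℂ) + k) - (6 * n + 4)))
    have hX : X ≠ 0 := by
      intro h0
      rw [h0, mul_zero] at hp
      norm_num at hp
    have h3 : (3 : ℂ) ^ (2 * n + 1) ≠ 0 := pow_ne_zero _ (by norm_num)
    rw [div_eq_iff (mul_ne_zero h3 hX)]
    push_cast
    field_simp
    have : (6 * (c : ℂ) - 3 * (↑c + (2 * ↑n + 1 - ↑c)) - 1) = (6 * (c : ℂ) - 3 * (2 * n + 1) - 1) := by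
      ring
    rw [this] at hp
    linear_combination hp
  rw [Finset.sum_congr rfl (fun c _ => h4 c), Fin.sum_univ_eq_sum_range (fun c : ℕ =>
    (-(-1) ^ n / 3 ^ (2 * n + 1)) * ((-1) ^ c * (6 * (c : ℂ) - 3 *
        ((2 * n + 1 : ℕ) : ℂ) - 1) * (uu c * vv (2 * n + 1 - c)))) (2 * n + 1 + 1),
    ← Finset.mul_sum]
  unfold qq
  ring

theorem SS_rec (n : ℕ) : 9 * ((6 * (n : ℂ) + 5) * (6 * n + 7) * (2 * n + 2) * (2 * n + 3)) *
    SS (n + 1) = 4 * SS n := by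
  have h := qq_rec (2 * n + 1)
  rw [SS_eq, SS_eq]
  rw [show 2 * (n + 1) + 1 = 2 * n + 1 + 2 by ring]
  push_cast at h
  have h3 : (3 : ℂ) ^ (2 * n + 1) ≠ 0 := pow_ne_zero _ (by norm_num)
  rw [pow_add (3 : ℂ) (2 * n + 1) 2, pow_succ (-1 : ℂ) n]
  field_simp
  linear_combination (9 : ℂ) * h

theorem SS_zero : SS 0 = 2 / 3 := by
  rw [SS_eq]
  unfold qq
  simp [Finset.sum_range_succ, uu, vv]
  norm_num

end Pool.Agent.Helper42.OS
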