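import Pool.Agent.Helper42.OS.Num

set_option autoImplicit false

namespace Pool.Agent.Helper42.OS

open Finset

/-- `1 / (c! * 2 * 5 * ... * (3c - 1))`. -/
noncomputable def uu : ℕ → ℂ
  | 0 => 1
  | c + 1 => uu c / (((c : ℂ) + 1) * (3 * c + 2))

/-- `1 / (d! * 4 * 7 * ... * (3d + 1))`. -/
noncomputable def vv : ℕ → ℂ
  | 0 => 1
  | d + 1 => vv d / (((d : ℂ) + 1) * (3 * d + 4))

theorem uu_succ (c : ℕ) : uu (c + 1) * (((c : ℂ) + 1) * (3 * c + 2)) = uu c := by
  rw [uu]
  have h1 : ((c : ℂ) + 1) ≠ 0 := by exact_mod_cast (by omega : c + 1 ≠ 0)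
  have h2 : (3 * (c : ℂ) + 2) ≠ 0 := by exact_mod_cast (by omega : 3 * c + 2 ≠ 0)
  exact div_mul_cancel₀ _ (mul_ne_zero h1 h2)

theorem vv_succ (d : ℕ) : vv (d + 1) * (((d : ℂ) + 1) * (3 * d + 4)) = vv d := by
  rw [vv]
  have h1 : ((d : ℂ) + 1) ≠ 0 := by exact_mod_cast (by omega : d + 1 ≠ 0)
  have h2 : (3 * (d : ℂ) + 4) ≠ 0 := by exact_mod_cast (by omega : 3 * d + 4 ≠ 0)
  exact div_mul_cancel₀ _ (mul_ne_zero h1 h2)

theorem uu_prod (c : ℕ) : (∏ k ∈ range c, (3 * (k : ℂ) + 2)) * (c.factorial : ℂ) * uu c = 1 := by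
  induction c with
  | zero => simp [uu]
  | succ c ih =>
    rw [Finset.prod_range_succ, Nat.factorial_succ]
    push_cast
    linear_combination ih + ((∏ k ∈ range c, (3 * (k : ℂ) + 2)) * (c.factorial : ℂ)) * uu_succ c

theorem vv_prod (d : ℕ) :
    (∏ k ∈ range (d + 1), (3 * (k : ℂ) + 1)) * (d.factorial : ℂ) * vv d = 1 := by
  induction d with
  | zero => simp [vv]
  | succ d ih =>
    rw [Finset.prod_range_succ, Nat.factorial_succ]
    push_cast
    linear_combination ih + ((∏ k ∈ range (d + 1), (3 * (k : ℂ) + 1)) * (d.factorial : ℂ)) * vv_succ d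

theorem P2 (c d : ℕ) : ∏ k ∈ range (c + d + 1), (3 * ((c : ℂ) + k) - 3 * ((c : ℂ) + d) - 1) =
    (∏ k ∈ range c, (3 * (k : ℂ) + 2)) * ((-1) ^ (d + 1) *
      ∏ k ∈ range (d + 1), (3 * (k : ℂ) + 1)) := by
  rw [show c + d + 1 = (d + 1) + c by ring, Finset.prod_range_add, mul_comm]
  congr 1
  · apply Finset.prod_congr rfl
    intro k _
    push_cast
    ring
  · rw [← Finset.prod_range_reflect, ← Finset.card_range (d + 1), ← Finset.prod_const,
      Finset.card_range, ← Finset.prod_mul_distrib]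
    apply Finset.prod_congr rfl
    intro k hk
    rw [Finset.mem_range] at hk
    rw [show d + 1 - 1 - k = d - k by omega, Nat.cast_sub (by omega)]
    ring

theorem P1 (c d : ℕ) : ∏ k ∈ (range (c + d + 1)).erase c, ((c : ℂ) - k) =
    (c.factorial : ℂ) * ((-1) ^ d * (d.factorial : ℂ)) := by
  have e1 : ∏ k ∈ (range (c + d + 1)).erase c, ((c : ℂ) - k) =
      ∏ k ∈ (range (c + d + 1)).erase c, (if k = c then 1 else ((c : ℂ) - k)) := by
    apply Finset.prod_congr rfl
    intro k hk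
    rw [if_neg (Finset.ne_of_mem_erase hk)]
  rw [e1, Finset.prod_erase (range (c + d + 1)) (f := fun k => if k = c then 1 else ((c : ℂ) - k))
    (a := c) (if_pos rfl), show c + d + 1 = c + (d + 1) by ring,
    Finset.prod_range_add, Finset.prod_range_succ']
  congr 1
  · have : ∀ k ∈ range c, (if k = c then 1 else ((c : ℂ) - k)) = (((c - 1 - k : ℕ) : ℂ) + 1) := by
      intro k hk
      rw [Finset.mem_range] at hk
      rw [if_neg (by omega), show c - 1 - k = c - (k + 1) by omega, Nat.cast_sub (by omega)]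
      push_cast
      ring
    rw [Finset.prod_congr rfl this, Finset.prod_range_reflect (fun k => ((k : ℂ) + 1)),
      ← Finset.prod_range_add_one_eq_factorial]
    push_cast
    rfl
  · rw [if_pos (by omega), mul_one]
    rw [← Finset.prod_range_add_one_eq_factorial, ← Finset.card_range d, ← Finset.prod_const,
      Finset.card_range]
    push_cast
    rw [← Finset.prod_mul_distrib]
    apply Finset.prod_congr rfl
    intro k _
    rw [if_neg (by omega)]
    ring

/-- The product of the differences for the reindexed points. -/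
theorem prod_erase (c d : ℕ) :
    (6 * (c : ℂ) - 3 * (c + d) - 1) * (uu c * vv d) *
      ∏ k ∈ (range (c + d + 1)).erase c,
        (((c : ℂ) - k) * (3 * ((c : ℂ) + k) - 3 * ((c : ℂ) + d) - 1)) = -1 := by
  rw [Finset.prod_mul_distrib, P1]
  have h2 := P2 c d
  have hm : c ∈ range (c + d + 1) := by rw [Finset.mem_range]; omega
  rw [← Finset.mul_prod_erase _ _ hm] at h2
  have h3 := uu_prod c
  have h4 := vv_prod d
  have h5 : ((-1 : ℂ)) ^ d * (-1) ^ (d + 1) = -1 := by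
    rw [pow_succ, ← mul_assoc, ← mul_pow]; norm_num
  set X := ∏ k ∈ (range (c + d + 1)).erase c, (3 * ((c : ℂ) + k) - 3 * ((c : ℂ) + d) - 1)
  set A := ∏ k ∈ range c, (3 * (k : ℂ) + 2)
  set B := ∏ k ∈ range (d + 1), (3 * (k : ℂ) + 1)
  have e : (6 * (c : ℂ) - 3 * (c + d) - 1) * X = A * ((-1) ^ (d + 1) * B) := by
    rw [← h2]; ring
  calc (6 * (c : ℂ) - 3 * (c + d) - 1) * (uu c * vv d) *
      ((c.factorial : ℂ) * ((-1) ^ d * (d.factorial : ℂ)) * X)
      = ((6 * (c : ℂ) - 3 * (c + d) - 1) * X) * (uu c * vv d) *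
        ((c.factorial : ℂ) * ((-1) ^ d * (d.factorial : ℂ))) := by ring
    _ = (A * (c.factorial : ℂ) * uu c) * (B * (d.factorial : ℂ) * vv d) *
        ((-1) ^ d * (-1) ^ (d + 1)) := by rw [e]; ring
    _ = -1 := by rw [h3, h4, h5]; ring

/-- The sum. -/
noncomputable def qq (M : ℕ) : ℂ :=
  ∑ c ∈ range (M + 1), (-1) ^ c * (6 * (c : ℂ) - 3 * M - 1) * (uu c * vv (M - c))

/-- The certificate. -/
def hh (M c : ℂ) : ℂ := -36 * c ^ 3 + (216 + 126 * M) * c ^ 2 +
  (-428 - 510 * M - 144 * M ^ 2) * c + (272 + 486 * M + 267 * M ^ 2 + 45 * M ^ 3)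

theorem qq_rec (M : ℕ) : (3 * (M : ℂ) + 2) * (3 * M + 4) * (M + 1) * (M + 2) * qq (M + 2) =
    -4 * qq M := by
  let w : ℕ → ℂ := fun c => if c ≤ M + 2 then vv (M + 2 - c) else 0
  have hw : ∀ c, c < M + 3 → w (c + 1) = w c * (((M : ℂ) + 2 - c) * (3 * ((M : ℂ) + 2 - c) + 1)) := by
    intro c hc
    simp only [w]
    rw [if_pos (show c ≤ M + 2 by omega)]
    by_cases h : c = M + 2
    · rw [if_neg (by omega), h]
      push_cast
      ring
    · rw [if_pos (by omega)]
      obtain ⟨d, hd⟩ : ∃ d, M + 2 - c = d + 1 := ⟨M + 1 - c, by omega⟩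
      rw [show M + 2 - (c + 1) = d by omega, hd]
      have : (M : ℂ) + 2 - c = d + 1 := by
        have h2 : M + 2 = c + (d + 1) := by omega
        have h3 : (M : ℂ) + 2 = c + (d + 1) := by exact_mod_cast h2
        rw [h3]; ring
      rw [this, ← vv_succ d]
      ring
  have hq2 : qq (M + 2) = ∑ c ∈ range (M + 3), (-1) ^ c * (6 * (c : ℂ) - 3 * (M + 2) - 1) *
      (uu c * w c) := by
    unfold qq
    apply Finset.sum_congr rfl
    intro c hc
    rw [Finset.mem_range] at hc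
    simp only [w]
    rw [if_pos (by omega)]
    push_cast
    rfl
  have hq0 : qq M = ∑ c ∈ range (M + 3), (-1) ^ c * (6 * (c : ℂ) - 3 * M - 1) *
      (uu c * (w c * (((M : ℂ) + 2 - c) * (3 * ((M : ℂ) + 2 - c) + 1)) *
        (((M : ℂ) + 1 - c) * (3 * ((M : ℂ) + 1 - c) + 1)))) := by
    rw [Finset.sum_range_succ, Finset.sum_range_succ]
    have z1 : ((M : ℂ) + 2 - ((M + 2 : ℕ) : ℂ)) = 0 := by push_cast; ring
    have z2 : ((M : ℂ) + 1 - ((M + 1 : ℕ) : ℂ)) = 0 := by push_cast; ring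
    rw [z1, z2]
    simp only [zero_mul, mul_zero, add_zero]
    unfold qq
    apply Finset.sum_congr rfl
    intro c hc
    rw [Finset.mem_range] at hc
    have h1 := hw c (by omega)
    have h2 := hw (c + 1) (by omega)
    have h3 : ((M : ℂ) + 2 - ((c + 1 : ℕ) : ℂ)) = (M : ℂ) + 1 - c := by push_cast; ring
    rw [h3] at h2
    rw [← h1, ← h2]
    simp only [w]
    rw [if_pos (by omega), show M + 2 - (c + 1 + 1) = M - c by omega]
  let G : ℕ → ℂ := fun c => (-1) ^ c * uu c * w c * ((c : ℂ) * (3 * c - 1)) * hh M c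
  have hG : ∀ c ∈ range (M + 3), (3 * (M : ℂ) + 2) * (3 * M + 4) * (M + 1) * (M + 2) *
        ((-1) ^ c * (6 * (c : ℂ) - 3 * (M + 2) - 1) * (uu c * w c)) +
      4 * ((-1) ^ c * (6 * (c : ℂ) - 3 * M - 1) *
      (uu c * (w c * (((M : ℂ) + 2 - c) * (3 * ((M : ℂ) + 2 - c) + 1)) *
        (((M : ℂ) + 1 - c) * (3 * ((M : ℂ) + 1 - c) + 1))))) = G (c + 1) - G c := by
    intro c hc
    rw [Finset.mem_range] at hc
    simp only [G]
    rw [hw c hc, pow_succ]
    have hu := uu_succ c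
    push_cast
    have e : (-1 : ℂ) ^ c * -1 * uu (c + 1) *
        (w c * (((M : ℂ) + 2 - c) * (3 * ((M : ℂ) + 2 - c) + 1))) *
        (((c : ℂ) + 1) * (3 * ((c : ℂ) + 1) - 1)) * hh M (c + 1) =
        (-1 : ℂ) ^ c * -1 * uu c *
        (w c * (((M : ℂ) + 2 - c) * (3 * ((M : ℂ) + 2 - c) + 1))) * hh M (c + 1) := by
      rw [← hu]; ring
    rw [e]
    unfold hh
    ring
  have hsum : ∑ c ∈ range (M + 3), (G (c + 1) - G c) = 0 := by
    rw [Finset.sum_range_sub]
    simp only [G, w]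
    rw [if_neg (by omega)]
    simp
  have htot : (3 * (M : ℂ) + 2) * (3 * M + 4) * (M + 1) * (M + 2) * qq (M + 2) + 4 * qq M = 0 := by
    rw [hq2, hq0, Finset.mul_sum, Finset.mul_sum, ← Finset.sum_add_distrib,
      Finset.sum_congr rfl hG, hsum]
  linear_combination htot

end Pool.Agent.Helper42.OS
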