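import Pool.Agent.Helper42.OS.Basic

set_option autoImplicit false

namespace Pool.Agent.Helper42.OS

section ring

variable {R : Type} [CommRing R]

/-- Lines with initial state `false`. -/
def fl (l : List R) : List (R × Bool) := l.map (fun z => (z, false))

/-- The even partition function. -/
def ZZ (ω : R) (l : List R) : R := Z ω l.length (fl l)

/-- The odd partition function. -/
def ZO (ω : R) (l : List R) : R := Zo ω l.length (fl l)

omit [CommRing R] in
theorem fl_cons (z : R) (l : List R) : fl (z :: l) = (z, false) :: fl l := rfl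

omit [CommRing R] in
theorem fl_nil : fl ([] : List R) = [] := rfl

omit [CommRing R] in
theorem fl_append (l l' : List R) : fl (l ++ l') = fl l ++ fl l' := by simp [fl]

theorem kp_fl (ω : R) (l : List R) : kp ω (fl l) = (l.map (fun z => 1 + ω ^ 2 * z)).prod := by
  simp [kp, fl, List.map_map, Function.comp_def]

theorem row_true_fl (ω z : R) (l : List R) (k : List (R × Bool) → R) :
    row ω z true (fl l) k = (l.map (fun y => ω - z * y)).prod * k (fl l) := by
  induction l generalizing k with
  | nil => simp [fl, row]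
  | cons y l ih =>
    rw [fl_cons, row_cons]
    simp only [V, ih, List.map_cons, List.prod_cons]
    ring

theorem DD_true_fl (ω z₁ z₂ : R) (l : List R) (k : List (R × Bool) → R) :
    DD ω z₁ z₂ true true (fl l) k =
      (l.map (fun y => (ω - z₁ * y) * (ω - z₂ * y))).prod * k (fl l) := by
  unfold DD
  rw [row_true_fl, row_true_fl, List.prod_map_mul, mul_assoc]

/-- Recursion of the first kind. -/
theorem ZZ_rec_a (ω : R) {z₁ z₂ : R} (h : ω * (z₁ * z₂) = 1) (l : List R) :
    ZZ ω (z₁ :: z₂ :: l) =
      (ω - 1) * (l.map (fun y => (ω - z₁ * y) * (ω - z₂ * y))).prod * ZZ ω l := by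
  unfold ZZ
  simp only [List.length_cons, fl_cons]
  rw [Z_two]
  simp only [V, DD_true_fl, h]
  ring

theorem ZO_rec_a {ω : R} (hω : ω ^ 2 + ω + 1 = 0) {z₁ z₂ : R} (h : ω * (z₁ * z₂) = 1)
    (l : List R) :
    ZO ω (z₁ :: z₂ :: l) =
      (1 + ω ^ 2 * z₁) * (1 + ω ^ 2 * z₂) *
      ((ω - 1) * (l.map (fun y => (ω - z₁ * y) * (ω - z₂ * y))).prod * ZO ω l) := by
  unfold ZO
  simp only [List.length_cons, fl_cons]
  rw [Zo_two]
  simp only [V, DD_true_fl, h, pw, Bool.not_false, Bool.not_true]
  have h2 : z₁ * z₂ = ω ^ 2 := by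
    linear_combination ω ^ 2 * h - (ω - 1) * (z₁ * z₂) * hω
  have h3 : (1 + ω ^ 2 * z₁) * (ω - 1) * z₂ + (1 + ω ^ 2 * z₂) * (ω - z₁ * z₂) = 0 := by
    linear_combination ((ω - 1) * ω ^ 2 - 1 - ω ^ 2 * z₂) * h2 + (ω ^ 3 - 2 * ω ^ 2 + ω - (ω^2 - ω)*z₂ + (ω - 1) * z₂) * hω
  linear_combination (kp ω (fl l) * DD ω z₁ z₂ true false (fl l) (Z ω l.length)) * h3

/-- Every row passes a last column which is in state `true`. -/
theorem row_last_true (ω y z : R) (s : Bool) (L : List (R × Bool)) (k : List (R × Bool) → R) :
    row ω y s (L ++ [(z, true)]) k =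
      (ω * (y * z) - 1) * row ω y s L (fun L' => k (L' ++ [(z, true)])) := by
  induction L generalizing s k with
  | nil =>
    rw [List.nil_append, row_cons]
    cases s <;> simp [V, row]
  | cons p L ih =>
    obtain ⟨x, u⟩ := p
    rw [List.cons_append, row_cons, row_cons]
    simp only [ih, V_smul, List.cons_append]

theorem Z_last_true (ω z : R) (n : ℕ) (L : List (R × Bool)) :
    Z ω (n + 1) (L ++ [(z, true)]) = (L.map (fun p => ω * (p.1 * z) - 1)).prod * Z ω n L := by
  induction n generalizing L with
  | zero =>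
    cases L with
    | nil => simp [Z, row]
    | cons p L =>
      obtain ⟨y, s⟩ := p
      simp only [Z, List.cons_append, mul_zero]
      rw [row_last_true]
      have : (fun L' : List (R × Bool) => Z ω 0 (L' ++ [(z, true)])) = fun _ => 0 := by
        funext L'
        cases L' <;> rfl
      rw [this, row_zero, mul_zero]
  | succ n ih =>
    cases L with
    | nil => simp [Z, row]
    | cons p L =>
      obtain ⟨y, s⟩ := p
      simp only [List.cons_append, List.map_cons, List.prod_cons]
      rw [Z, Z, row_last_true]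
      have : row ω y s L (fun L' => Z ω (n + 1) (L' ++ [(z, true)])) =
          row ω y s L (fun L' => (L.map (fun p => ω * (p.1 * z) - 1)).prod * Z ω n L') := by
        apply row_congr
        intro L' hL'
        rw [ih]
        congr 1
        have h1 : ∀ M : List (R × Bool), (M.map (fun p => ω * (p.1 * z) - 1)) =
            (M.map Prod.fst).map (fun x => ω * (x * z) - 1) := by
          intro M; simp [List.map_map, Function.comp_def]
        rw [h1, h1, hL']
      rw [this, row_smul]
      ring

theorem Zo_last_true (ω z : R) (n : ℕ) (L : List (R × Bool)) :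
    Zo ω (n + 1) (L ++ [(z, true)]) =
      (1 + ω ^ 2 * z) * (L.map (fun p => ω * (p.1 * z) - 1)).prod * Zo ω n L := by
  induction n generalizing L with
  | zero =>
    cases L with
    | nil => simp [Zo, row]
    | cons p L =>
      obtain ⟨y, s⟩ := p
      simp only [Zo_cons, List.cons_append]
      rw [row_last_true, row_last_true]
      have : (fun L' : List (R × Bool) => Z ω 0 (L' ++ [(z, true)])) = fun _ => 0 := by
        funext L'
        cases L' <;> rfl
      rw [this, row_zero]
      have : (fun L' : List (R × Bool) => Zo ω 0 (L' ++ [(z, true)])) = fun _ => 0 := by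
        funext L'
        rfl
      rw [this, row_zero]
      simp [Zo]
  | succ n ih =>
    cases L with
    | nil => simp [Zo, row]
    | cons p L =>
      obtain ⟨y, s⟩ := p
      simp only [List.cons_append, List.map_cons, List.prod_cons]
      rw [Zo_cons, Zo_cons, row_last_true, row_last_true]
      have h1 : ∀ M : List (R × Bool), (M.map (fun p => ω * (p.1 * z) - 1)) =
          (M.map Prod.fst).map (fun x => ω * (x * z) - 1) := by
        intro M; simp [List.map_map, Function.comp_def]
      have e1 : row ω y s L (fun L' => Zo ω (n + 1) (L' ++ [(z, true)])) =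
          row ω y s L (fun L' => ((1 + ω ^ 2 * z) *
            (L.map (fun p => ω * (p.1 * z) - 1)).prod) * Zo ω n L') := by
        apply row_congr
        intro L' hL'
        rw [ih, h1, h1, hL']
      have e2 : row ω y (!s) L (fun L' => Z ω (n + 1) (L' ++ [(z, true)])) =
          row ω y (!s) L (fun L' => (L.map (fun p => ω * (p.1 * z) - 1)).prod * Z ω n L') := by
        apply row_congr
        intro L' hL'
        rw [Z_last_true, h1, h1, hL']
      rw [e1, e2, row_smul, row_smul]
      have e3 : kp ω (L ++ [(z, true)]) = kp ω L * (1 + ω ^ 2 * z) := by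
        rw [kp_append]; simp [kp]
      rw [e3]
      ring

theorem row_false_fl_last (ω z y : R) (l : List R) (k : List (R × Bool) → R) (h : z * y = ω) :
    row ω z false (fl l ++ [(y, false)]) k =
      (l.map (fun x => ω * (z * x) - 1)).prod * ((ω - 1) * k (fl l ++ [(y, true)])) := by
  induction l generalizing k with
  | nil =>
    rw [fl_nil, List.nil_append, row_cons]
    simp [V, row]
  | cons x l ih =>
    rw [fl_cons, List.cons_append, row_cons]
    have e : fl l ++ [(y, false)] = fl (l ++ [y]) := by rw [fl_append]; rfl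
    simp only [V, ih]
    rw [e, row_true_fl]
    simp only [List.map_append, List.map_cons, List.map_nil, List.prod_append, List.prod_cons,
      List.prod_nil, h, sub_self, List.cons_append]
    ring

/-- Recursion of the second kind. -/
theorem ZZ_rec_b (ω : R) {z₁ z₂ : R} (h : z₁ * z₂ = ω) (l : List R) :
    ZZ ω (z₁ :: (l ++ [z₂])) =
      (ω - 1) * (l.map (fun y => (ω * (z₁ * y) - 1) * (ω * (y * z₂) - 1))).prod * ZZ ω l := by
  unfold ZZ
  simp only [List.length_cons, fl_cons, List.length_append, List.length_nil, zero_add]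
  rw [Z, fl_append, fl_cons, fl_nil, row_false_fl_last ω z₁ z₂ l _ h, Z_last_true,
    List.prod_map_mul]
  simp only [fl, List.map_map, Function.comp_def]
  ring

theorem ZO_rec_b (ω : R) {z₁ z₂ : R} (h : z₁ * z₂ = ω) (l : List R) :
    ZO ω (z₁ :: (l ++ [z₂])) =
      (1 + ω ^ 2 * z₁) * (1 + ω ^ 2 * z₂) *
      ((ω - 1) * (l.map (fun y => (ω * (z₁ * y) - 1) * (ω * (y * z₂) - 1))).prod * ZO ω l) := by
  unfold ZO
  simp only [List.length_cons, fl_cons, List.length_append, List.length_nil, zero_add]
  rw [Zo_cons, fl_append, fl_cons, fl_nil, row_false_fl_last ω z₁ z₂ l _ h, Zo_last_true,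
    List.prod_map_mul]
  have e : fl l ++ [(z₂, false)] = fl (l ++ [z₂]) := by rw [fl_append]; rfl
  rw [e, Bool.not_false, row_true_fl]
  simp only [fl, List.map_map, Function.comp_def, List.map_append, List.map_cons, List.map_nil,
    List.prod_append, List.prod_cons, List.prod_nil, h, sub_self]
  ring

end ring

section field

variable {K : Type} [Field K]

theorem swap_aux {ω : K} (hω : ω ^ 2 + ω + 1 = 0) (h1 : ω ≠ 1) (z₁ z₂ : K)
    (k : List (K × Bool) → K) (h : Ex ω z₁ z₂ k) (h' : Ex ω z₂ z₁ k) (P Q : List (K × Bool)) :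
    k (P ++ (z₁, false) :: (z₂, false) :: Q) = k (P ++ (z₂, false) :: (z₁, false) :: Q) := by
  by_cases hA : ω ^ 2 * z₂ - z₁ = 0
  · by_cases hB : ω ^ 2 * z₁ - z₂ = 0
    · have e1 : z₂ * (ω - 1) = 0 := by
        linear_combination hB + ω ^ 2 * hA - z₂ * ω * (ω - 1) * hω
      have e2 : z₂ = 0 := by
        rcases mul_eq_zero.mp e1 with h | h
        · exact h
        · exact absurd (sub_eq_zero.mp h) h1
      have e3 : z₁ = 0 := by
        rw [e2] at hA; simpa using hA
      rw [e2, e3]
    · have := (h' P Q).e00
      exact (mul_left_cancel₀ hB this).symm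
  · have := (h P Q).e00
    exact mul_left_cancel₀ hA this

theorem ZZ_perm {ω : K} (hω : ω ^ 2 + ω + 1 = 0) (h1 : ω ≠ 1) {l l' : List K} (h : l.Perm l') :
    ∀ P, ZZ ω (P ++ l) = ZZ ω (P ++ l') := by
  induction h with
  | nil => intro P; rfl
  | cons x _ ih =>
    intro P
    have := ih (P ++ [x])
    simpa using this
  | swap x y l =>
    intro P
    unfold ZZ
    simp only [List.length_append, List.length_cons, fl_append, fl_cons]
    exact swap_aux hω h1 _ _ _ (Ex_Z hω _ _ _) (Ex_Z hω _ _ _) _ _
  | trans _ _ ih1 ih2 => intro P; rw [ih1, ih2]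

theorem ZO_perm {ω : K} (hω : ω ^ 2 + ω + 1 = 0) (h1 : ω ≠ 1) {l l' : List K} (h : l.Perm l') :
    ∀ P, ZO ω (P ++ l) = ZO ω (P ++ l') := by
  induction h with
  | nil => intro P; rfl
  | cons x _ ih =>
    intro P
    have := ih (P ++ [x])
    simpa using this
  | swap x y l =>
    intro P
    unfold ZO
    simp only [List.length_append, List.length_cons, fl_append, fl_cons]
    exact swap_aux hω h1 _ _ _ (Ex_Zo hω _ _ _) (Ex_Zo hω _ _ _) _ _
  | trans _ _ ih1 ih2 => intro P; rw [ih1, ih2]

end field

end Pool.Agent.Helper42.OS
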